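import Pool.Agent.Lib.MP_aa40d3_nt.NP.AbsQ

/-! The group theorem for irreducible representations; only the loops in a normal subgroup of
bounded index are known to be quasi-unipotent. -/

open Matrix

namespace Pool.Agent.GR.FK

open GC NP

open Classical in
theorem repC_ind {G : Type} [Group G] {D J : ℕ} {φ : G → ℂ} (h : RepC D φ) (K : Subgroup G)
    [K.Normal] [K.FiniteIndex] (hJ : K.index ≤ J) :
    RepC (J * J * D) fun x => if x ∈ K then φ x else 0 := by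
  obtain ⟨A, _, _, _, hA, ρ, f, hf⟩ := h
  have := Fintype.ofFinite (G ⧸ K)
  let R : G →* Matrix (G ⧸ K) (G ⧸ K) A :=
    { toFun := fun x => Matrix.of fun q q' => if q = (x : G ⧸ K) * q' then ρ x else 0
      map_one' := by
        ext q q'
        simp [Matrix.one_apply]
      map_mul' := fun x y => by
        ext q q'
        rw [Matrix.mul_apply, Finset.sum_eq_single ((y : G ⧸ K) * q')]
        · simp only [Matrix.of_apply, if_true, QuotientGroup.mk_mul, mul_assoc, map_mul]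
          split_ifs
          · rfl
          · rw [zero_mul]
        · intro r _ hr
          simp only [Matrix.of_apply, if_neg hr, mul_zero]
        · intro hr
          exact absurd (Finset.mem_univ _) hr }
  let F : Matrix (G ⧸ K) (G ⧸ K) A →ₗ[ℂ] ℂ :=
    { toFun := fun M => f (M 1 1)
      map_add' := fun M N => by rw [Matrix.add_apply, map_add]
      map_smul' := fun c M => by rw [Matrix.smul_apply, map_smul, RingHom.id_apply] }
  refine ⟨Matrix (G ⧸ K) (G ⧸ K) A, inferInstance, inferInstance, inferInstance, ?_, R, F,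
    fun x => ?_⟩
  · rw [Module.finrank_matrix, ← Nat.card_eq_fintype_card, ← Subgroup.index_eq_card]
    exact Nat.mul_le_mul (Nat.mul_le_mul hJ hJ) hA
  · change _ = f (if (1 : G ⧸ K) = (x : G ⧸ K) * 1 then ρ x else 0)
    have e : (1 : G ⧸ K) = (x : G ⧸ K) * 1 ↔ x ∈ K := by
      rw [mul_one, eq_comm, QuotientGroup.eq_one_iff]
    by_cases hx : x ∈ K
    · rw [if_pos (e.2 hx)]
      exact (if_pos hx).trans (hf x)
    · rw [if_neg (mt e.1 hx), map_zero]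
      exact if_neg hx

theorem escapeK {n : ℕ} {G : Type} [Group G] {Mov : Finset (Fin n)} {L0 : List (Fin n)}
    {g : Fin n → G} (h0 : L0.Nodup) (hall : ∀ a, a ∈ L0)
    (hg : Subgroup.closure (Set.range g) = ⊤) (K : Subgroup G) [K.Normal] [K.FiniteIndex] {J : ℕ}
    (hJ : K.index ≤ J) (P : G → Prop) (hP : ∀ γ x, P x → P (γ * x * γ⁻¹))
    (hPa : ∀ a ∈ Mov, P (g a)) {D : ℕ} (hk : Kf (J * J * D + 1) (J * J * D + 1) ≤ Mov.card)
    {φ : G → ℂ} (hφ : RepC D φ) (hf : ∀ x, IsLoop Mov L0 g x → x ∈ K → φ x = 0) :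
    ∃ N : Subgroup G, N.Normal ∧ (∃ x ∈ N, P x) ∧ ∀ x ∈ N, x ∈ K → φ x = 0 := by
  classical
  obtain ⟨N, h1, h2, h3⟩ := escape h0 hall hg P hP hPa hk (repC_ind hφ K hJ) fun x hx => by
    split_ifs with h
    · exact hf x hx h
    · rfl
  exact ⟨N, h1, h2, fun x hx h => (if_pos h).symm.trans (h3 x hx)⟩

/-- A matrix that is mapped to finitely many multiples of itself. -/
theorem stab_index {s r : ℕ} {G : Type} [Group G] (σ : G →* Mt r) (H : Subgroup G) [H.FiniteIndex]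
    (hs : 0 < s) {z : Mt r} (h : ∀ γ ∈ H, ∃ c : ℂ, c ^ s = 1 ∧ σ γ * z * σ γ⁻¹ = c • z) :
    (stabR σ z).FiniteIndex := by
  classical
  have hfin : Set.Finite {c : ℂ | c ^ s = 1} :=
    (Polynomial.nthRoots s (1 : ℂ)).toFinset.finite_toSet.subset fun c hc => by
      simpa [Polynomial.mem_nthRoots hs] using hc
  have := hfin.to_subtype
  choose c h1 h2 using fun γ : H => h γ γ.2
  have : Finite (H ⧸ (stabR σ z).subgroupOf H) := by
    refine Finite.of_injective (fun q => (⟨c q.out, h1 _⟩ : {c : ℂ | c ^ s = 1})) fun p q e => ?_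
    have e' : c p.out = c q.out := congrArg Subtype.val e
    rw [← QuotientGroup.out_eq' p, ← QuotientGroup.out_eq' q, QuotientGroup.eq,
      Subgroup.mem_subgroupOf, mem_stabR]
    have e1 := h2 p.out
    rw [e', ← h2 q.out] at e1
    have e2 := congrArg (fun w => σ (p.out : G)⁻¹ * w * σ (q.out : G)) e1
    simp only [Matrix.mul_assoc, rep_inv_mul, Matrix.mul_one] at e2
    rw [← Matrix.mul_assoc (σ _) (σ _), rep_inv_mul, Matrix.one_mul, ← Matrix.mul_assoc (σ _)] at e2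
    rw [Subgroup.coe_mul, Subgroup.coe_inv, map_mul]
    exact e2.symm
  have h3 : ((stabR σ z).subgroupOf H).FiniteIndex := Subgroup.finiteIndex_of_finite_quotient
  have h4 : (stabR σ z ⊓ H).FiniteIndex := ⟨by
    rw [← Subgroup.relIndex_mul_index (inf_le_right : stabR σ z ⊓ H ≤ H),
      Subgroup.inf_relIndex_right]
    exact Nat.mul_ne_zero h3.index_ne_zero Subgroup.FiniteIndex.index_ne_zero⟩
  exact Subgroup.finiteIndex_of_le (inf_le_left : stabR σ z ⊓ H ≤ _)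

theorem caseAK (r J : ℕ) [NeZero r] : ∃ k : ℕ, ∀ (n : ℕ) (Mov : Finset (Fin n)) (L0 : List (Fin n))
    (G : Type) [Group G] (g : Fin n → G) (σ : G →* Mt r) (K : Subgroup G) [K.Normal]
    [K.FiniteIndex], K.index ≤ J → L0.Nodup → (∀ a, a ∈ L0) →
    Subgroup.closure (Set.range g) = ⊤ → Function.Injective σ → IrrR σ →
    (∀ x, IsOfFinOrder (σ x).det) → (∀ x, IsLoop Mov L0 g x → x ∈ K → QU (σ x)) →
    (∀ Z : Subalgebra ℂ (Mt r), InvR σ Z → (∃ x ∈ Z, ¬ Scl x) →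
      ∃ M ⊆ Mov, k ≤ M.card ∧ ∀ a ∈ M, ∃ x ∈ Z, σ (g a) * x ≠ x * σ (g a)) →
    ∀ (H : Subgroup G) (B : Subalgebra ℂ (Mt r)), H.Normal → H.FiniteIndex → InvR σ B → CommA B →
    (∀ γ ∈ H, σ γ ∈ B) → H ≤ K → Finite G := by
  classical
  refine ⟨Kf (J * J * (r * r * (r * r) * 2) ^ (r * r).factorial + 1)
    (J * J * (r * r * (r * r) * 2) ^ (r * r).factorial + 1),
    fun n Mov L0 G _ g σ K _ _ hJ h0 hall hg hi hI hd hl hZ H B hHn hHf hB hc hHB hHK => ?_⟩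
  have : Group.FG G := ⟨⟨Finset.univ.image g, by
    rw [Finset.coe_image, Finset.coe_univ, Set.image_univ, hg]⟩⟩
  obtain ⟨d, s, b, hb⟩ := exists_blocks hI B hB
  have hs : ∀ i, s i = 1 := fun i => (b i).eq_one fun y z => hc _ ((b i).mem y) _ ((b i).mem z)
  by_cases hfin : ∀ γ ∈ H, ∀ i, ∃ c : ℂ, IsOfFinOrder c ∧ σ γ * (b i).φ 1 = c • (b i).φ 1
  · exact tor_finite hi H _ (fun i => (b i).ne_zero) hb hfin
  exfalso
  push Not at hfin
  obtain ⟨h₀, hh₀, i, hni⟩ := hfin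
  obtain ⟨c₀, hc₀⟩ := (b i).scalar (hs i) (hHB _ hh₀)
  have hsc : ∀ γ ∈ H, ∃ c : ℂ, σ γ * (b i).φ 1 = c • (b i).φ 1 := fun γ hγ =>
    (b i).scalar (hs i) (hHB _ hγ)
  have he0 := (b i).ne_zero
  have he1 := (b i).idem
  have heo := (b i).orth hB
  have heB := (b i).mem 1
  have hn0 := fun h => hni c₀ h hc₀
  generalize (b i).φ 1 = e at hc₀ hsc he0 he1 heo heB
  have hc0 := (tor_eig he0 hc₀).1
  obtain ⟨v, hv⟩ := exists_addchar (z := Units.mk0 c₀ hc0) fun h => hn0 (Units.isOfFinOrder_val.2 h)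
  obtain ⟨δ, m, hm, hδ, hδq⟩ := exists_detcharQ σ he0
  obtain ⟨hfi, hidx⟩ := orth_index he0 he1 heo
  have hHG : ∀ γ ∈ H, γ ∈ stabR σ e := fun γ hγ => hc _ (hHB γ hγ) _ heB
  obtain ⟨hpow, φ, hφ, hφe⟩ := RepC.ind_pow (stabR σ e) hidx (repC_add (v.comp δ))
  obtain ⟨ψ, hψ⟩ : ∃ ψ : G → ℂ, ∀ x (h : x ∈ stabR σ e), ψ x = (v (δ ⟨x, h⟩)).toAdd :=
    ⟨fun x => if h : x ∈ stabR σ e then (v (δ ⟨x, h⟩)).toAdd else 0, fun x h => dif_pos h⟩
  have hψm : ∀ x ∈ stabR σ e, ∀ y ∈ stabR σ e, ψ (x * y) = ψ x + ψ y := fun x hx y hy => by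
    rw [hψ x hx, hψ y hy, hψ _ (mul_mem hx hy), ← toAdd_mul, ← map_mul, ← map_mul]
    rfl
  have hψc : ∀ x ∈ H, ∀ c : ℂˣ, σ x * e = (c : ℂ) • e → ψ x = m * (v c).toAdd :=
    fun x hx c h => by
      rw [hψ x (hHG x hx), hδ ⟨x, hHG x hx⟩ c h, map_pow, toAdd_pow, nsmul_eq_mul]
  have hCn := caseaC_normal H hHn ψ
  set C := caseaC H hHn ψ with hC
  let Z : Subalgebra ℂ (Mt r) := B ⊓ Subalgebra.centralizer ℂ (σ '' (C : Set G))
  have hZm : ∀ x, x ∈ Z ↔ x ∈ B ∧ ∀ γ ∈ C, σ γ * x = x * σ γ := fun x => by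
    simp only [Z, Algebra.mem_inf, Subalgebra.mem_centralizer_iff, Set.forall_mem_image,
      SetLike.mem_coe]
  have hZi : InvR σ Z := fun γ x hx => by
    obtain ⟨k1, k2⟩ := (hZm x).1 hx
    refine (hZm _).2 ⟨hB γ x k1, fun c hcC => ?_⟩
    have k3 := k2 _ (hCn.conj_mem' c hcC γ)
    calc σ c * (σ γ * x * σ γ⁻¹) = σ γ * (σ (γ⁻¹ * c * γ) * x) * σ γ⁻¹ := by
          rw [← Matrix.mul_assoc, ← Matrix.mul_assoc, ← Matrix.mul_assoc, ← map_mul, ← map_mul]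
          congr 3
          group
      _ = σ γ * x * σ γ⁻¹ * σ c := by
          rw [k3, Matrix.mul_assoc, Matrix.mul_assoc, Matrix.mul_assoc, Matrix.mul_assoc, ← map_mul,
            ← map_mul]
          congr 3
          group
  have hZn : ∃ x ∈ Z, ¬ Scl x := by
    obtain ⟨z, k1, k2, k3⟩ := orbit_sum (σ := σ) C heo he1 fun γ _ h => h
    have hSB : ∀ f ∈ {x : Mt r | ∃ γ ∈ C, x = σ γ * e * σ γ⁻¹}, f ∈ B := by
      rintro _ ⟨γ, -, rfl⟩
      exact hB γ e heB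
    refine ⟨z, (hZm z).2 ⟨(Submodule.span_le (p := Subalgebra.toSubmodule B)).2 hSB k1, k2⟩, ?_⟩
    rintro ⟨a, rfl⟩
    have ha : a = 1 := by
      rw [Matrix.mul_smul, Matrix.mul_one] at k3
      exact smul_left_injective ℂ he0 (k3.trans (one_smul ℂ e).symm)
    rw [ha, one_smul] at k1
    obtain ⟨w, -, w2, w3⟩ := exists_eig (σ h₀)
    have key : ∀ j, ∃ u : ℂˣ, (u : ℂ) = w j ∧ (v u).toAdd = (v (Units.mk0 c₀ hc0)).toAdd := by
      intro j
      obtain ⟨_, ⟨γ, hγ, rfl⟩, k4⟩ :=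
        tor_spec k1 (fun f hf => hc _ (hHB _ hh₀) _ (hSB f hf)) (w3 j)
      have k5 := hHn.conj_mem' h₀ hh₀ γ
      obtain ⟨c, k6⟩ := hsc _ k5
      have k7 : c = w j := k4 c (by
        rw [← Matrix.smul_mul, ← Matrix.mul_smul, ← k6, ← Matrix.mul_assoc, ← Matrix.mul_assoc,
          ← Matrix.mul_assoc, ← map_mul, ← map_mul]
        congr 3
        group)
      refine ⟨Units.mk0 c (tor_eig he0 k6).1, k7, ?_⟩
      have k8 := hγ 1 h₀ hh₀
      rw [inv_one, one_mul, mul_one, one_mul, mul_one, hψc _ k5 (Units.mk0 c (tor_eig he0 k6).1) k6,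
        hψc _ hh₀ (Units.mk0 c₀ hc0) hc₀] at k8
      exact mul_left_cancel₀ (Nat.cast_ne_zero.2 hm.ne') k8
    choose u u1 u2 using key
    have k4 : IsOfFinOrder (∏ j, u j) := by
      refine Units.isOfFinOrder_val.1 ?_
      rw [Units.coe_prod, Finset.prod_congr rfl fun j _ => u1 j, ← w2]
      exact hd h₀
    have k5 := casea_tors (v.isOfFinOrder k4)
    rw [map_prod, toAdd_prod, Finset.sum_congr rfl fun j _ => u2 j, Finset.sum_const,
      Finset.card_univ, Fintype.card_fin, nsmul_eq_mul] at k5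
    exact hv (toAdd_eq_zero.1 ((mul_eq_zero.1 k5).resolve_left (Nat.cast_ne_zero.2 (NeZero.ne r))))
  obtain ⟨M, hM1, hM2, hM3⟩ := hZ Z hZi hZn
  obtain ⟨N, hN, ⟨x, hx, y, hy, hne⟩, hN0⟩ := escapeK (Mov := M) h0 hall hg K hJ
    (fun x => ∃ y ∈ Z, σ x * y ≠ y * σ x) (by
      rintro γ x ⟨y, hy, hne⟩
      refine ⟨_, hZi γ y hy, fun h => hne ?_⟩
      have k1 := congrArg (fun w => σ γ⁻¹ * w * σ γ) h
      simp only [map_mul, Matrix.mul_assoc, rep_inv_mul, Matrix.mul_one] at k1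
      simpa only [← Matrix.mul_assoc, rep_inv_mul, Matrix.one_mul] using k1) hM3 hM2 hφ
    (fun x hx hxK => by
      rw [hφe x ⟨_, hpow x⟩ rfl]
      refine casea_tors (v.isOfFinOrder (hδq _ ?_))
      rw [Subgroup.coe_mk, map_pow]
      exact (hl x (hx.mono hM1) hxK).pow _)
  refine hne (((hZm y).1 hy).2 x fun d h hh => ?_)
  have k1 := hHn.conj_mem' h hh d
  have k2 := hN.conj_mem' x hx d
  have k3 : (d⁻¹ * x * d)⁻¹ * (d⁻¹ * h * d) * (d⁻¹ * x * d) * (d⁻¹ * h * d)⁻¹ ∈ H :=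
    mul_mem (hHn.conj_mem' _ k1 _) (inv_mem k1)
  have k4 : (d⁻¹ * x * d)⁻¹ * (d⁻¹ * h * d) * (d⁻¹ * x * d) * (d⁻¹ * h * d)⁻¹ ∈ N := by
    rw [mul_assoc, mul_assoc, ← mul_assoc (d⁻¹ * h * d)]
    exact mul_mem (inv_mem k2) (hN.conj_mem _ k2 _)
  have k5 : d⁻¹ * (x⁻¹ * h * x) * d = (d⁻¹ * x * d)⁻¹ * (d⁻¹ * h * d) * (d⁻¹ * x * d) *
      (d⁻¹ * h * d)⁻¹ * (d⁻¹ * h * d) := by group
  rw [k5, hψm _ (hHG _ k3) _ (hHG _ k1), add_eq_right]
  generalize (d⁻¹ * x * d)⁻¹ * (d⁻¹ * h * d) * (d⁻¹ * x * d) * (d⁻¹ * h * d)⁻¹ = κ at k3 k4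
  have k6 := hN0 κ k4 (hHK k3)
  rw [hφe κ (⟨κ, hHG κ k3⟩ ^ (r * r).factorial) rfl, map_pow, toAdd_pow, nsmul_eq_mul] at k6
  rw [hψ κ (hHG κ k3)]
  exact (mul_eq_zero.1 k6).resolve_left (Nat.cast_ne_zero.2 (Nat.factorial_ne_zero _))

theorem caseBK (r J : ℕ) : ∃ k : ℕ, ∀ (n : ℕ) (Mov : Finset (Fin n)) (L0 : List (Fin n)) (G : Type)
    [Group G] (g : Fin n → G) (σ : G →* Mt r) (K : Subgroup G) [K.Normal] [K.FiniteIndex],
    K.index ≤ J → L0.Nodup → (∀ a, a ∈ L0) →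
    Subgroup.closure (Set.range g) = ⊤ → (∀ x, IsLoop Mov L0 g x → x ∈ K → QU (σ x)) →
    ∀ (A : Subalgebra ℂ (Mt r)) (s : ℕ) (b : Blk A s), 2 ≤ s → InvR σ A →
    (∀ A' ≤ A, InvR σ A' → CommA A' ∨ A' = A) →
    (∀ A', InvR σ A' → CommA A' → ∀ x ∈ A, ∀ y ∈ A', x * y = y * x) →
    (∀ z, (stabR σ z).FiniteIndex → ∀ x ∈ A, x * z = z * x) → k ≤ Mov.card →
    (∀ a ∈ Mov, ∃ x ∈ A, σ (g a) * x ≠ x * σ (g a)) →
    ∃ H : Subgroup G, H.FiniteIndex ∧ ∀ γ ∈ H, ∀ y, σ γ * b.φ y = b.φ y * σ γ := by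
  obtain ⟨l, hl1, hl⟩ := Nat.exists_infinite_primes (r * r + 2)
  refine ⟨Kf
    (J * J * (r * r * (r * r) * ((r * r) ^ (r * l) + (r * r) ^ (r * l))) ^ (r * r).factorial + 1)
    (J * J * (r * r * (r * r) * ((r * r) ^ (r * l) + (r * r) ^ (r * l))) ^ (r * r).factorial + 1),
    ?_⟩
  intro n Mov L0 G _ g σ K _ _ hJ h0 hall hg hfin A s b hs hA hm hcc hco hk hP
  have : Group.FG G := Group.fg_iff.2 ⟨Set.range g, hg, Set.finite_range g⟩
  obtain ⟨Γ, hΓ, hΓ1, hΓ2⟩ := b.exists_group hA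
  have : NeZero s := ⟨by omega⟩
  have hsl : s * s + 1 < l := by
    have := Nat.mul_le_mul b.le b.le
    omega
  have : Finite Γ := by
    refine arith_absQ (incl_inj Γ) (fun x => (hΓ1 x.1 x.2).choose_spec.1) (b.simp hA hm hcc hΓ2) hl
      hsl {x | ∃ (u : Γ) (c : G), (IsLoop Mov L0 g c ∧ c ∈ K) ∧ b.Lf σ (c ^ (r * r).factorial) u.val ∧
        x = u ^ s} ?_ ?_
    · rintro _ ⟨u, c, hc, hu, rfl⟩
      rw [map_pow, incl_apply]
      exact (QU.lift hu (by rw [map_pow]; exact (hfin c hc.1 hc.2).pow _)).pow _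
    · intro τ c hc hL
      have hcl : c ≤ l := by
        rcases hc with rfl | rfl
        exacts [hl.one_lt.le, le_rfl]
      obtain ⟨he, φ, hφ, hφ'⟩ := blk_repC b hA τ hcl
      obtain ⟨N, hN, hNP, hN0⟩ := escapeK h0 hall hg K hJ
        (fun x => ∃ y ∈ A, σ x * y ≠ y * σ x)
        (caseb_conj hA) hP hk hφ fun x hx hxK => by
          obtain ⟨u, hu, hxu⟩ := hΓ2 _ (he x)
          have h1 := hL _ ⟨⟨u, hu⟩, x, ⟨hx, hxK⟩, hxu, rfl⟩
          rw [map_pow, incl_apply, ← pow_mul, ← pow_mul] at h1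
          rw [hφ' x u hxu, h1, sub_self]
      refine ⟨casebN σ b Γ (N ⊓ K), ⟨?_⟩, ?_, (r * r).factorial * s,
        Nat.mul_pos (Nat.factorial_pos _) b.pos, ?_⟩
      · rintro u ⟨γ, hγ, hu⟩ v
        obtain ⟨δ, hv⟩ := hΓ1 v.1 v.2
        exact ⟨δ * γ * δ⁻¹, (inferInstance : (N ⊓ K).Normal).conj_mem γ hγ δ,
          (hv.mul hu).mul hv.inv⟩
      · obtain ⟨γ, hγ, hγ1, y, hy⟩ := b.moves hs hA hm N hNP
        obtain ⟨u, hu, hγu⟩ := hΓ2 γ hγ1
        by_contra hno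
        push Not at hno
        have := (orth_index (σ := σ) b.ne_zero b.idem (b.orth hA)).1
        have k1 := stab_index σ (K ⊓ stabR σ (b.φ 1)) b.pos (z := b.φ u.val) fun δ hδ => by
          obtain ⟨v, hv, hδv⟩ := hΓ2 δ hδ.2
          have k2 := ((hδv.mul hγu).mul hδv.inv).mul hγu.inv
          have k3 : δ * γ * δ⁻¹ * γ⁻¹ ∈ N ⊓ K := ⟨N.mul_mem (hN.conj_mem γ hγ δ) (N.inv_mem hγ), by
            change _ ∈ K
            rw [mul_assoc, mul_assoc, ← mul_assoc γ]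
            exact K.mul_mem hδ.1 (Subgroup.Normal.conj_mem inferInstance _ (K.inv_mem hδ.1) γ)⟩
          obtain ⟨a, ha⟩ := hno ⟨_, mul_mem (mul_mem (mul_mem hv hu) (inv_mem hv)) (inv_mem hu)⟩
            ⟨_, k3, k2⟩
          have ha' : (v * u * v⁻¹ * u⁻¹).val = a • (1 : Mt s) := ha
          refine ⟨a, ?_, ?_⟩
          · have k4 := k2.1
            rwa [ha', det_smul, det_one, mul_one, Fintype.card_fin] at k4
          · rw [← hδv.2, ← map_smul]
            congr 1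
            have k4 := congrArg (· * u.val) ha'
            simp only [Units.val_mul] at k4
            rw [Units.inv_mul_cancel_right] at k4
            rw [k4, Matrix.smul_mul, Matrix.one_mul]
        refine hy (hγu.scl_iff.1 (lifta_scl fun w => b.inj ?_) y)
        rw [map_mul, map_mul]
        exact (hco _ k1 _ (b.mem w)).symm
      · rintro u ⟨γ, hγ, hu⟩
        have h1 := hφ' γ _ (hu.pow _)
        rw [hN0 γ hγ.1 hγ.2, Units.val_pow_eq_pow_val, ← pow_mul, ← pow_mul, ← mul_assoc,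
          ← mul_assoc] at h1
        exact sub_eq_zero.1 h1.symm
  exact b.comm_of_finite hA hΓ2

theorem finite_absK (r J : ℕ) [NeZero r] : ∃ k : ℕ, ∀ (n : ℕ) (Mov : Finset (Fin n))
    (L0 : List (Fin n)) (G : Type) [Group G] (g : Fin n → G) (σ : G →* Mt r) (K : Subgroup G)
    [K.Normal] [K.FiniteIndex], K.index ≤ J → L0.Nodup →
    (∀ a, a ∈ L0) → Subgroup.closure (Set.range g) = ⊤ → Function.Injective σ → IrrR σ →
    (∀ a, QU (σ (g a))) → (∀ x, IsLoop Mov L0 g x → x ∈ K → QU (σ x)) →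
    (∀ Z : Subalgebra ℂ (Mt r), InvR σ Z → (∃ x ∈ Z, ¬ Scl x) →
      ∃ M ⊆ Mov, k ≤ M.card ∧ ∀ a ∈ M, ∃ x ∈ Z, σ (g a) * x ≠ x * σ (g a)) → Finite G := by
  classical
  obtain ⟨k₁, hA⟩ := caseAK r J
  obtain ⟨k₂, hB⟩ := caseBK r J
  refine ⟨max k₁ k₂, fun n Mov L0 G _ g σ K _ _ hJ h0 hall hg hi hI hfo hl hZ => ?_⟩
  have hd : ∀ x, IsOfFinOrder (σ x).det := fun x => by
    have hx : x ∈ Subgroup.closure (Set.range g) := hg ▸ Subgroup.mem_top x
    induction hx using Subgroup.closure_induction with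
    | mem y hy =>
      obtain ⟨a, rfl⟩ := hy
      exact (hfo a).det
    | one => rw [map_one, det_one]; exact IsOfFinOrder.one
    | mul y z _ _ hy hz => rw [map_mul, det_mul]; exact hy.mul hz
    | inv y _ hy =>
      obtain ⟨m, hm, e⟩ := isOfFinOrder_iff_pow_eq_one.1 hy
      refine isOfFinOrder_iff_pow_eq_one.2 ⟨m, hm, ?_⟩
      have h3 := congrArg (fun w => w.det ^ m) (rep_mul_inv σ y)
      simpa only [det_mul, mul_pow, e, one_mul, det_one, one_pow] using h3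
  obtain ⟨H, hH1, hH2, hH3⟩ := exists_coreR σ
  obtain ⟨B, hBm⟩ := spR_alg σ H
  have hBi : InvR σ B := fun γ x hx => (hBm _).2 (spR_inv H γ ((hBm x).1 hx))
  by_cases hc : CommA B
  · refine hA n Mov L0 G g σ K hJ h0 hall hg hi hI hd hl (fun Z h3 h4 => ?_) (H ⊓ K) B
      inferInstance inferInstance hBi hc
      (fun γ hγ => (hBm _).2 (Submodule.subset_span ⟨γ, hγ.1, rfl⟩)) inf_le_right
    obtain ⟨M, k1, k2, k3⟩ := hZ Z h3 h4
    exact ⟨M, k1, (le_max_left _ _).trans k2, k3⟩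
  · exfalso
    obtain ⟨A, a1, a2, a3, a4⟩ := exists_minA B hBi hc
    obtain ⟨s, hs, ⟨b⟩⟩ := exists_big_block hI a2 a3
    obtain ⟨M, k1, k2, k3⟩ := hZ A a2 (by
      by_contra h3
      push Not at h3
      refine a3 fun x hx y _ => ?_
      obtain ⟨c, rfl⟩ := h3 x hx
      rw [Matrix.smul_mul, Matrix.mul_smul, Matrix.one_mul, Matrix.mul_one])
    obtain ⟨H', k4, k5⟩ := hB n M L0 G g σ K hJ h0 hall hg (fun x hx => hl x (hx.mono k1)) A s b
      hs a2 a4 (fun A' k6 k7 x hx y hy => by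
        obtain ⟨H'', k8, k9⟩ := comm_index hI k6 k7
        exact spR_comm (fun γ hγ => k9 γ hγ y hy) (hH3 H'' k8 ((hBm x).1 (a1 hx))))
      (fun z hz x hx => spR_comm (fun γ hγ => hγ) (hH3 _ hz ((hBm x).1 (a1 hx))))
      ((le_max_right _ _).trans k2) k3
    have h3 := b.eq_one fun y z =>
      spR_comm (fun γ hγ => k5 γ hγ z) (hH3 H' k4 ((hBm _).1 (a1 (b.mem y))))
    omega

end Pool.Agent.GR.FK
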