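import Pool.Agent.Lib.MP_aa40d3_nt.FK.Cap
import Pool.Agent.Lib.MP_aa40d3_nt.FB.NSmall

/-! Connected coverings: only the loops around two branch points are known. -/

open Matrix

namespace Pool.Agent.GR.FK

open GC NP

theorem finite_bigK (p r : ℕ) (hp : 1 ≤ p) (hr : 1 ≤ r) : ∃ k : ℕ, ∀ (d m : ℕ) (G : Type) [Group G]
    (σ : G →* Mt m) (b : BR σ d) (l : List G), p + 3 ≤ d → gen l = ⊤ →
    b.bs.Trans ⊤ Finset.univ → (∀ i, (b.e i).rank = r) → (∀ x ∈ l, b.bs.Ok p x) →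
    b.bs.Ok p l.prod → (∀ x ∈ l, IsOfFinOrder x) → PairQ b.bs IsOfFinOrder l →
    2 * d + k ≤ b.bs.cnt l → Finite G := by
  obtain ⟨k, hk⟩ := finite_smallF p ((p + 2) * r) hp
  refine ⟨k, fun d m G _ σ b l hd hg ht hrk hok hpr hl hf hc => ?_⟩
  have h0 : ∀ i, b.e i ≠ 0 := fun i e => by
    have := hrk i
    rw [e, Matrix.rank_zero] at this
    omega
  obtain ⟨S₀, h1, h2⟩ := hpr.supp hp
  obtain ⟨c, hc'⟩ := Nat.exists_eq_add_of_le hd
  obtain ⟨S, hS, A, h3, h4, h5, h6, h7⟩ := reduceK hp h1 hc' hg hok ht h2 hf hl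
    (fun γ x hx => (isConj_iff.2 ⟨γ, rfl⟩ : IsConj x (γ * x * γ⁻¹)).isOfFinOrder hx)
    (fin_sheets b.bs)
  obtain ⟨i, hi⟩ : S.Nonempty := Finset.card_pos.1 (by omega)
  suffices Finite (gen A) from BS.finite_of_agree ht hi h5
  obtain ⟨m', σ', b', k1, k2, k3, k4, k5, -⟩ := b.restrict (gen A) h4
  let l' : List (gen A) := A.pmap Subtype.mk fun _ => mem_gen
  have hl' : l'.map (gen A).subtype = A := by
    simp only [l', List.map_pmap, Subgroup.coe_subtype, List.pmap_eq_map, List.map_id']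
  have hm : ∀ x : gen A, x ∈ l' ↔ x.val ∈ A := fun x =>
    (List.mem_map_of_injective (gen A).subtype_injective).symm.trans
      (iff_of_eq (congrArg (fun L => x.val ∈ L) hl'))
  have hπ : ∀ y, b'.bs.π y = b.bs.π y.val := k2
  have hK : ∀ y i, y ∈ b'.bs.K i ↔ y.val ∈ b.bs.K i := k3
  refine hk m' (k1.trans ?_) _ (gen A) σ' b' S l' (k5 i hi (h0 i)) hS ?_ (fun x hx => ?_)
    (fun x _ j hj => (hK x j).2 (h4 x x.2 j hj)) (fun u hu v hv => ?_) k4
    (LK.of_map (gen A).subtype (fun x => (hπ x).symm) 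
      (fun _ => (gen A).subtype_injective.isOfFinOrder_iff.1)
      (hl'.symm ▸ h7)) ?_
  · simp only [hrk, Finset.sum_const, hS, smul_eq_mul, le_refl]
  · apply Subgroup.map_injective (gen A).subtype_injective
    rw [← MonoidHom.range_eq_map, Subgroup.range_subtype]
    refine (MonoidHom.map_closure _ _).trans (congrArg Subgroup.closure ?_)
    ext x
    exact ⟨fun ⟨y, hy, e⟩ => e ▸ (hm y).1 hy, fun hx => ⟨⟨x, mem_gen hx⟩, (hm _).2 hx, rfl⟩⟩
  · rcases h3 x ((hm x).1 hx) with ⟨u, v, e1, e2, e3, e4⟩ | ⟨e1, T, e2, e3⟩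
    · exact Or.inl ⟨u, v, e1, (hπ x).trans e2, Subtype.ext e3, fun w a1 a2 =>
        (hK x w).2 (e4 w a1 a2)⟩
    · exact Or.inr ⟨(hπ x).trans e1, T, e2, fun w a1 => (hK x w).2 (e3 w a1)⟩
  · obtain ⟨x, hx, e⟩ := h5.trans_of ht (Finset.subset_univ S) u hu v hv
    exact ⟨⟨x, hx⟩, Subgroup.mem_top _, by rw [hπ]; exact e⟩
  · have : b'.bs.cnt l' = b.bs.cnt A := by
      conv_rhs => rw [← hl', BS.cnt, List.countP_map]
      exact List.countP_congr fun x _ => by simp [hπ]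
    omega

theorem vu_bigK (p r : ℕ) (hp : 1 ≤ p) (hr : 1 ≤ r) : ∃ k : ℕ, ∀ (d m : ℕ) (G : Type) [Group G]
    (σ : G →* Mt m) (b : BR σ d) (l : List G), p + 3 ≤ d → gen l = ⊤ →
    b.bs.Trans ⊤ Finset.univ → (∀ i, (b.e i).rank = r) → (∀ x ∈ l, b.bs.Ok p x) →
    b.bs.Ok p l.prod → (∀ x ∈ l, QU (σ x)) → PairQ b.bs (fun x => QU (σ x)) l →
    2 * d + k ≤ b.bs.cnt l → VU σ := by
  obtain ⟨k, hk⟩ := vu_smallK p ((p + 2) * r) hp
  refine ⟨k, fun d m G _ σ b l hd hg ht hrk hok hpr hl hf hc => ?_⟩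
  have h0 : ∀ i, b.e i ≠ 0 := fun i e => by
    have := hrk i
    rw [e, Matrix.rank_zero] at this
    omega
  have : Group.FG G := Group.fg_iff.2 ⟨_, hg, l.finite_toSet⟩
  obtain ⟨S₀, h1, h2⟩ := hpr.supp hp
  obtain ⟨c, hc'⟩ := Nat.exists_eq_add_of_le hd
  obtain ⟨S, hS, A, h3, h4, h5, h6, h7⟩ := reduceK hp h1 hc' hg hok ht h2 hf hl
    FBN.qu_conj (qu_sheets b)
  obtain ⟨i, hi⟩ : S.Nonempty := Finset.card_pos.1 (by omega)
  obtain ⟨m', σ', b', k1, k2, k3, k4, k5, k6, k7⟩ := restrictQ b (gen A) h4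
  refine vu_of_agree b ht hi h5 (k7 ?_)
  let l' : List (gen A) := A.pmap Subtype.mk fun _ => mem_gen
  have hl' : l'.map (gen A).subtype = A := by
    simp only [l', List.map_pmap, Subgroup.coe_subtype, List.pmap_eq_map, List.map_id']
  have hm : ∀ x : gen A, x ∈ l' ↔ x.val ∈ A := fun x =>
    (List.mem_map_of_injective (gen A).subtype_injective).symm.trans
      (iff_of_eq (congrArg (fun L => x.val ∈ L) hl'))
  have hπ : ∀ y, b'.bs.π y = b.bs.π y.val := k2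
  have hK : ∀ y i, y ∈ b'.bs.K i ↔ y.val ∈ b.bs.K i := k3
  refine hk m' (k1.trans ?_) _ (gen A) σ' b' S l' (k5 i hi (h0 i)) hS ?_ (fun x hx => ?_)
    (fun x _ j hj => (hK x j).2 (h4 x x.2 j hj)) (fun u hu v hv => ?_) k4
    (LK.of_map (gen A).subtype (fun x => (hπ x).symm) (Q' := fun x => QU (σ x)) k6
      (hl'.symm ▸ h7)) ?_
  · simp only [hrk, Finset.sum_const, hS, smul_eq_mul, le_refl]
  · apply Subgroup.map_injective (gen A).subtype_injective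
    rw [← MonoidHom.range_eq_map, Subgroup.range_subtype]
    refine (MonoidHom.map_closure _ _).trans (congrArg Subgroup.closure ?_)
    ext x
    exact ⟨fun ⟨y, hy, e⟩ => e ▸ (hm y).1 hy, fun hx => ⟨⟨x, mem_gen hx⟩, (hm _).2 hx, rfl⟩⟩
  · rcases h3 x ((hm x).1 hx) with ⟨u, v, e1, e2, e3, e4⟩ | ⟨e1, T, e2, e3⟩
    · exact Or.inl ⟨u, v, e1, (hπ x).trans e2, Subtype.ext e3, fun w a1 a2 =>
        (hK x w).2 (e4 w a1 a2)⟩
    · exact Or.inr ⟨(hπ x).trans e1, T, e2, fun w a1 => (hK x w).2 (e3 w a1)⟩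
  · obtain ⟨x, hx, e⟩ := h5.trans_of ht (Finset.subset_univ S) u hu v hv
    exact ⟨⟨x, hx⟩, Subgroup.mem_top _, by rw [hπ]; exact e⟩
  · have : b'.bs.cnt l' = b.bs.cnt A := by
      conv_rhs => rw [← hl', BS.cnt, List.countP_map]
      exact List.countP_congr fun x _ => by simp [hπ]
    omega

end Pool.Agent.GR.FK
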