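import Pool.Agent.Lib.MP_aa40d3_nt.FK.Small

/-! Few sheets; only the loops that keep all sheets are known to have finite order. -/

open Matrix

namespace Pool.Agent.GR.FK

open GC NP

theorem centralK (m : ℕ) : ∃ k : ℕ, ∀ (G : Type) [Group G] (ρ : G →* Mt m) (P : G → Bool)
    (d : ℕ) (π : G →* Equiv.Perm (Fin d)), ρ.ker ≤ π.ker →
    ρ.ker.FiniteIndex → (∀ γ x, P x → P (γ * x * γ⁻¹)) → (∀ x, P x → x * x = 1) →
    (∀ w ∈ ρ.ker, IsOfFinOrder w → w = 1) → ∀ l : List G, gen l = ⊤ → LK π IsOfFinOrder l →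
    k ≤ l.countP P → ∃ x, P x ∧ ∀ w ∈ ρ.ker, x * w = w * x := by
  obtain ⟨k, hk⟩ := triple m
  refine ⟨k, fun G _ ρ P d π hπ hfi hc h2 ht l hg hl hn => ?_⟩
  obtain ⟨x, y, z, R, h1, hx, hy, -, e1, e2⟩ := hk G ρ P hfi hc h2 l hn
  have hf := hl.hur h1
  have key : ∀ u v : G, P u → ρ u = ρ v → (π (u * v) = 1 → IsOfFinOrder (u * v)) → v = u :=
    fun u v hu e h => by
      have h4 : u * v ∈ ρ.ker := by
        rw [MonoidHom.mem_ker, map_mul, ← e, ← map_mul, h2 u hu, map_one]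
      exact mul_left_cancel ((ht (u * v) h4 (h (hπ h4))).trans (h2 u hu).symm)
  obtain rfl := key x y hx e1 (LK.adj (A := []) hf)
  obtain rfl := key y z hy e2 (LK.adj (A := [y]) hf)
  have h3 : gen (z :: R) = ⊤ := by
    rw [eq_top_iff, ← hg, ← h1.gen, gen_le]
    intro u hu
    exact mem_gen (by simpa using hu)
  refine ⟨z, hx, fun w hw => ?_⟩
  have h4 := hf.hur (circle (z :: R) (y := w) (h3 ▸ Subgroup.mem_top w) (h2 z hx))
  have h5 : z = w⁻¹ * z * w := by
    refine key _ _ (by simpa using hc w⁻¹ z hx) ?_ (LK.adj (A := [w⁻¹ * z * w]) h4)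
    rw [map_mul, map_mul, MonoidHom.mem_ker.1 hw, MonoidHom.mem_ker.1 (inv_mem hw), one_mul,
      mul_one]
  conv_rhs => rw [h5]
  group

/-- The claim for matrices of size `m`. -/
def SmallF (r k m : ℕ) : Prop :=
  ∀ (d : ℕ) (G : Type) [Group G] (σ : G →* Mt m) (b : BR σ d) (S : Finset (Fin d)) (l : List G),
    m ≠ 0 → S.card = r + 2 → gen l = ⊤ → (∀ x ∈ l, b.bs.Ok r x) → b.bs.Sup ⊤ S → b.bs.Trans ⊤ S →
    (∀ j, j ∉ S → b.e j = 0) → LK b.π IsOfFinOrder l → k ≤ b.bs.cnt l → Finite G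

theorem ind_quotF {r k d m : ℕ} {G : Type} [Group G] {σ : G →* Mt m} (b : BR σ d)
    {S : Finset (Fin d)} {l : List G} (hS : S.card = r + 2) (hg : gen l = ⊤)
    (hok : ∀ x ∈ l, b.bs.Ok r x) (hs : b.bs.Sup ⊤ S) (ht : b.bs.Trans ⊤ S)
    (he : ∀ j, j ∉ S → b.e j = 0) (hf : LK b.π IsOfFinOrder l) (hc : k ≤ b.bs.cnt l)
    {E : Mt m} (hE : E * E = E)
    (hEe : ∀ i, E * b.e i = b.e i * E) (hσ : ∀ x y, E * σ x * E * σ y * E = E * σ (x * y) * E)
    (h0 : ∀ i ∈ S, E * b.e i ≠ 0) (hm : E.rank ≠ 0) (ih : SmallF r k E.rank) :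
    ∃ N : Subgroup G, N.FiniteIndex ∧ (∀ x ∈ N, E * σ x * E = E) ∧
      ∀ x, E * σ x * E = E → b.π x = 1 := by
  obtain ⟨N, hN, σ', b', k1, k2, k3, k4⟩ := b.compress hE hEe hσ hs h0
  have hπ : ∀ x : G, b'.bs.π (QuotientGroup.mk' N x) = b.bs.π x := k2
  have hK : ∀ (x : G) i, x ∈ b.bs.K i → QuotientGroup.mk' N x ∈ b'.bs.K i := k3
  have : Finite (G ⧸ N) := by
    refine ih d _ σ' b' S (l.map (QuotientGroup.mk' N)) hm hS ?_ (fun y hy => ?_)
      (fun y _ j hj => ?_) (fun u hu v hv => ?_) (fun j hj => k4 j (he j hj))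
      (hf.map _ hπ fun _ => MonoidHom.isOfFinOrder _) ?_
    · rw [eq_top_iff, ← MonoidHom.range_eq_top.2 (QuotientGroup.mk'_surjective N),
        MonoidHom.range_eq_map, ← hg, Subgroup.map_le_iff_le_comap, gen_le]
      exact fun x hx => mem_gen (List.mem_map_of_mem hx)
    · obtain ⟨x, hx, rfl⟩ := List.mem_map.1 hy
      rcases hok x hx with ⟨u, v, e1, e2, e3, e4⟩ | ⟨e1, T, e2, e3⟩
      · exact Or.inl ⟨u, v, e1, (hπ x).trans e2, by rw [← map_mul, e3, map_one],
          fun w a1 a2 => hK x w (e4 w a1 a2)⟩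
      · exact Or.inr ⟨(hπ x).trans e1, T, e2, fun w a1 => hK x w (e3 w a1)⟩
    · obtain ⟨x, rfl⟩ := QuotientGroup.mk'_surjective N y
      exact hK x j (hs x (Subgroup.mem_top x) j hj)
    · obtain ⟨x, -, e⟩ := ht u hu v hv
      exact ⟨QuotientGroup.mk' N x, Subgroup.mem_top _, by rw [hπ]; exact e⟩
    · rw [BS.cnt, List.countP_map]
      exact hc.trans (List.countP_congr fun x _ => by simp only [Function.comp, hπ]).le
  exact ⟨N, Subgroup.finiteIndex_of_finite_quotient, fun x hx => (k1 x).1 hx, fun x hx => by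
    rw [← k2, (QuotientGroup.eq_one_iff x).2 ((k1 x).2 hx), map_one]⟩

theorem finite_smallF (r D : ℕ) (hr : 1 ≤ r) : ∃ k : ℕ, ∀ m ≤ D, SmallF r k m := by
  classical
  obtain ⟨k₁, h₁⟩ := finite_smallK r D hr
  choose f hf using centralK
  refine ⟨max k₁ ((Finset.range (D + 1)).sup f), fun m => ?_⟩
  induction m using Nat.strong_induction_on with
  | _ m ih =>
  intro hD d G _ σ b S l hm hS hg hok hs ht he hF hc
  by_cases hI : ∀ i ∈ S, b.Irr1 ⊤ i
  · exact h₁ d m G σ b S l hm hD hS hg hok hs ht he hI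
      (fun A B h h' => qu_of_fin σ (hF A B h h')) ((le_max_left _ _).trans hc)
  push Not at hI
  obtain ⟨i, hi, hI⟩ := hI
  obtain ⟨Q, q1, q2, q3, q4, q5⟩ := b.exists_proj ht hi hI
  have hne : ∀ E : Mt m, E * b.e i ≠ 0 → E.rank ≠ 0 := fun E h2 h3 => by
    rw [Matrix.rank, Submodule.finrank_eq_zero, LinearMap.range_eq_bot, ← toLin'_apply',
      LinearEquiv.map_eq_zero_iff] at h3
    exact h2 (by rw [h3, zero_mul])
  have p1 : (1 - Q) * (1 - Q) = 1 - Q := by
    rw [mul_sub, sub_mul, sub_mul, q1, mul_one, mul_one, one_mul, sub_self, sub_zero]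
  have p2 : ∀ x, (1 - Q) * σ x * Q = 0 := fun x => by
    rw [sub_mul, sub_mul, one_mul, q3, sub_self]
  have p3 : Q * (1 - Q) = 0 := by rw [mul_sub, q1, mul_one, sub_self]
  have p4 : (1 - Q) * Q = 0 := by rw [sub_mul, q1, one_mul, sub_self]
  have m1 : ∀ x y, Q * σ x * Q * σ y * Q = Q * σ (x * y) * Q := fun x y => by
    rw [mul_assoc (Q * σ x), mul_assoc (Q * σ x), q3, map_mul]
    simp only [mul_assoc]
  have m2 : ∀ x y, (1 - Q) * σ x * (1 - Q) * σ y * (1 - Q) = (1 - Q) * σ (x * y) * (1 - Q) :=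
    fun x y => by rw [mul_sub ((1 - Q) * σ x), p2, mul_one, sub_zero, map_mul, ← mul_assoc]
  have hr1 := hne Q (q4 i hi)
  have hr2 := hne _ (q5 i hi)
  have hrk := rank_idem q1
  obtain ⟨N₁, n1, n2, n5⟩ := ind_quotF b hS hg hok hs ht he hF hc q1 q2 m1 q4 hr1
    (ih _ (by omega) (by omega))
  obtain ⟨N₂, n3, n4, -⟩ := ind_quotF b hS hg hok hs ht he hF hc p1
    (fun j => by rw [sub_mul, mul_sub, one_mul, mul_one, q2]) m2 q5 hr2 (ih _ (by omega) (by omega))
  let ρ : G →* Mt m :=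
    { toFun := fun x => Q * σ x * Q + (1 - Q) * σ x * (1 - Q)
      map_one' := by rw [map_one, mul_one, mul_one, q1, p1, add_sub_cancel]
      map_mul' := fun x y => by
        rw [← m1, ← m2]
        simp only [mul_add, add_mul, ← mul_assoc]
        rw [mul_assoc _ Q Q, q1, mul_assoc _ Q (1 - Q), p3, mul_assoc _ (1 - Q) Q, p4,
          mul_assoc _ (1 - Q) (1 - Q), p1]
        simp }
  have hρ : ∀ x, σ x = ρ x + Q * σ x * (1 - Q) := fun x => by
    have h := p2 x
    change _ = Q * σ x * Q + (1 - Q) * σ x * (1 - Q) + _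
    rw [← sub_eq_zero, ← h]
    noncomm_ring
  have hfi : ρ.ker.FiniteIndex := Subgroup.finiteIndex_of_le (H := N₁ ⊓ N₂) fun x hx => by
    change Q * σ x * Q + (1 - Q) * σ x * (1 - Q) = 1
    rw [n2 x hx.1, n4 x hx.2, add_sub_cancel]
  have htf : ∀ w ∈ ρ.ker, IsOfFinOrder w → w = 1 := fun w hw h => by
    obtain ⟨n, hn, e⟩ := isOfFinOrder_iff_pow_eq_one.1 h
    have h1 := hρ w
    rw [MonoidHom.mem_ker.1 hw] at h1
    have h2 := congrArg σ e
    rw [map_pow, h1, ind_unip (by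
      rw [mul_assoc Q, mul_assoc Q, mul_assoc (σ w), ← mul_assoc (1 - Q), p4, zero_mul, mul_zero,
        mul_zero]), map_one, add_eq_left, smul_eq_zero] at h2
    refine b.inj ?_
    rw [h1, h2.resolve_left (Nat.cast_ne_zero.2 hn.ne'), add_zero, map_one]
  have hcn := BS.conn hg hok ht
  have hπ : ρ.ker ≤ b.π.ker := fun x hx => n5 x (by
    have h : Q * σ x * Q + (1 - Q) * σ x * (1 - Q) = 1 := hx
    have h2 := congrArg (· * Q) h
    simp only [add_mul, mul_assoc, q1, p4, mul_zero, add_zero, one_mul] at h2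
    rwa [mul_assoc])
  obtain ⟨x, ⟨u, v, hx⟩, hc'⟩ : ∃ x, (∃ u v, b.bs.Swap x u v) ∧ ∀ w ∈ ρ.ker, x * w = w * x := by
    obtain ⟨x, h2, h3⟩ := hf m G ρ (fun x => decide (∃ u v, b.bs.Swap x u v)) d b.π hπ hfi
      (fun γ x h => by
        obtain ⟨u, v, h⟩ := of_decide_eq_true h
        exact decide_eq_true ⟨_, _, h.conj γ⟩)
      (fun x h => by
        obtain ⟨u, v, h⟩ := of_decide_eq_true h
        exact h.2.2.1) htf l hg hF
      (((Finset.le_sup (f := f) (Finset.mem_range.2 (by omega))).trans (le_max_right _ _)).trans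
        (hc.trans (List.countP_mono_left fun y hy h => decide_eq_true
          ((hok y hy).resolve_right fun h' => of_decide_eq_true h h'.1))))
    exact ⟨x, of_decide_eq_true h2, h3⟩
  have hcen : ρ.ker ≤ Subgroup.center G := fun w hw => Subgroup.mem_center_iff.2 fun y => b.inj (by
    rw [map_mul, map_mul]
    refine b.nc hg hr hok hS.ge he hs hcn (B := Algebra.adjoin ℂ (σ '' ρ.ker)) (fun γ z hz => ?_) hx
      (fun z hz => (Algebra.commute_of_mem_adjoin_of_forall_mem_commute hz ?_).eq) y _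
      (Algebra.subset_adjoin ⟨w, hw, rfl⟩)
    · induction hz using Algebra.adjoin_induction with
      | mem z hz =>
        obtain ⟨z, hz, rfl⟩ := hz
        exact Algebra.subset_adjoin ⟨_, ρ.normal_ker.conj_mem z hz γ, by rw [map_mul, map_mul]⟩
      | algebraMap c =>
        rw [← Algebra.commutes, mul_assoc, rep_mul_inv, mul_one]
        exact Subalgebra.algebraMap_mem _ c
      | add y z _ _ hy hz =>
        rw [mul_add, add_mul]
        exact Subalgebra.add_mem _ hy hz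
      | mul y z _ _ hy hz =>
        have := Subalgebra.mul_mem _ hy hz
        rwa [mul_assoc, ← mul_assoc (σ γ⁻¹), ← mul_assoc (σ γ⁻¹), rep_inv_mul, one_mul,
          ← mul_assoc, mul_assoc _ y] at this
    · rintro _ ⟨z, hz, rfl⟩
      change σ x * σ z = σ z * σ x
      rw [← map_mul, hc' z hz, map_mul])
  have : (Subgroup.center G).FiniteIndex := Subgroup.finiteIndex_of_le hcen
  have hb : ρ.ker = ⊥ := (Subgroup.eq_bot_iff_forall _).2 fun w hw =>
    htf w hw (torsion_of_center hg (fun y hy => hF.mem hy) w)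
  rw [hb] at hfi
  exact Nat.finite_of_card_ne_zero (Subgroup.index_bot (G := G) ▸ hfi.index_ne_zero)

end Pool.Agent.GR.FK
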