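import Pool.Agent.Lib.MP_aa40d3_nt.FK.Exch
import Pool.Agent.Lib.MP_aa40d3_nt.FK.SmallF
import Pool.Agent.Lib.MP_aa40d3_nt.NP.Big

/-! A sheet that is attached by a pair of equal exchanges detects the loops on the other sheets. -/

open Matrix

namespace Pool.Agent.GR.FK

open GC NP

variable {G : Type} [Group G] {d p : ℕ} {Q : G → Prop} {l : List G}

theorem cap {b : BS G d} {A T T' : List G} {y γ : G} {j i : Fin d} (hQ : PairQ b Q l)
    (h : Hur l (A ++ [y, y])) (hy : b.Swap y j i) (hA : ∀ a ∈ A, a ∈ b.K j) (hT : Hur A (T ++ T'))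
    (hγ : γ ∈ gen A) : ∃ u ∈ b.K (b.π γ i), Q (u * T.prod) := by
  have hle : gen A ≤ b.K j := gen_le.2 hA
  have hP : T.prod ∈ b.K j := hle (hT.gen ▸ (gen (T ++ T')).list_prod_mem fun x hx =>
    mem_gen (List.mem_append_left _ hx))
  have hz := hy.conj γ
  rw [b.fix j γ (hle hγ)] at hz
  have h1 : Hur l (y :: y :: A) := h.trans (by simpa using lift_passL hy.2.2.1 A [])
  have h2 := h1.trans (circle A (inv_mem hγ) hy.2.2.1)
  rw [inv_inv] at h2
  generalize γ * y * γ⁻¹ = z at hz h2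
  have h3 : Hur l ([z] ++ ([z] ++ T) ++ T') := by simpa using h2.trans (hT.app_left [z, z])
  have h4 := (h3.trans ((hur_blockL [z] T).ctx [z] T')).trans
    ((hur_oneL T (T.prod⁻¹ * z * T.prod)).ctx [z] T')
  have h5 := hQ z _ _ h4 ⟨_, _, hz⟩
  refine ⟨z * T.prod⁻¹ * z⁻¹, hz.apply ▸ b.conj z j _ (inv_mem hP), ?_⟩
  rw [hz.inv]
  simpa only [mul_assoc] using h5

theorem reduceK {b : BS G d} (hp : 1 ≤ p) {S₀ : Finset (Fin d)} (h0 : S₀.card ≤ p + 1) {c : ℕ}
    (hd : d = p + 3 + c) (hg : gen l = ⊤) (hok : ∀ x ∈ l, b.Ok p x)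
    (ht : b.Trans ⊤ Finset.univ) (hpr : ∀ j, j ∉ S₀ → l.prod ∈ b.K j) (hQ : PairQ b Q l)
    (hl : ∀ x ∈ l, Q x) (hc : ∀ γ x, Q x → Q (γ * x * γ⁻¹))
    (hb : ∀ P, b.π P = 1 → (∀ i, P ∈ b.K i ∨ ∃ u ∈ b.K i, Q (u * P)) → Q P) :
    ∃ S : Finset (Fin d), S.card = p + 2 ∧ ∃ A : List G, (∀ x ∈ A, b.Ok p x) ∧ b.Sup (gen A) S ∧
      b.Agree ⊤ (gen A) S ∧ b.cnt l ≤ b.cnt A + 2 * (c + 1) ∧ LK b.π Q A := by
  have hu : (Finset.univ : Finset (Fin d)).card = p + 3 + c := by simp [hd]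
  obtain ⟨j, hj, hj0⟩ : ∃ j ∈ Finset.univ, j ∉ S₀ :=
    Finset.exists_mem_notMem_of_card_lt_card (by omega)
  obtain ⟨A, x, i, h1, h2, h3⟩ := red_one hp (by omega) hj hok (hg ▸ ht) (hpr j hj0)
  have hw : b.Agree ⊤ (gen A) (Finset.univ.erase j) := by
    rw [← hg, ← h1.gen]; exact BS.wreath h3 h2
  have hokA : ∀ a ∈ A, b.Ok p a := fun a ha =>
    h1.all (fun γ x hx => hx.conj γ) hok a (List.mem_append_left _ ha)
  have hsA : b.Sup (gen A) (Finset.univ.erase j) := fun y hy k hk => by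
    rw [show k = j by simpa using hk]
    exact gen_le.2 h3 hy
  have htA : b.Trans (gen A) (Finset.univ.erase j) :=
    hw.trans_of ht (Finset.erase_subset j _)
  have hpA : A.prod = l.prod := by
    rw [← h1.prod, List.prod_append, List.prod_cons, List.prod_singleton, h2.2.2.1, mul_one]
  have hK : LK b.π Q A := fun T T' hT hπ => by
    rcases hπ with hπ | hπ
    · refine hb _ hπ fun k => ?_
      by_cases e : k = j
      · exact Or.inl (e ▸ gen_le.2 h3 (hT.gen ▸ (gen (T ++ T')).list_prod_mem fun x hx =>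
          mem_gen (List.mem_append_left _ hx)))
      · obtain ⟨γ, hγ, rfl⟩ := htA i (by simpa using h2.1.symm) k (by simpa using e)
        exact Or.inr (cap hQ h1 h2 h3 hT hγ)
    · obtain ⟨w, rfl⟩ := List.length_eq_one_iff.1 hπ
      rw [List.prod_singleton]
      exact (h1.trans (hT.app_right _)).all hc hl w (by simp)
  obtain ⟨S, hS', hS, C, D, h4, h5, h6, h7⟩ := reduce hp h0 c (Finset.univ.erase j) A
    (by rw [Finset.card_erase_of_mem hj]; omega) hokA hsA htA (by rw [hpA]; exact hpr)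
  refine ⟨S, hS, C, fun a ha => h4.all (fun γ x hx => hx.conj γ) hokA a
    (List.mem_append_left _ ha), h5, hw.trans h6 hS', ?_, (hK.hur h4).left⟩
  have h8 : b.cnt (A ++ [x, x]) ≤ b.cnt A + 2 := by
    unfold BS.cnt
    rw [List.countP_append]
    exact Nat.add_le_add_left List.countP_le_length _
  rw [h1.cnt b] at h8
  omega

theorem fin_sheets (b : BS G d) (P : G) (hP : b.π P = 1)
    (h : ∀ i, P ∈ b.K i ∨ ∃ u ∈ b.K i, IsOfFinOrder (u * P)) : IsOfFinOrder P := by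
  have k : ∀ i, ∃ n, 0 < n ∧ P ^ n ∈ b.K i := fun i => by
    rcases h i with h | ⟨u, hu, h⟩
    · exact ⟨1, one_pos, by rwa [pow_one]⟩
    obtain ⟨n, hn, e⟩ := isOfFinOrder_iff_pow_eq_one.1 h
    have k1 : ∀ n : ℕ, (u * P) ^ n * (P ^ n)⁻¹ ∈ b.K i := fun n => by
      induction n with
      | zero => simp
      | succ n ih =>
        have k2 := b.conj P i _ ih
        rw [hP, Equiv.Perm.one_apply] at k2
        have k3 : (u * P) ^ (n + 1) * (P ^ (n + 1))⁻¹ =
            u * (P * ((u * P) ^ n * (P ^ n)⁻¹) * P⁻¹) := by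
          rw [pow_succ', pow_succ']
          group
        exact k3 ▸ mul_mem hu k2
    exact ⟨n, hn, by simpa [e] using k1 n⟩
  choose n h1 h2 using k
  refine isOfFinOrder_iff_pow_eq_one.2 ⟨∏ i, n i, Finset.prod_pos fun i _ => h1 i,
    b.sep _ fun i => ?_⟩
  obtain ⟨c, hc⟩ := Finset.dvd_prod_of_mem n (Finset.mem_univ i)
  rw [hc, pow_mul]
  exact pow_mem (h2 i) c

theorem blk_pow {m : ℕ} {w a e : Mt m} (hc : a * e = e * a) (h : w * e = a * e) (n : ℕ) :
    w ^ n * e = a ^ n * e := by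
  induction n with
  | zero => rfl
  | succ n ih => rw [pow_succ, mul_assoc, h, hc, ← mul_assoc, ih, pow_succ, mul_assoc, mul_assoc, hc]

theorem qu_sheets [Group.FG G] {m : ℕ} {σ : G →* Mt m} (b : BR σ d) (P : G) (hP : b.bs.π P = 1)
    (h : ∀ i, P ∈ b.bs.K i ∨ ∃ u ∈ b.bs.K i, QU (σ (u * P))) : QU (σ P) := by
  obtain ⟨E, hE, hU⟩ := exists_unif σ
  refine ⟨E, hE, m, (mul_one _).symm.trans ((congrArg (_ * ·) b.sum.symm).trans ?_)⟩
  rw [Finset.mul_sum]
  refine Finset.sum_eq_zero fun i _ => ?_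
  have hc : σ P * b.e i = b.e i * σ P := by
    rw [b.act, show b.π P = 1 from hP]
    rfl
  have hc' : (σ P ^ E - 1) * b.e i = b.e i * (σ P ^ E - 1) :=
    (((show Commute (σ P) (b.e i) from hc).pow_left E).sub_left (Commute.one_left _)).eq
  obtain ⟨w, hw, h1⟩ : ∃ w, QU (σ w) ∧ σ w * b.e i = σ P * b.e i := by
    rcases h i with h | ⟨u, hu, h⟩
    · exact ⟨1, by rw [map_one]; exact QU.one, by rw [map_one, one_mul]; exact h.2.symm⟩
    · exact ⟨_, h, by rw [map_mul, mul_assoc, hc, ← mul_assoc, hu.2]⟩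
  rw [← blk_pow (w := σ w ^ E - 1) hc' (by rw [sub_mul, sub_mul, blk_pow hc h1]), hU w hw,
    zero_mul]

end Pool.Agent.GR.FK
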