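import Pool.Agent.Lib.MP_aa40d3_nt.GC.Typ
import Pool.Agent.Lib.MP_aa40d3_nt.CV.Defs

/-! Fixed rows that fill whole sheets. -/

open Matrix

namespace Pool.Agent.GR.FK

open GC CV

variable {N m r e d : ℕ}

/-- The rows `u j` are left eigenvectors, the eigenvalue depends on the sheet only. -/
def Eig (u : Fin (r * e) → Fin N → ℂ) (z : Mt N) : Prop :=
  ∃ τ : Fin e → ℂ, ∀ j, u j ᵥ* z = τ (sh j) • u j

/-- `g` fixes independent rows that fill `e` sheets. -/
def She (r e : ℕ) (g : Mt N) (Z : Subalgebra ℂ (Mt N)) : Prop :=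
  ∃ u : Fin (r * e) → Fin N → ℂ, LinearIndependent ℂ u ∧ (∀ j, u j ᵥ* g = u j) ∧ ∀ z ∈ Z, Eig u z

theorem eig_of_par {u : Fin (r * e) → Fin N → ℂ} (hu : ∀ j, u j ≠ 0) {z : Mt N}
    (h : ∀ j j', sh j = sh j' → ∀ a b, u j a * (u j' ᵥ* z) b = (u j ᵥ* z) a * u j' b) :
    Eig u z := by
  have k : ∀ k : Fin e, ∃ τ : ℂ, ∀ j, sh j = k → u j ᵥ* z = τ • u j := fun k => by
    by_cases hk : ∃ j : Fin (r * e), sh j = k
    · obtain ⟨j, rfl⟩ := hk
      obtain ⟨a, ha⟩ := Function.ne_iff.1 (hu j)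
      refine ⟨(u j a)⁻¹ * (u j ᵥ* z) a, fun j' hj => funext fun b => ?_⟩
      rw [Pi.smul_apply, smul_eq_mul, mul_assoc, ← h j j' hj.symm a b, inv_mul_cancel_left₀ ha]
    · exact ⟨0, fun j hj => absurd ⟨j, hj⟩ hk⟩
  choose τ hτ using k
  exact ⟨τ, fun j => hτ _ j rfl⟩

theorem span_rows {E : Mt N} (hE : E.rank = r) {v : Fin r → Fin N → ℂ}
    (hv : LinearIndependent ℂ v) (h : ∀ a, v a ᵥ* E = v a) (w : Fin N → ℂ) :
    w ᵥ* E ∈ Submodule.span ℂ (Set.range v) := by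
  have h1 : Submodule.span ℂ (Set.range v) ≤ LinearMap.range E.vecMulLinear :=
    Submodule.span_le.2 (by rintro _ ⟨a, rfl⟩; exact ⟨v a, h a⟩)
  have h2 := Submodule.eq_of_le_of_finrank_le h1 (by
    rw [finrank_span_eq_card hv, Fintype.card_fin, range_vecMulLinear, ← rank_eq_finrank_span_row,
      hE])
  rw [h2]
  exact ⟨w, rfl⟩

theorem punc_of_she {G : Type} [Group G] {σ : G →* Mt m} (b : BR σ d) (hr : 1 ≤ r)
    (hk : ∀ i, (b.e i).rank = r) {Z : Subalgebra ℂ (Mt m)} (hZ : ∀ i, b.e i ∈ Z) {x : G}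
    (h : She r (d - 1) (σ x) Z) : b.bs.Punc 1 x := by
  classical
  obtain ⟨u, hu, hx, hE⟩ := h
  choose τ hτ using fun i => hE _ (hZ i)
  have h1 : ∀ k : Fin (d - 1), ∃ i, ∀ a : Fin r, u (ix a k) ᵥ* b.e i = u (ix a k) := fun k => by
    have h0 := hu.ne_zero (ix ⟨0, hr⟩ k)
    obtain ⟨i, hi⟩ : ∃ i, τ i k ≠ 0 := by
      by_contra hc
      push Not at hc
      refine h0 ?_
      rw [← vecMul_one (u _), ← b.sum, vecMul_sum]
      exact Finset.sum_eq_zero fun i _ => by rw [hτ, sh_ix, hc, zero_smul]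
    have h2 := congrArg (u (ix ⟨0, hr⟩ k) ᵥ* ·) (b.idem i)
    simp only [← vecMul_vecMul, hτ, smul_vecMul, sh_ix, smul_smul] at h2
    have h3 : τ i k = 1 :=
      mul_left_cancel₀ hi ((smul_left_injective ℂ h0 h2).trans (mul_one _).symm)
    exact ⟨i, fun a => by rw [hτ, sh_ix, h3, one_smul]⟩
  choose f hf using h1
  have hi : ∀ k : Fin (d - 1), Function.Injective fun a : Fin r => (ix a k : Fin (r * (d - 1))) :=
    fun k a a' h => by simpa using congrArg co h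
  have h2 := fun k => span_rows (hk (f k)) (hu.comp _ (hi k)) (hf k)
  have h3 : Function.Injective f := fun k k' h => by
    by_contra hne
    have h4 := h2 k (u (ix ⟨0, hr⟩ k'))
    rw [h, hf, Set.range_comp] at h4
    refine hu.notMem_span_image ?_ h4
    rintro ⟨a, ha⟩
    exact hne (by simpa using congrArg sh ha)
  have h4 : ∀ k, x ∈ b.K (f k) := fun k => by
    have h5 : b.e (f k) * σ x = b.e (f k) := by
      refine Matrix.ext_iff_vecMul.2 fun w => ?_
      rw [← vecMul_vecMul]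
      exact LinearMap.eqOn_span (f := (σ x).vecMulLinear) (g := LinearMap.id)
        (by rintro _ ⟨a, rfl⟩; exact hx _) (h2 k w)
    have h6 : b.π x (f k) = f k := by
      by_contra hc
      have h7 := b.act x (f k)
      have h8 : b.e (f k) = 0 :=
        calc b.e (f k) = b.e (f k) * σ x * b.e (f k) := by rw [h5, b.idem]
          _ = 0 := by
            rw [Matrix.mul_assoc, h7, ← Matrix.mul_assoc, b.orth _ _ (Ne.symm hc), Matrix.zero_mul]
      have := hk (f k)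
      rw [h8, rank_zero] at this
      omega
    exact ⟨h6, by rw [b.act, h6, h5]⟩
  have h5 : (Finset.univ.image f)ᶜ.card ≤ 1 := by
    rw [Finset.card_compl, Finset.card_image_of_injective _ h3]
    simp only [Fintype.card_fin, Finset.card_univ]
    omega
  have h6 : ∀ l, l ∉ (Finset.univ.image f)ᶜ → x ∈ b.K l := fun l hl => by
    obtain ⟨k, -, rfl⟩ := Finset.mem_image.1 (not_not.1 (mt Finset.mem_compl.2 hl))
    exact h4 k
  refine ⟨Equiv.ext fun l => ?_, _, h5, h6⟩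
  by_contra hc
  have k1 : l ∈ (Finset.univ.image f)ᶜ := not_not.1 fun h => hc (h6 l h).1
  have k2 : b.π x l ∈ (Finset.univ.image f)ᶜ := not_not.1 fun h =>
    hc ((b.π x).injective (h6 _ h).1)
  exact hc (Finset.card_le_one.1 h5 _ k2 _ k1)

theorem She.conj {g : Mt N} {Z Z' : Subalgebra ℂ (Mt N)} (y : (Mt N)ˣ)
    (hy : ∀ z ∈ Z, y.val * z * (y⁻¹).val ∈ Z') (h : She r e g Z') :
    She r e ((y⁻¹).val * g * y.val) Z := by
  obtain ⟨u, h1, h2, h3⟩ := h
  refine ⟨fun j => u j ᵥ* y.val, ?_, fun j => ?_, fun z hz => ?_⟩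
  · refine h1.map' y.val.vecMulLinear (LinearMap.ker_eq_bot'.2 fun v hv => ?_)
    have := congrArg (· ᵥ* (y⁻¹).val) hv
    simpa using this
  · rw [vecMul_vecMul, ← Matrix.mul_assoc, ← Matrix.mul_assoc, Units.mul_inv, Matrix.one_mul,
      ← vecMul_vecMul, h2]
  · obtain ⟨τ, hτ⟩ := h3 _ (hy z hz)
    refine ⟨τ, fun j => ?_⟩
    rw [← smul_vecMul, ← hτ, vecMul_vecMul, vecMul_vecMul, Matrix.mul_assoc _ _ y.val,
      Units.inv_mul, Matrix.mul_one]

end Pool.Agent.GR.FK
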