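import Pool.Agent.Lib.MP_aa40d3_nt.NP.Conv
import Pool.Agent.Lib.MP_aa40d3_nt.FK.She

/-! Formal solutions on whole sheets converge to solutions on whole sheets. -/

open Polynomial Matrix Set

namespace Pool.Agent.GR.FK

open NP

variable {n N m r e : ℕ}

/-- Formal solutions of the dual system that fill `e` sheets. -/
def FE (r e : ℕ) (D : ℂ[X]) (B : CV.PM N) (x : CV.LL) (W : Subalgebra ℂ[X] (CV.PM N)) : Prop :=
  ∃ u : Fin (r * e) → Fin N → CV.LL, LinearIndependent ℂ u ∧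
    (∀ Φ ∈ W, ∃ τ : Fin e → CV.LL, ∀ j, u j ᵥ* Φ.map (CV.ev x) = τ (CV.sh j) • u j) ∧ ∀ j,
    (CV.ev x D • fun a => CV.dL (u j a)) + CV.dL x • (u j ᵥ* B.map (CV.ev x)) = 0

/-- Single valued solutions of the dual system on `S` that fill `e` sheets. -/
def AE (r e : ℕ) (t : Fin n → ℂ) (A : Fin n → Matrix (Fin N) (Fin N) ℂ)
    (W : Subalgebra ℂ[X] (CV.PM N)) (S : Set ℂ) : Prop :=
  ∃ u : Fin (r * e) → ℂ → Fin N → ℂ, ∀ x ∈ S, (LinearIndependent ℂ fun j => u j x) ∧
    (∀ Φ ∈ W, Eig (fun j => u j x) (Φ.map (eval x))) ∧ ∀ j a,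
    HasDerivAt (fun z => u j z a) (-(u j x ᵥ* ∑ i, (x - t i)⁻¹ • A i) a) x

/-- Near the point `t i`. -/
def AEp (r e : ℕ) (t : Fin n → ℂ) (A : Fin n → Matrix (Fin N) (Fin N) ℂ)
    (W : Subalgebra ℂ[X] (CV.PM N)) (i : Fin n) : Prop :=
  ∃ ε : ℝ, 0 < ε ∧ AE r e t A W (Metric.ball (t i) ε \ {t i})

theorem cv_mul {f g : PowerSeries ℂ} {s v v' : ℂ} (h : cv1_R f s v) (h' : cv1_R g s v') :
    cv1_R (f * g) s (v * v') := by
  unfold cv1_R at *
  have h1 := h.summable.norm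
  have h2 := h'.summable.norm
  have h3 := (summable_norm_sum_mul_antidiagonal_of_summable_norm h1 h2).of_norm.hasSum
  rw [← tsum_mul_tsum_eq_tsum_sum_antidiagonal_of_summable_norm h1 h2, h.tsum_eq, h'.tsum_eq] at h3
  refine (congrArg (HasSum · (v * v')) (funext fun k => ?_)).mp h3
  rw [PowerSeries.coeff_mul, Finset.sum_mul]
  refine Finset.sum_congr rfl fun p hp => ?_
  rw [← Finset.HasAntidiagonal.mem_antidiagonal.1 hp, pow_add]
  ring

theorem conv_sumP {a : ℂ[X]} (ha : a.eval 0 ≠ 0) {M : CV.PM N} {w : Fin m → Fin N → PowerSeries ℂ}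
    (hw : LinearIndependent ℂ w)
    (h : ∀ j, ((cps (a * X) : PowerSeries ℂ) • fun i => PowerSeries.derivative ℂ (w j i)) +
      w j ᵥ* M.map cps = 0) :
    ∃ (ε : ℝ) (f : Fin m → ℂ → Fin N → ℂ), 0 < ε ∧ ∀ s ∈ Metric.ball (0 : ℂ) ε \ {0},
      a.eval s ≠ 0 ∧ (LinearIndependent ℂ fun j => f j s) ∧ (∀ j i, cv1_R (w j i) s (f j s i)) ∧
        ∀ j i, HasDerivAt (fun z => f j z i)
        (-((a.eval s * s)⁻¹ * (f j s ᵥ* M.map (eval s)) i)) s := by
  choose c ρ hρ hc using fun j => conv_core ha (h j)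
  obtain ⟨δ, hδ, hδa⟩ : ∃ δ > 0, ∀ s ∈ Metric.ball (0 : ℂ) δ, a.eval s ≠ 0 :=
    Metric.eventually_nhds_iff_ball.1 (a.continuous.continuousAt.eventually_ne ha)
  have hS : 0 ≤ ∑ j, ρ j := Finset.sum_nonneg fun j _ => (hρ j).le
  obtain ⟨ε, hε, hε1, hε2⟩ : ∃ ε : ℝ, 0 < ε ∧ ε ≤ δ ∧ ∀ j, ρ j * ε ≤ 1 / 2 := by
    refine ⟨min δ (1 / 2 / (∑ j, ρ j + 1)), by positivity, min_le_left _ _, fun j => ?_⟩
    have h1 : ρ j ≤ ∑ j, ρ j := Finset.single_le_sum (fun j _ => (hρ j).le) (Finset.mem_univ j)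
    have h2 := min_le_right δ (1 / 2 / (∑ j, ρ j + 1))
    rw [le_div_iff₀ (by positivity)] at h2
    have h3 : 0 ≤ min δ (1 / 2 / (∑ j, ρ j + 1)) := by positivity
    nlinarith
  choose F hF hR using fun j i => cv1_an (hρ j) (hε2 j) (hc j i)
  have hane : ∀ s ∈ Metric.ball (0 : ℂ) ε, a.eval s ≠ 0 := fun s hs =>
    hδa s (Metric.ball_subset_ball hε1 hs)
  have hD : ∀ s ∈ Metric.ball (0 : ℂ) ε \ {0}, ∀ j i, deriv (F j i) s =
      ∑ l, F j l s * -((a.eval s * s)⁻¹ * (M l i).eval s) := fun s hs j i => by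
    have h1 := cv1_add (cv1_poly a (hR j i s hs.1).2)
      (cv1_sum Finset.univ fun l => cv1_poly (M l i) (hR j l s hs.1).1)
    rw [cv1_eq (h j) i] at h1
    have h2 := HasSum.unique h1 (cv1_zero s)
    have h3 : a.eval s * s ≠ 0 := mul_ne_zero (hane s hs.1) hs.2
    apply mul_left_cancel₀ h3
    rw [mul_assoc, eq_neg_of_add_eq_zero_left h2, Finset.mul_sum, ← Finset.sum_neg_distrib]
    refine Finset.sum_congr rfl fun l _ => ?_
    rw [mul_left_comm, mul_neg, mul_inv_cancel_left₀ h3]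
    ring
  refine ⟨ε, fun j s i => F j i s, hε, fun s hs =>
    ⟨hane s hs.1, ?_, fun j i => (hR j i s hs.1).1, fun j i => ?_⟩⟩
  · rw [Fintype.linearIndependent_iff] at hw ⊢
    intro g hg
    refine hw g (funext fun i => ?_)
    have hG : ∀ i, AnalyticOnNhd ℂ (fun z => ∑ j, g j * F j i z) (Metric.ball 0 ε) :=
      fun i z hz => Finset.analyticAt_fun_sum _ fun j _ => analyticAt_const.mul (hF j i z hz)
    have hp : ∀ p : ℂ[X], AnalyticAt ℂ (fun z => p.eval z) s := fun p =>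
      p.differentiable.analyticAt s
    have h1 := cv1_uq (F := fun i z => ∑ j, g j * F j i z)
      (A := fun l i z => -((a.eval z * z)⁻¹ * (M l i).eval z)) (s := s) (fun i => hG i s hs.1)
      (fun l i => ((((hp a).mul analyticAt_id).inv
        (mul_ne_zero (hane s hs.1) hs.2)).mul (hp _)).neg)
      (fun i => by
        filter_upwards [(Metric.isOpen_ball.sdiff isClosed_singleton).mem_nhds hs] with z hz
        rw [(HasDerivAt.fun_sum fun j _ =>
          (hF j i z hz.1).differentiableAt.hasDerivAt.const_mul (g j)).deriv]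
        simp only [hD z hz, Finset.mul_sum, Finset.sum_mul, mul_assoc]
        exact Finset.sum_comm)
      (fun i => by simpa using congrFun hg i) i
    have h2 := (hG i).eqOn_zero_of_preconnected_of_eventuallyEq_zero
      (convex_ball _ _).isPreconnected hs.1 h1
    rw [Finset.sum_apply]
    refine cv1_inj ?_
    filter_upwards [Metric.ball_mem_nhds (0 : ℂ) hε] with z hz
    have h3 := cv1_sum Finset.univ fun j => cv1_C (g j) (hR j i z hz).1
    have h4 : ∑ j, g j * F j i z = 0 := h2 hz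
    rw [h4] at h3
    simpa only [Pi.smul_apply, PowerSeries.smul_eq_C_mul] using h3
  · have h1 := (hF j i s hs.1).differentiableAt.hasDerivAt
    rw [hD s hs] at h1
    refine h1.congr_deriv ?_
    simp only [vecMul, dotProduct, map_apply, Finset.mul_sum, ← Finset.sum_neg_distrib]
    exact Finset.sum_congr rfl fun l _ => by ring

theorem cv2_sumP {a : ℂ[X]} (ha : a.eval 0 ≠ 0) {M : CV.PM N} {u : Fin m → Fin N → CV.LL}
    (hu : LinearIndependent ℂ u) (h : ∀ j i, CV.ev CV.sL a * (CV.sL * CV.dL (u j i)) +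
      ∑ b, u j b * CV.ev CV.sL (M b i) = 0) :
    ∃ (ε : ℝ) (f : Fin m → ℂ → Fin N → ℂ), 0 < ε ∧ ∀ s ∈ Metric.ball (0 : ℂ) ε \ {0},
      a.eval s ≠ 0 ∧ (LinearIndependent ℂ fun j => f j s) ∧
        (∀ (Φ : CV.PM N) j j' b c, u j b * (u j' ᵥ* Φ.map (CV.ev CV.sL)) c =
          (u j ᵥ* Φ.map (CV.ev CV.sL)) b * u j' c → f j s b * (f j' s ᵥ* Φ.map (eval s)) c =
          (f j s ᵥ* Φ.map (eval s)) b * f j' s c) ∧ ∀ j i, HasDerivAt (fun z => f j z i)
        (-((a.eval s * s)⁻¹ * ∑ b, f j s b * (M b i).eval s)) s := by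
  obtain ⟨k, hk⟩ := CV.exists_ov_fin fun p : Fin m × Fin N => u p.1 p.2
  let w : Fin m → Fin N → PowerSeries ℂ := fun j i => .mk fun p => (u j i).coeff (p - k)
  have hw : ∀ j i, HahnSeries.ofPowerSeries ℤ ℂ (w j i) = CV.sL ^ (k : ℤ) * u j i := fun j i => by
    ext p
    rw [CV.coeff_zpow_mul, PowerSeries.coeff_coe]
    split_ifs with hp
    · exact (hk (j, i) _ (by omega)).symm
    · rw [PowerSeries.coeff_mk, Int.natAbs_of_nonneg (not_lt.1 hp)]
  obtain ⟨ε, g, hε, hg⟩ := conv_sumP ha (M := M - Matrix.diagonal fun _ => k * a) (w := w)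
    (Fintype.linearIndependent_iff.2 fun c hc => Fintype.linearIndependent_iff.1 hu c (by
      ext i p
      simp only [Finset.sum_apply, Pi.smul_apply, HahnSeries.coeff_sum, HahnSeries.coeff_smul,
        Pi.zero_apply, HahnSeries.coeff_zero]
      rcases lt_or_ge p (-k) with hp | hp
      · exact Finset.sum_eq_zero fun j _ => by rw [hk (j, i) p hp, smul_zero]
      · have h1 := congrArg (PowerSeries.coeff (p + k).toNat) (congrFun hc i)
        simpa [w, Int.toNat_of_nonneg (show 0 ≤ p + k by omega)] using h1))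
    fun j => funext fun i => HahnSeries.ofPowerSeries_injective (Γ := ℤ) (by
      have h1 := congrArg (CV.sL ^ (k : ℤ) * ·) (h j i)
      simp only [mul_add, Finset.mul_sum, mul_zero, ← mul_assoc] at h1
      simp only [Pi.add_apply, Pi.smul_apply, smul_eq_mul, vecMul, dotProduct, map_add, map_mul,
        map_sum, Matrix.map_apply, cv2_cps, cv2_der, hw, CV.dL_mul, Matrix.sub_apply, map_sub,
        diagonal_apply, mul_sub, Finset.sum_sub_distrib, apply_ite (CV.ev CV.sL), map_zero,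
        mul_ite, mul_zero, Finset.sum_ite_eq', Finset.mem_univ, if_true, Pi.zero_apply, map_natCast]
      have h2 := CV.sdL_zpow k
      rw [show CV.ev CV.sL X = CV.sL from aeval_X _]
      push_cast at h2
      linear_combination h1 + CV.ev CV.sL a * u j i * h2)
  refine ⟨ε, fun j s => s ^ (-k : ℤ) • g j s, hε, fun s hs => ?_⟩
  obtain ⟨h1, h2, h4, h3⟩ := hg s hs
  have h0 : s ≠ 0 := hs.2
  refine ⟨h1, h2.units_smul fun _ => Units.mk0 _ (zpow_ne_zero _ h0), fun Φ j j' b c e => ?_,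
    fun j i => ?_⟩
  · have e1 : w j b * ∑ l, cps (Φ l c) * w j' l = (∑ l, cps (Φ l b) * w j l) * w j' c :=
      HahnSeries.ofPowerSeries_injective (Γ := ℤ) (by
        simp only [vecMul, dotProduct, Matrix.map_apply] at e
        simp only [map_mul, map_sum, cv2_cps, hw, mul_left_comm _ (CV.sL ^ (k : ℤ)),
          ← Finset.mul_sum, mul_comm (CV.ev CV.sL _)]
        linear_combination CV.sL ^ (k : ℤ) * CV.sL ^ (k : ℤ) * e)
    have e2 := cv_mul (h4 j b) (cv1_sum Finset.univ fun l => cv1_poly (Φ l c) (h4 j' l))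
    have e3 := cv_mul (cv1_sum Finset.univ fun l => cv1_poly (Φ l b) (h4 j l)) (h4 j' c)
    rw [e1] at e2
    have e4 := HasSum.unique e2 e3
    simp only [smul_vecMul, Pi.smul_apply, smul_eq_mul]
    simp only [vecMul, dotProduct, Matrix.map_apply, mul_comm (g _ s _)]
    linear_combination s ^ (-k : ℤ) * s ^ (-k : ℤ) * e4
  refine ((hasDerivAt_zpow (-k) s (.inl h0)).mul (h3 j i)).congr_deriv ?_
  simp only [Pi.smul_apply, smul_eq_mul, vecMul, dotProduct, Matrix.map_apply, Matrix.sub_apply,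
    eval_sub, diagonal_apply, apply_ite (eval s), eval_zero, mul_sub, Finset.sum_sub_distrib,
    mul_ite, mul_zero, Finset.sum_ite_eq', Finset.mem_univ, if_true, eval_mul, eval_natCast,
    mul_assoc, ← Finset.mul_sum, zpow_sub_one₀ h0]
  push_cast
  field_simp
  ring

theorem FE.aep {t : Fin n → ℂ} (ht : Function.Injective t) {A : Fin n → Matrix (Fin N) (Fin N) ℂ}
    {W : Subalgebra ℂ[X] (CV.PM N)} {i : Fin n} (h : FE r e (dl t) (pm t A) (CV.xt (t i) 1) W) :
    AEp r e t A W i := by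
  obtain ⟨u, hu, hW, h⟩ := h
  let τ : ℂ[X] →+* ℂ[X] := compRingHom (X + C (t i))
  have e1 : τ (∏ j ∈ Finset.univ.erase i, (X - C (t j))) * X = τ (dl t) := by
    rw [dl, ← Finset.prod_erase_mul _ _ (Finset.mem_univ i), map_mul]
    simp [τ]
  have e2 : ∀ p, CV.ev CV.sL (τ p) = CV.ev (CV.xt (t i) 1) p := fun p => by
    simp [τ, CV.ev_apply, aeval_comp, CV.xt, add_comm]
  have e3 : ∀ p z, (τ p).eval (z - t i) = p.eval z := fun p z => by simp [τ, eval_comp]
  have e4 : CV.dL (CV.xt (t i) 1) = 1 := by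
    rw [CV.xt, CV.dL_add, CV.dL_alg, pow_one, CV.dL_sL, zero_add]
  obtain ⟨ε, f, hε, hf⟩ := cv2_sumP (a := τ (∏ j ∈ Finset.univ.erase i, (X - C (t j))))
    (M := (pm t A).map τ) (by
      rw [← sub_self (t i), e3, eval_prod, sub_self, Finset.prod_ne_zero_iff]
      exact fun j hj => by
        simpa [sub_eq_zero] using (ht.ne (Finset.ne_of_mem_erase hj)).symm) hu fun j b => by
      have h1 := congrFun (h j) b
      rw [e4, one_smul, ← e2, ← e1, map_mul, show CV.ev CV.sL X = CV.sL from aeval_X _] at h1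
      simpa only [Pi.add_apply, Pi.smul_apply, smul_eq_mul, mul_assoc, vecMul, dotProduct,
        Matrix.map_apply, e2, Pi.zero_apply] using h1
  refine ⟨ε, hε, fun j z => f j (z - t i), fun z hz => ?_⟩
  have h0 : z - t i ≠ 0 := sub_ne_zero.2 hz.2
  obtain ⟨h1, h2, h5, h3⟩ := hf (z - t i) ⟨mem_ball_zero_iff.2 (mem_ball_iff_norm.1 hz.1), h0⟩
  refine ⟨h2, fun Φ hΦ => eig_of_par h2.ne_zero fun j j' hj b c => ?_,
    fun j b => ((h3 j b).comp_sub_const z (t i)).congr_deriv ?_⟩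
  · obtain ⟨κ, hκ⟩ := hW Φ hΦ
    have e6 : (Φ.map τ).map (CV.ev CV.sL) = Φ.map (CV.ev (CV.xt (t i) 1)) :=
      Matrix.ext fun _ _ => e2 _
    have e7 : (Φ.map τ).map (eval (z - t i)) = Φ.map (eval z) := Matrix.ext fun _ _ => e3 _ _
    have e8 := h5 (Φ.map τ) j j' b c (by
      rw [e6, hκ, hκ, hj, Pi.smul_apply, Pi.smul_apply, smul_eq_mul, smul_eq_mul]
      ring)
    rwa [e7] at e8
  have e5 := congrArg (eval (z - t i)) e1
  rw [eval_mul, eval_X, e3 (dl t), dl, eval_prod] at e5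
  simp only [eval_sub, eval_X, eval_C] at e5
  have h4 := e5 ▸ mul_ne_zero h1 h0
  rw [e5, Finset.mul_sum]
  refine congrArg Neg.neg (Finset.sum_congr rfl fun c _ => ?_)
  rw [Matrix.map_apply, e3, mul_left_comm]
  refine congrArg _ ((congrArg _ (cv2_pm (evalRingHom z) t A c b)).trans ?_)
  simp only [coe_evalRingHom, eval_X, eval_C, Finset.mul_sum, ← mul_assoc, cv2_inv h4,
    Matrix.smul_apply, smul_eq_mul, Matrix.sum_apply]

end Pool.Agent.GR.FK
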