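import Pool.Agent.Lib.MP_aa40d3_nt.NP.Rank
import Pool.Agent.Lib.MP_aa40d3_nt.GC.FibC
import Pool.Agent.Lib.MP_aa40d3_nt.FK.ConvP

/-! Single valued solutions on whole sheets are fixed by the loop. -/

open Polynomial Matrix Set Filter Topology
open scoped Matrix.Norms.Operator

namespace Pool.Agent.GR.FK

open NP GC

variable {n N r e : ℕ} {t : Fin n → ℂ} {A : Fin n → Mat N} {W : Subalgebra ℂ[X] (CV.PM N)}

theorem AE.sub {S S' : Set ℂ} (h : AE r e t A W S) (hS : S' ⊆ S) : AE r e t A W S' :=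
  h.imp fun _ hu x hx => hu x (hS hx)

theorem AE.sq {S : Set ℂ} (h : AE r e t A W S) {c ρ : ℂ}
    (hW : ∀ ya yb : ℂ, LoopSd ya yb → segment ℝ (c + ρ * ya) (c + ρ * yb) ⊆ S)
    (ht : ∀ i, t i ∉ S) : She r e (sqLoop t A c ρ) (GC.fib W (c + ρ * (-1 - Complex.I))) := by
  obtain ⟨u, hu⟩ := h
  have key : ∀ {ya yb : ℂ}, LoopSd ya yb → ∀ j,
      u j (c + ρ * yb) ᵥ* T t A (c + ρ * ya) (c + ρ * yb) = u j (c + ρ * ya) :=
    fun {ya yb} hy j => rk1_side (fun i hi => ht i (hW ya yb hy hi))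
      fun x hx a => (hu x (hW ya yb hy hx)).2.2 j a
  obtain ⟨h0, h1, h2, h3⟩ := loop_sides
  have h4 := hu _ (hW _ _ h0 (left_mem_segment _ _ _))
  refine ⟨_, h4.1, fun j => ?_, ?_⟩
  · rw [sqLoop, loop, ← vecMul_vecMul, ← vecMul_vecMul, ← vecMul_vecMul, key h3, key h2, key h1,
      key h0]
  · rintro _ ⟨Φ, hΦ, rfl⟩
    exact h4.2.1 Φ hΦ

theorem she_vt [NeZero N]
    (hW : ∀ Φ ∈ W, dl t • Φ.map derivative - (pm t A * Φ - Φ * pm t A) ∈ W)
    (hre : Function.Injective fun i => (t i).re) {H : ℝ} (hb : InBox (pp t) H) (i : Fin n)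
    (h : AEp r e t A W i) : She r e (vt (TT t A) (pp t) H i).val (GC.fib W (cpt (-H, -H))) := by
  have hti : Function.Injective t := fun i j hij => hre (by simp only [hij])
  obtain ⟨ε, hε, hval⟩ := exists_validAt hre i
  obtain ⟨δ, hδ, h⟩ := h
  have him : |(t i).im| < H := (hb i).2
  have hev : ∀ᶠ ρ : ℝ in 𝓝[>] 0, ∀ j, j ≠ i → ρ < ‖t j - t i‖ / 2 := by
    refine Filter.eventually_all.2 fun j => ?_
    by_cases hj : j = i
    · exact Filter.Eventually.of_forall fun _ h => absurd hj h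
    · exact ((eventually_lt_nhds (half_pos (norm_pos_iff.2
        (sub_ne_zero.2 (hti.ne hj))))).filter_mono nhdsWithin_le_nhds).mono fun _ h _ => h
  obtain ⟨ρ, hρ3, hρ⟩ :=
    (hev.and (Ioo_mem_nhdsGT (lt_min (lt_min hε (sub_pos.2 him)) (half_pos hδ)))).exists
  have hρ0 := hρ.1
  have hρ1 := hρ.2.trans_le ((min_le_left _ _).trans (min_le_left _ _))
  have hρ2 := hρ.2.trans_le ((min_le_left _ _).trans (min_le_right _ _))
  have hρ4 := hρ.2.trans_le (min_le_right _ _)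
  have hv : ValidAt (fun j => (pp t j).1) i ((t i).re - ρ) ((t i).re + ρ) :=
    hval _ _ (by linarith) (by linarith) (by linarith) (by linarith)
  have l1 := le_abs_self (t i).im
  have l2 := neg_abs_le (t i).im
  have hvt := vt_eq_RL (rectT_TT t A) hb hv (y1 := (t i).im - ρ) (y2 := (t i).im + ρ)
    (by linarith) (by show _ < (t i).im; linarith) (by show (t i).im < _; linarith) (by linarith)
  have hn : ‖(ρ : ℂ)‖ = ρ := by rw [Complex.norm_real, Real.norm_of_nonneg hρ0.le]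
  have h1 := AE.sq (S := {x | ρ ≤ ‖x - t i‖ ∧ ‖x - t i‖ ≤ ρ * 2}) (c := t i) (ρ := ρ)
    (h.sub fun x hx => ⟨mem_ball_iff_norm.2 (by linarith [hx.2]), fun e => by
      have h2 := hx.1
      rw [show x = t i from e, sub_self, norm_zero] at h2
      linarith⟩)
    (fun ya yb hy x hx => hn ▸ rk1_seg hy hx) fun j hj => by
      by_cases e : j = i
      · have h2 := hj.1
        rw [e, sub_self, norm_zero] at h2
        linarith
      · linarith [hρ3 j e, hj.2]
  have e0 : cpt ((t i).re - ρ, (t i).im - ρ) = t i + ρ * (-1 - Complex.I) := by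
    apply Complex.ext <;> simp [cpt] <;> ring
  have hσ : ∀ j, (t j).re ≠ (t i).re - ρ := fun j e => by
    by_cases hj : j = i
    · rw [hj] at e
      linarith
    · exact hv.2.2 j hj ⟨e.ge, e.le.trans (hv.1.trans hv.2.1).le⟩
  have h2 : fibcCar W (Ybot (TT t A) H ((t i).re - ρ, (t i).im - ρ)) (cpt (-H, -H))
      (cpt ((t i).re - ρ, (t i).im - ρ)) :=
    fibc_mul (fibc_TU hW fun j => fibc_seg_re (y := (t i).re - ρ) rfl rfl (hσ j))
      (fibc_TU hW fun j => fibc_seg_im (y := -H) rfl rfl (abs_lt.1 (hb j).2).1.ne')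
  rw [hvt, Units.val_mul, Units.val_mul, RL_TT]
  exact She.conj _ (fun z hz => e0 ▸ (h2 z).1 hz) h1

end Pool.Agent.GR.FK
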