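import Pool.Agent.Lib.MP_aa40d3_nt.FB.Link
import Pool.Agent.Lib.MP_aa40d3_nt.GC.GMain

/-! Neighbours one of which is movable: restricted moves reach every such pair. -/

namespace Pool.Agent.GR.FB

open GC

variable {H : Type} [Group H] {P : H → Prop}

theorem isConj_of {x y : H} (γ : H) (e : y = γ * x * γ⁻¹) : IsConj x y := isConj_iff.2 ⟨γ, e.symm⟩

/-- An exchange of fixed members keeps a pair (movable, any) up to restricted moves. -/
theorem Sw.pair (hP : Cj P) {s : Bool} {k k' : List H} (h : Sw P s k k') :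
    ∀ A x y B, k = A ++ x :: y :: B → P x → ∃ A' x' y' B', HurM P k' (A' ++ x' :: y' :: B') ∧
      (P x' ∨ P y') ∧ IsConj (x * y) (x' * y') := by
  induction h with
  | @here f g a c T D hf hg hT h =>
    intro A x y B e hx
    rcases A with _ | ⟨f', A⟩
    · exact absurd ((List.cons.inj e).1 ▸ hx) hf
    have e0 : T ++ g :: D = A ++ x :: y :: B := (List.cons.inj e).2
    clear e
    rcases List.append_eq_append_iff.1 e0 with ⟨E, rfl, e⟩ | ⟨E, rfl, e⟩ <;> clear e0
    · rcases E with _ | ⟨g', E⟩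
      · exact absurd ((List.cons.inj e).1 ▸ hx) hg
      obtain ⟨-, rfl⟩ := List.cons.inj e
      exact ⟨(T.map fun x => f * x * f⁻¹) ++ a :: c :: E, x, y, B,
        by simpa using HurM.refl _, Or.inl hx, IsConj.refl _⟩
    · have h1 := (hP f x).2 hx
      rcases E with _ | ⟨x', _ | ⟨y', E⟩⟩
      · exact absurd ((List.cons.inj e).1 ▸ hx) hg
      · obtain ⟨rfl, e1⟩ := List.cons.inj e
        clear e
        obtain ⟨rfl, rfl⟩ := List.cons.inj e1
        cases s
        · obtain ⟨rfl, rfl⟩ := h
          exact ⟨A.map fun x => c * x * c⁻¹, c * x * c⁻¹, c * y * c⁻¹, c :: B,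
            by simpa using HurM.refl _, Or.inl h1, isConj_of c (by group)⟩
        · obtain ⟨rfl, rfl⟩ := h
          have h2 := (hP.inv a x).2 hx
          have h3 := ((((HurM.refl (P := P) ((f * x * f⁻¹) :: a :: (a⁻¹ * f * a) :: B)).l0
            (Or.inl h1) rfl).l1 (z := a⁻¹ * x * a) (Or.inl ((hP.inv _ _).2 h1)) (by group)).l1
            (Or.inr h2) rfl).app_left (A.map fun x => f * x * f⁻¹)
          exact ⟨_, a, a⁻¹ * x * a, _, by simpa using h3, Or.inr h2, isConj_of 1 (by group)⟩
      · obtain ⟨rfl, e1⟩ := List.cons.inj e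
        clear e
        obtain ⟨rfl, rfl⟩ := List.cons.inj e1
        exact ⟨A.map fun x => f * x * f⁻¹, f * x * f⁻¹, f * y * f⁻¹,
          (E.map fun x => f * x * f⁻¹) ++ a :: c :: D,
          by simpa using HurM.refl _, Or.inl h1, isConj_of f (by group)⟩
  | @cons l l' z h ih =>
    intro A x y B e hx
    rcases A with _ | ⟨z', A⟩
    · obtain ⟨rfl, rfl⟩ := List.cons.inj e
      cases h with
      | @here _ g a c T D hf hg hT h =>
        have h0 := hurM_oneR hx (T.map fun x => y * x * y⁻¹) (a :: c :: D)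
        cases s
        · obtain ⟨rfl, rfl⟩ := h
          have h1 := h0.trans (((HurM.refl _).r0 (Or.inl hx) rfl).app_left _)
          exact ⟨_ ++ [_], z, c, D, by simpa using h1, Or.inl hx, IsConj.refl _⟩
        · obtain ⟨rfl, rfl⟩ := h
          have h1 := h0.trans (((HurM.refl _).l0 (Or.inl hx) rfl).app_left _)
          exact ⟨_ ++ [_], a⁻¹ * z * a, a⁻¹ * y * a, D, by simpa using h1,
            Or.inl ((hP.inv _ _).2 hx), isConj_of a⁻¹ (by group)⟩
      | cons _ h => exact ⟨[], z, y, _, HurM.refl _, Or.inl hx, IsConj.refl _⟩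
    · obtain ⟨-, e⟩ := List.cons.inj e
      obtain ⟨A', x', y', B', h1, h2, h3⟩ := ih A x y B e hx
      exact ⟨z :: A', x', y', B', h1.cons z, h2, h3⟩

/-- Products of two neighbours one of which is movable, restricted moves. -/
def PairM (P Q : H → Prop) (l : List H) : Prop :=
  ∀ A x y B, HurM P l (A ++ x :: y :: B) → P x ∨ P y → Q (x * y)

/-- Products of two neighbours one of which is movable, all moves. -/
def PairH (P Q : H → Prop) (l : List H) : Prop :=
  ∀ A x y B, Hur l (A ++ x :: y :: B) → P x ∨ P y → Q (x * y)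

theorem Ch.pair (hP : Cj P) {Q : H → Prop} (hQ : ∀ x y, IsConj x y → Q y → Q x) {l k : List H}
    (hl : PairM P Q l) (h : Ch P l k) : PairM P Q k := by
  induction h with
  | base h => exact fun A x y B h' => hl A x y B (h.trans h')
  | step hs _ ih =>
    have key : ∀ A x y B, HurM P _ (A ++ x :: y :: B) → P x → Q (x * y) := fun A x y B h' hx => by
      obtain ⟨k₂, h1, h2⟩ := FB.sim hP hs h'
      obtain ⟨A', x', y', B', h3, h4, h5⟩ := h1.pair hP A x y B rfl hx
      exact hQ _ _ h5 (ih A' x' y' B' (h2.trans h3) h4)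
    intro A x y B h' hp
    rcases hp with hx | hy
    · exact key A x y B h' hx
    · have := key A y _ B (h'.left (Or.inr hy)) hy
      rwa [show y * (y⁻¹ * x * y) = x * y by group] at this

/-- A property of products of neighbours (movable, any) passes from restricted to all moves. -/
theorem pairH_of_pairM (hP : Cj P) {Q : H → Prop} (hQ : ∀ x y, IsConj x y → Q y → Q x)
    {l : List H} (hl : PairM P Q l) : PairH P Q l :=
  fun A x y B h => (ch_of_hur hP h).pair hP hQ hl A x y B (HurM.refl _)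

theorem PairH.mono {Q Q' : H → Prop} {l : List H} (h : PairH P Q l) (hQ : ∀ x, Q x → Q' x) :
    PairH P Q' l := fun A x y B h' hp => hQ _ (h A x y B h' hp)

theorem PairH.hur {Q : H → Prop} {l l' : List H} (h : PairH P Q l) (h' : Hur l l') :
    PairH P Q l' := fun A x y B h'' => h A x y B (h'.trans h'')

theorem PairH.ctx {Q : H → Prop} {C l D : List H} (h : PairH P Q (C ++ l ++ D)) : PairH P Q l :=
  fun A x y B h' => h (C ++ A) x y (B ++ D) (by simpa using h'.ctx C D)

theorem PairH.of_map {H' : Type} [Group H'] (φ : H' →* H) {Q : H → Prop} {l : List H'}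
    (h : PairH P Q (l.map φ)) : PairH (fun x => P (φ x)) (fun x => Q (φ x)) l :=
  fun A x y B h' hp => by
    have := h (A.map φ) (φ x) (φ y) (B.map φ) (by simpa using h'.map φ) hp
    rwa [← map_mul] at this

variable {G : Type} [Group G] {n : ℕ} {Mov : Finset (Fin n)} {L0 : List (Fin n)} {g : Fin n → G}

/-- From states to marked lists, for any property that is invariant under conjugation. -/
theorem pairH_of_link {Q : G → Prop} (hQ : ∀ x y, IsConj x y → Q y → Q x)
    (hk : ∀ l, HurM Mo (L0.map (mkd Mov g)) l → ∃ L h, St Mov L0 g L h ∧ l = L.map (mkd Mov h))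
    (hf : ∀ L₁ L₂ a c h, St Mov L0 g (L₁ ++ a :: c :: L₂) h → (a ∈ Mov ∨ c ∈ Mov) →
      Q (h a * h c)) :
    PairH Mo (fun x : G × Mk => Q x.1) (L0.map (mkd Mov g)) := by
  refine pairH_of_pairM mo_cj (fun x y h => hQ _ _ ?_) fun A x y B h hp => ?_
  · exact (MonoidHom.fst G Mk).map_isConj h
  · obtain ⟨L, h', hs, e⟩ := hk _ h
    obtain ⟨L₁, L₂, a, c, rfl, rfl, rfl, rfl, rfl⟩ := link_split e
    exact hf L₁ L₂ a c h' hs (hp.imp mo_mkd.1 mo_mkd.1)

theorem pairH_fin (h0 : L0.Nodup) (hf : PairF Mov L0 g) :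
    PairH Mo (fun x : G × Mk => IsOfFinOrder x.1) (L0.map (mkd Mov g)) :=
  pairH_of_link (fun _ _ h hy => h.symm.isOfFinOrder hy) (fun _ => link_stM h0 hf) hf

end Pool.Agent.GR.FB
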