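import Pool.Agent.Lib.MP_aa40d3_nt.FB.NPath
import Pool.Agent.Lib.MP_aa40d3_nt.FK.Pair
import Pool.Agent.Lib.MP_aa40d3_nt.R2.Arc4

/-! Nilpotent curvature: the loops around two neighbours one of which is movable. -/

open Polynomial Matrix Set Filter Topology
open scoped Matrix.Norms.Operator

namespace Pool.Agent.GR.FBN

open FB NP

variable {n r : ℕ} {Mov : Finset (Fin n)}

theorem adj_lower {ρ : Fin n → ℝ} {L₁ L₂ : List (Fin n)} {a c : Fin n}
    (h : LowerL ρ (L₁ ++ a :: c :: L₂)) : Adj ρ a c := by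
  obtain ⟨h1, h2⟩ := h
  rw [List.pairwise_append, List.pairwise_cons, List.pairwise_cons] at h1
  obtain ⟨-, ⟨p1, p2, -⟩, p3⟩ := h1
  refine ⟨p1 c List.mem_cons_self, fun e he => not_lt.1 fun h3 => ?_⟩
  have h4 := h2 c (by simp) e h3
  simp only [List.mem_append, List.mem_cons] at h4
  rcases h4 with h4 | rfl | rfl | h4
  · exact he.not_gt (p3 e h4 a List.mem_cons_self)
  · exact he.false
  · exact h3.false
  · exact h3.not_gt (p2 e h4)

/-- Finite order of the loops around neighbours, for marked lists. -/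
theorem pairH_loops {ρ : Fin n → ℝ} {g : Fin n → GLr r} {ε : Fin n → Fin r → ℂ}
    (h : LoopsP Mov ρ g ε) {L0 : List (Fin n)} (h1 : LowerL ρ L0) :
    PairH Mo (fun x => IsOfFinOrder x.1) (L0.map (mkd Mov g)) :=
  pairH_fin (h1.1.imp fun hab e => hab.ne (congrArg _ e)) fun L₁ L₂ a c k hs hm => by
    obtain ⟨μ, k1, k2, k3⟩ := hs.low h1
    exact Units.isOfFinOrder_val.1 (k3 ▸ (h μ k1 a c (adj_lower k2) hm).1)

theorem mkd_cj {G : Type} [Group G] (g : Fin n → G) (a : Fin n) (u : G × Mk) :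
    u⁻¹ * mkd Mov g a * u = (u.1⁻¹ * g a * u.1, if a ∈ Mov then mv else 1) :=
  Prod.ext rfl (by
    rw [Prod.snd_mul, Prod.snd_mul, Prod.snd_inv, mul_comm u.2⁻¹, inv_mul_cancel_right]
    rfl)

/-- A system of sets of words, indexed by orderings, that is compatible with exchanges. -/
theorem pairM_of_words {G : Type} [Group G] {O : List (Fin n) → Prop}
    {E : List (Fin n) → FreeGroup (Fin n) → Prop} {Q : G × Mk → Prop} {L0 : List (Fin n)}
    {g : Fin n → G} (h0 : L0.Nodup) (hO : O L0)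
    (hs : ∀ L₁ L₂ a c, O (L₁ ++ a :: c :: L₂) → a ∈ Mov ∨ c ∈ Mov → O (L₁ ++ c :: a :: L₂))
    (hE : ∀ L₁ L₂ a c, (L₁ ++ a :: c :: L₂).Perm L0 → O (L₁ ++ a :: c :: L₂) →
      O (L₁ ++ c :: a :: L₂) → ∀ v, E (L₁ ++ c :: a :: L₂) v ↔
        E (L₁ ++ a :: c :: L₂) (FreeGroup.lift (mvT FreeGroup.of c {a}) v))
    (hb : ∀ L₁ L₂ a c, (L₁ ++ a :: c :: L₂).Perm L0 → a ∈ Mov ∨ c ∈ Mov →
      E (L₁ ++ a :: c :: L₂) (FreeGroup.of a * FreeGroup.of c))
    (hQ : ∀ v x, E L0 v → x.1 = FreeGroup.lift g v → Q x) :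
    PairM Mo Q (L0.map (mkd Mov g)) := by
  have key : ∀ l, HurM Mo (L0.map (mkd Mov g)) l → ∃ (L : List (Fin n))
      (h : Fin n → FreeGroup (Fin n)), L.Perm L0 ∧ O L ∧
        l = L.map (mkd Mov fun a => FreeGroup.lift g (h a)) ∧
        ∀ v, E L v → E L0 (FreeGroup.lift h v) := fun l hl => by
    induction hl with
    | refl =>
      exact ⟨L0, FreeGroup.of, List.Perm.refl _, hO, by simp, fun v hv => by
        rwa [FreeGroup.lift_of_apply]⟩
    | left _ hm ih =>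
      obtain ⟨L, h, p, o, e, k⟩ := ih
      obtain ⟨L₁, L₂, a, c, rfl, rfl, rfl, rfl, rfl⟩ := GC.link_split e
      obtain ⟨n1, n2, n3⟩ := GC.link_nodup (p.nodup_iff.2 h0)
      have o' := hs _ _ _ _ o (hm.imp mo_mkd.1 mo_mkd.1)
      have e2 : ∀ b, b ≠ a → mkd Mov (fun b => FreeGroup.lift g (mvT h c {a} b)) b =
          mkd Mov (fun b => FreeGroup.lift g (h b)) b := fun b hb => by simp [mkd, mvT, hb]
      refine ⟨_, mvT h c {a}, ((List.Perm.swap a c L₂).append_left L₁).trans p, o', ?_,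
        fun v hv => ?_⟩
      · rw [List.map_append, List.map_cons, List.map_cons, e2 c n1.symm,
          List.map_congr_left fun b hb => e2 b (n2 b hb).1,
          List.map_congr_left fun b hb => e2 b (n3 b hb).1, mkd_cj]
        simp [mkd, mvT]
      · have := k _ ((hE _ _ _ _ p o o' v).1 hv)
        rwa [lift_lift, lift_mvT] at this
    | right _ hm ih =>
      obtain ⟨L, h, p, o, e, k⟩ := ih
      obtain ⟨L₁, L₂, a, c, rfl, rfl, rfl, rfl, rfl⟩ := GC.link_split e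
      obtain ⟨n1, n2, n3⟩ := GC.link_nodup (p.nodup_iff.2 h0)
      have o' := hs _ _ _ _ o (hm.imp mo_mkd.1 mo_mkd.1)
      have p' := ((List.Perm.swap a c L₂).append_left L₁).trans p
      have e2 : ∀ b, b ≠ c → mkd Mov (fun b => FreeGroup.lift g
          (Function.update h c (h a * h c * (h a)⁻¹) b)) b =
          mkd Mov (fun b => FreeGroup.lift g (h b)) b := fun b hb => by simp [mkd, hb]
      refine ⟨_, Function.update h c (h a * h c * (h a)⁻¹), p', o', ?_, fun v hv => ?_⟩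
      · have e3 := mkd_cj (Mov := Mov) (fun b => FreeGroup.lift g (h b)) c
          (mkd Mov (fun b => FreeGroup.lift g (h b)) a)⁻¹
        rw [inv_inv] at e3
        rw [List.map_append, List.map_cons, List.map_cons, e2 a n1,
          List.map_congr_left fun b hb => e2 b (n2 b hb).2,
          List.map_congr_left fun b hb => e2 b (n3 b hb).2, e3]
        simp [mkd]
      · let ψ : Fin n → FreeGroup (Fin n) := Function.update FreeGroup.of c
          (FreeGroup.of a * FreeGroup.of c * (FreeGroup.of a)⁻¹)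
        have e4 : (fun b => FreeGroup.lift (mvT FreeGroup.of a {c}) (ψ b)) = FreeGroup.of := by
          funext b
          by_cases hb : b = c
          · simp [ψ, hb, mvT, n1, mul_assoc]
          · simp [ψ, hb, mvT]
        have e5 : (fun b => FreeGroup.lift h (ψ b)) =
            Function.update h c (h a * h c * (h a)⁻¹) := by
          funext b
          by_cases hb : b = c
          · simp [ψ, hb]
          · simp [ψ, hb]
        have := k _ ((hE _ _ _ _ p' o' o (FreeGroup.lift ψ v)).2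
          (by rwa [lift_lift, e4, FreeGroup.lift_of_apply]))
        rwa [lift_lift, e5] at this
  intro A x y B hl hm
  obtain ⟨L, h, p, -, e, k⟩ := key _ hl
  obtain ⟨L₁, L₂, a, c, rfl, rfl, rfl, rfl, rfl⟩ := GC.link_split e
  exact hQ _ _ (k _ (hb L₁ L₂ a c p (hm.imp mo_mkd.1 mo_mkd.1))) (by simp [mkd])

variable [NeZero r]

theorem arcP_core (M : Model4 n r Mov) {ρ : Fin n → ℝ} (hρ : Function.Injective ρ) {H : ℝ}
    {p q i₀ : Fin n} (hab : Adj ρ p q) {l : List (Fin n)} (hl : ∀ i, i ∈ l ↔ i = p ∨ i = q)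
    (hi : i₀ ∈ l) (hM : ∀ i ∈ l, i ∈ Mov ∨ i = i₀) {w : Fin n ⊕ Fin M.m → ℂ}
    (hw : w ∈ Cham M.m ρ H) (hZ : ∀ z ∈ M.Z, ev1 w z = 0) (hG : ev1 w M.G ≠ 0) {θ : ℂ}
    (hF : ev2 w θ M.F3 = 0) : QU
      (mon2 M.toModel2 H (w, θ) p * mon2 M.toModel2 H (w, θ) q).val := by
  classical
  have hpq := hw.2 p q hab.1
  have hin : ∀ i ∈ l, (w (Sum.inl p)).re ≤ (w (Sum.inl i)).re ∧
      (w (Sum.inl i)).re ≤ (w (Sum.inl q)).re := fun i h => by
    rcases (hl i).1 h with rfl | rfl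
    exacts [⟨le_rfl, hpq.le⟩, ⟨hpq.le, le_rfl⟩]
  have hoo : ∀ i, i ∉ l → (w (Sum.inl i)).re < (w (Sum.inl p)).re ∨
      (w (Sum.inl q)).re < (w (Sum.inl i)).re := fun i h => by
    rw [hl, not_or] at h
    rcases lt_or_gt_of_ne (hρ.ne h.1) with e | e
    · exact Or.inl (hw.2 _ _ e)
    · exact Or.inr (hw.2 _ _ ((hab.2 i e).lt_of_ne (hρ.ne h.2).symm))
  obtain ⟨a, ha⟩ : ∃ a, a = w (Sum.inl i₀) := ⟨_, rfl⟩
  obtain ⟨w0, hw0⟩ : ∃ w0, w0 = wstar l.toFinset a w := ⟨_, rfl⟩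
  have hsl : Sl Mov w0 w := by
    rw [hw0]
    rintro (i | j) hs
    · by_cases h1 : i ∈ l.toFinset
      · rw [(hM i (List.mem_toFinset.1 h1)).resolve_left fun h => hs i h rfl]
        simp [wstar, ha]
      · simp only [wstar, h1, if_false]
    · rfl
  have hFm : (M.F3.map (lineHom w0 w)).Monic := M.monic3.map _
  have hG' : lineHom w0 w M.G ≠ 0 := by
    intro h
    have h1 := eval_lineHom w0 w 1 M.G
    rw [h, eval_zero, one_smul, add_sub_cancel] at h1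
    exact hG h1.symm
  have hsep : ∀ u θ, (lineHom w0 w M.G).eval u ≠ 0 →
      (fib (M.F3.map (lineHom w0 w)) u).eval θ = 0 →
      (derivative (fib (M.F3.map (lineHom w0 w)) u)).eval θ ≠ 0 := by
    intro u θ h1 h2
    rw [eval_lineHom] at h1
    rw [fib_lineHom, ← ev2_eq_eval] at h2
    rw [fib_lineHom, derivative_map, ← ev2_eq_eval]
    exact M.sep3 ℂ _ _ (M.on_sl (hsl.line u) hZ) h2 h1
  obtain ⟨e, he⟩ : ∃ e, e = (M.F3.map (lineHom w0 w)).natDegree.factorial *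
    (2 * (r * r * (n + 1)) + 4) := ⟨_, rfl⟩
  have he1 : 2 * (r * r * (n + 1)) + 4 ≤ e := by
    rw [he]
    exact Nat.le_mul_of_pos_left _ (Nat.factorial_pos _)
  have he0 : 0 < e := by omega
  obtain ⟨ε, hε, θs, hθa, hθs⟩ := exists_puiseux _ hFm _ hG' hsep he0 (he ▸ dvd_mul_right _ _)
  have hout : ∀ j, j ∉ l → 0 < |(w (Sum.inl j)).re - a.re| := fun j hj => by
    have h1 := hin i₀ hi
    rw [abs_pos, sub_ne_zero, ha]
    rcases hoo j hj with h | h
    exacts [(h.trans_le h1.1).ne, (h1.2.trans_lt h).ne']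
  have hne : ∀ j, j ∉ l.toFinset → w (Sum.inl j) ≠ a := by
    intro j hj h
    have h1 := hout j (by simpa using hj)
    simp [h] at h1
  have hbr : ∀ j, ∃ ϱ : ℕ, 0 < ϱ ∧ ϱ < e ∧ ∀ᶠ z in 𝓝[≠] (0 : ℂ), QU
      (sqLoop (fun i => (w0 + z ^ e • (w - w0)) (Sum.inl i))
        (M.toModel2.mA (w0 + z ^ e • (w - w0)) (θs j z) : Fin n → Mat r) a (z ^ ϱ)) := by
    intro j
    rw [hw0]
    refine arc_branch4 M l.toFinset a hne (fun i hi => (hM i (List.mem_toFinset.1 hi)).imp_right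
      fun h => by rw [h, ha]) hZ hG he1 (hθa j) ?_
    filter_upwards [self_mem_nhdsWithin,
      mem_nhdsWithin_of_mem_nhds (Metric.ball_mem_nhds (0 : ℂ) hε)] with z hz hz'
    rw [← hw0, ev2_eq_eval, ← fib_lineHom, hθs z hz' hz, eval_prod]
    exact Finset.prod_eq_zero (Finset.mem_univ j) (by simp)
  choose ϱ hϱ0 hϱe hϱ using hbr
  have hbox := hw.1 i₀
  simp only [pp, abs_lt, ← ha] at hbox
  have htend : Tendsto (fun x : ℝ => (x : ℂ)) (𝓝[>] 0) (𝓝[≠] 0) := by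
    refine tendsto_nhdsWithin_iff.2 ⟨?_, ?_⟩
    · have := (Complex.continuous_ofReal.tendsto 0).mono_left (nhdsWithin_le_nhds (s := Ioi 0))
      simpa using this
    · filter_upwards [self_mem_nhdsWithin] with x hx
      exact Complex.ofReal_ne_zero.2 (ne_of_gt hx)
  have hsmall : ∀ c d : ℝ, 0 < d → ∀ᶠ x : ℝ in 𝓝[>] 0, x * c < d := by
    intro c d hd
    refine Eventually.filter_mono nhdsWithin_le_nhds ?_
    have : ContinuousAt (fun x : ℝ => x * c) 0 := by fun_prop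
    exact this.eventually_lt continuousAt_const (by simpa using hd)
  have hev : ∀ᶠ x : ℝ in 𝓝[>] 0, (∀ j, QU
      (sqLoop (fun i => (w0 + (x : ℂ) ^ e • (w - w0)) (Sum.inl i))
        (M.toModel2.mA (w0 + (x : ℂ) ^ e • (w - w0)) (θs j x) : Fin n → Mat r) a
          ((x : ℂ) ^ ϱ j))) ∧ x * 1 < 1 ∧ x * 1 < ε ∧
      x * 1 < a.im + H ∧ x * 1 < H - a.im ∧ (∀ i, x * ‖w (Sum.inl i) - a‖ < 1) ∧
      ∀ i, i ∉ l → x * 1 < |(w (Sum.inl i)).re - a.re| := by
    refine (htend.eventually (eventually_all.2 hϱ)).and ((hsmall _ _ one_pos).and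
      ((hsmall _ _ hε).and
      ((hsmall _ _ (by linarith [hbox.2.1])).and ((hsmall _ _ (by linarith [hbox.2.2])).and
      ((eventually_all.2 fun i => hsmall _ _ one_pos).and (eventually_all.2 fun i => ?_))))))
    by_cases h : i ∈ l
    · exact Eventually.of_forall fun x hx => absurd h hx
    · filter_upwards [hsmall 1 _ (hout i h)] with x hx _ using hx
  obtain ⟨δ, hδ, hδ'⟩ := mem_nhdsGT_iff_exists_Ioo_subset.1 hev
  have hδ0 : 0 < δ := hδ
  refine qu_cont M (isOpen_Cham ρ H) (convex_Cham ρ H)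
    (fun y => mon2 M.toModel2 H y p * mon2 M.toModel2 H y q)
    (fun w' hw' hG' θ' => (diffU_mon2 M.toModel2 hρ hw' hG' θ' p).mul
      (diffU_mon2 M.toModel2 hρ hw' hG' θ' q))
    (w0 := w0) hsl hw hZ hG (pow_pos hδ0 e) (fun s hs => ?_) hF
  obtain ⟨x, hx0, hxs⟩ : ∃ x : ℝ, 0 < x ∧ x ^ e = s :=
    ⟨s ^ ((e : ℝ)⁻¹), Real.rpow_pos_of_pos hs.1 _, Real.rpow_inv_natCast_pow hs.1.le he0.ne'⟩
  have hxδ : x < δ := lt_of_pow_lt_pow_left₀ e hδ0.le (hxs ▸ hs.2)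
  obtain ⟨h1, h2, h3, h5, h6, h7, h8⟩ := hδ' ⟨hx0, hxδ⟩
  rw [mul_one] at h2 h3 h5 h6
  have hs1 : s ≤ 1 := hxs ▸ pow_le_one₀ hx0.le h2.le
  have hmem : w0 + (s : ℂ) • (w - w0) ∈ Cham M.m ρ H := by
    rw [hw0, ha]
    exact arc4_mem hi hw hin hoo hs.1 hs1
  refine ⟨hmem, fun _ θ' hθ' => ?_⟩
  have hsx : (x : ℂ) ^ e = s := by rw [← hxs, Complex.ofReal_pow]
  obtain ⟨j, rfl⟩ : ∃ j, θ' = θs j x := by
    have hxb : (x : ℂ) ∈ Metric.ball (0 : ℂ) ε := by
      rw [mem_ball_zero_iff, Complex.norm_real, Real.norm_eq_abs, abs_of_pos hx0]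
      exact h3
    rw [ev2_eq_eval, ← fib_lineHom, ← hsx, hθs x hxb (Complex.ofReal_ne_zero.2 hx0.ne'),
      eval_prod, Finset.prod_eq_zero_iff] at hθ'
    obtain ⟨j, -, hj⟩ := hθ'
    exact ⟨j, by simpa [sub_eq_zero] using hj⟩
  have hO := h1 j
  rw [hsx, ← Complex.ofReal_pow, ← RL_TT] at hO
  obtain ⟨y, hy⟩ : ∃ y, y = x ^ ϱ j := ⟨_, rfl⟩
  rw [← hy] at hO
  have hy0 : 0 < y := hy ▸ pow_pos hx0 _
  have hyx : y ≤ x := hy ▸ pow_le_of_le_one hx0.le h2.le (hϱ0 j).ne'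
  have hsy : s ≤ y * x := by
    rw [← hxs, hy, ← pow_succ]
    exact pow_le_pow_of_le_one hx0.le h2.le (hϱe j)
  have hbx : ∀ c ∈ l, pp (fun i => (w0 + (s : ℂ) • (w - w0)) (Sum.inl i)) c ∈
      Ioo (a.re - y) (a.re + y) ×ˢ Ioo (a.im - y) (a.im + y) := by
    intro c hc
    have hn : s * ‖w (Sum.inl c) - a‖ < y := by
      have h9 := h7 c
      have h10 := norm_nonneg (w (Sum.inl c) - a)
      nlinarith
    have hre := abs_lt.1 (lt_of_le_of_lt (mul_le_mul_of_nonneg_left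
      (Complex.abs_re_le_norm (w (Sum.inl c) - a)) hs.1.le) hn |>.trans_le' (by
        rw [abs_mul, abs_of_pos hs.1]) : |s * (w (Sum.inl c) - a).re| < y)
    have him := abs_lt.1 (lt_of_le_of_lt (mul_le_mul_of_nonneg_left
      (Complex.abs_im_le_norm (w (Sum.inl c) - a)) hs.1.le) hn |>.trans_le' (by
        rw [abs_mul, abs_of_pos hs.1]) : |s * (w (Sum.inl c) - a).im| < y)
    simp only [pp, hw0, arc_in hc, mem_prod, mem_Ioo, Complex.add_re, Complex.add_im,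
      Complex.re_ofReal_mul, Complex.im_ofReal_mul]
    refine ⟨⟨?_, ?_⟩, ?_, ?_⟩ <;> linarith [hre.1, hre.2, him.1, him.2]
  refine QU.of_isConj (vt_pair (rectT_TT (fun i => (w0 + (s : ℂ) • (w - w0)) (Sum.inl i))
      (M.toModel2.mA (w0 + (s : ℂ) • (w - w0)) (θs j x))) hmem.1 (hmem.2 p q hab.1)
    (by linarith) (by linarith) (hbx p ((hl p).2 (Or.inl rfl))) (hbx q ((hl q).2 (Or.inr rfl)))
    fun c c1 c2 k => ?_) hO
  have hc : c ∉ l := fun h => ((hl c).1 h).elim c1 c2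
  have h9 := h8 c hc
  simp only [pp, hw0, arc_out hc, mem_Icc] at k
  have : |(w (Sum.inl c)).re - a.re| ≤ y := abs_le.2 ⟨by linarith [k.1], by linarith [k.2]⟩
  linarith

theorem arcP (M : Model4 n r Mov) {ρ : Fin n → ℝ} (hρ : Function.Injective ρ) {H : ℝ}
    {a b : Fin n} (hab : Adj ρ a b) (hM : a ∈ Mov ∨ b ∈ Mov) {w : Fin n ⊕ Fin M.m → ℂ}
    (hw : w ∈ Cham M.m ρ H) (hZ : ∀ z ∈ M.Z, ev1 w z = 0) (hG : ev1 w M.G ≠ 0) {θ : ℂ}
    (hF : ev2 w θ M.F3 = 0) :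
    QU (mon2 M.toModel2 H (w, θ) a * mon2 M.toModel2 H (w, θ) b).val := by
  have hl : ∀ i, i ∈ [a, b] ↔ i = a ∨ i = b := by simp
  rcases hM with h | h
  · exact arcP_core M hρ hab hl (i₀ := b) (by simp)
      (fun i hi => ((hl i).1 hi).imp_left fun k : i = a => k ▸ h) hw hZ hG hF
  · exact arcP_core M hρ hab hl (i₀ := a) (by simp)
      (fun i hi => ((hl i).1 hi).symm.imp_left fun k : i = b => k ▸ h) hw hZ hG hF

theorem pairH_model (M : Model4 n r Mov) {κ H0 H : ℝ} (hκ : 0 ≤ κ) (hH0 : 0 < H0)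
    (hH : (1 + κ) * H0 ≤ H) {w0 : Fin n ⊕ Fin M.m → ℂ} (hZ : ∀ z ∈ M.Z, ev1 w0 z = 0)
    (hc : Core Mov κ H0 fun i => w0 (Sum.inl i)) {L0 : List (Fin n)}
    (hl : LowerL (fun i => (w0 (Sum.inl i)).re) L0) (hall : ∀ a, a ∈ L0)
    (hw : w0 ∈ Cham M.m (fun i => (w0 (Sum.inl i)).re) H) (hG : ev1 w0 M.G ≠ 0) {θ : ℂ}
    (hF : ev2 w0 θ M.F3 = 0) :
    PairH Mo (fun x => QU x.1.val) (L0.map (mkd Mov (mon2 M.toModel2 H (w0, θ)))) := by
  have h0 : L0.Nodup := hl.1.imp fun hab e => hab.ne (by rw [e])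
  refine pairH_of_pairM mo_cj (fun x y h => QU.of_isConj ((MonoidHom.fst _ Mk).map_isConj h))
    (pairM_of_words (O := OrdL Mov fun i => w0 (Sum.inl i))
    (E := fun L v => ∀ ρ, LowerL ρ L → Stat M H w0 ρ v) h0 (hl.1.imp fun h _ _ => h)
    (fun L₁ L₂ a c h hm => pairwise_swap h fun k1 k2 => (hm.elim k2 k1).elim)
    (fun L₁ L₂ a c p o o' v => ?_) (fun L₁ L₂ a c p hM ρ k w hs hw hG θ hF => ?_)
    fun v x hv e => e ▸ hv _ hl w0 (Sl.refl _ _) hw hG θ hF)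
  · have p' := ((List.Perm.swap a c L₂).append_left L₁).trans p
    have a1 := fun b => p.mem_iff.2 (hall b)
    obtain ⟨ρ₁, k1⟩ := exists_lower (p.nodup_iff.2 h0) a1
    obtain ⟨ρ₂, k2⟩ := exists_lower (p'.nodup_iff.2 h0) fun b => p'.mem_iff.2 (hall b)
    exact ⟨fun k ρ k3 => (stat_swap hκ hH0 hH hZ hc a1 o o' k3 k2 v).1 (k ρ₂ k2),
      fun k ρ k3 => (stat_swap hκ hH0 hH hZ hc a1 o o' k1 k3 v).2 (k ρ₁ k1)⟩
  · have := arcP M (lower_inj k fun b => p.mem_iff.2 (hall b)) (adj_lower k) hM hw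
      (M.on_sl hs hZ) hG hF
    rwa [map_mul, FreeGroup.lift_apply_of, FreeGroup.lift_apply_of]

end Pool.Agent.GR.FBN
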