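import Pool.Agent.Lib.MP_aa40d3_nt.FK.Big
import Pool.Agent.Lib.MP_aa40d3_nt.FK.She

/-! The monodromy group of a connected covering with one movable branch point. -/

open Matrix

namespace Pool.Agent.GR.FK

open GC FB NP

theorem group_pre {r d n : ℕ} (hr : 1 ≤ r) (hd : 3 ≤ d) {Mov Bs : Finset (Fin n)}
    {g : Fin n → GLr (r * d)} {ρ : Fin n → ℝ} (hρ : Function.Injective ρ) {Q : GLr (r * d) → Prop}
    (ho : ∀ L, LowerL ρ L → (∀ a, a ∈ L) → PairH Mo (fun x => Q x.1) (L.map (mkd Mov g)))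
    (hinf : ∀ L, LowerL ρ L → (∀ a, a ∈ L) → (L.map g).prod = 1)
    {Z : Subalgebra ℂ (Mt (r * d))} (hI : SimpZ (incl (Subgroup.closure (Set.range g))) Z)
    (hZ : ∀ γ ∈ Subgroup.closure (Set.range g), ∀ x ∈ Z, γ.val * x * (γ⁻¹).val ∈ Z)
    (hc : CommA Z) (hfr : Module.finrank ℂ Z = d) (hM : ∃ a ∈ Mov, a ∈ Bs)
    (hMa : ∀ a ∈ Bs, ((g a).val - 1).rank ≤ r ∧ ∃ x ∈ Z, (g a).val * x ≠ x * (g a).val)
    (hP : ∀ a, a ∉ Bs → g a = 1 ∨ She r (d - 1) (g a).val Z) :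
    ∃ (b : BR (incl (Subgroup.closure (Set.range g))) d)
      (l : List (Subgroup.closure (Set.range g))), gen l = ⊤ ∧ b.bs.Trans ⊤ Finset.univ ∧
      (∀ i, (b.e i).rank = r) ∧ (∀ x ∈ l, b.bs.Ok 1 x) ∧ b.bs.Ok 1 l.prod ∧
      (∀ x ∈ l, ∃ a, x.val = g a) ∧ PairQ b.bs (fun x => Q x.val) l ∧ Bs.card ≤ b.bs.cnt l := by
  classical
  obtain ⟨L0, h1, h2⟩ := exists_lowerL hρ Finset.univ fun _ _ _ _ => Finset.mem_univ _
  have h0 : L0.Nodup := h1.1.imp fun hab e => hab.ne (congrArg _ e)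
  have hall : ∀ a, a ∈ L0 := fun a => List.mem_toFinset.1 (h2 ▸ Finset.mem_univ a)
  set Γ := Subgroup.closure (Set.range g) with hΓ
  let g' : Fin n → Γ := fun a => ⟨g a, Subgroup.subset_closure ⟨a, rfl⟩⟩
  have hg : Subgroup.closure (Set.range g') = ⊤ := by
    apply Subgroup.map_injective Γ.subtype_injective
    rw [MonoidHom.map_closure, ← Set.range_comp, ← MonoidHom.range_eq_map, Subgroup.range_subtype]
    rfl
  have hf : PairH Mo (fun x => Q x.1.val) (L0.map (mkd Mov g')) := by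
    have e : (L0.map (mkd Mov g')).map (FB.pm Γ.subtype) = L0.map (mkd Mov g) := by
      rw [List.map_map]
      rfl
    have k := ho L0 h1 hall
    rw [← e] at k
    exact k.of_map (FB.pm Γ.subtype)
  have hfst : (L0.map (mkd Mov g')).map Prod.fst = L0.map g' := by
    rw [List.map_map]
    rfl
  have hZ' : InvR (incl Γ) Z := fun γ => hZ γ γ.2
  have : NeZero (r * d) := ⟨Nat.mul_ne_zero (by omega) (by omega)⟩
  have := hI.semi hZ'
  obtain ⟨e, e0, e1, e2, e3, e4⟩ := exists_idemS hc hfr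
  obtain ⟨b, rfl⟩ := exists_BR (incl_inj Γ) hZ' e0 e1 e2 e3 e4
  have hE := hI.trans hZ' b e0 e1
  have hp : ((L0.map g').prod).val = (L0.map g).prod := by
    rw [← Γ.coe_subtype, map_list_prod, List.map_map]
    rfl
  have hgen : gen (L0.map g') = ⊤ := by
    rw [← hg, gen]
    congr 1
    ext x
    simp [hall]
  have hrk' := b.rank_eq hE rfl
  have hπ : ∀ a ∈ Bs, b.bs.π (g' a) ≠ 1 := fun a ha h4 => by
    obtain ⟨x, hx, h3⟩ := (hMa a ha).2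
    refine h3 ?_
    obtain ⟨c, rfl⟩ := e4 x hx
    rw [Finset.mul_sum, Finset.sum_mul]
    refine Finset.sum_congr rfl fun i _ => ?_
    have h5 := b.act (g' a) i
    rw [show b.π (g' a) = 1 from h4] at h5
    rw [Matrix.mul_smul, Matrix.smul_mul]
    exact congrArg _ h5
  have hone : b.bs.Ok 1 1 := Or.inr ⟨map_one _, ∅, by simp, fun _ _ => one_mem _⟩
  have hok : ∀ x ∈ L0.map g', b.bs.Ok 1 x := fun x hx => by
    obtain ⟨a, -, rfl⟩ := List.mem_map.1 hx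
    by_cases ha : a ∈ Bs
    · obtain ⟨i, hi⟩ := not_forall.1 fun e => hπ a ha (Equiv.ext e)
      exact Or.inl ⟨i, _, b.swap hr hrk' (x := g' a) (hMa a ha).1 (fun e => hi e.symm) rfl⟩
    · rcases hP a ha with h | h
      · rwa [show g' a = 1 from Subtype.ext h]
      · exact Or.inr (punc_of_she b hr hrk' e1 (x := g' a) h)
  refine ⟨b, L0.map g', hgen, hE, hrk', hok, ?_, fun x hx => ?_, ?_, ?_⟩
  · rwa [show (L0.map g').prod = 1 from Subtype.ext (hp.trans (hinf L0 h1 hall))]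
  · obtain ⟨a, -, rfl⟩ := List.mem_map.1 hx
    exact ⟨a, rfl⟩
  · obtain ⟨a, k1, k2⟩ := hM
    rw [← hfst] at hgen hok ⊢
    exact pairQ_one hd hgen hok hE
      ⟨_, List.mem_map_of_mem (hall a), hπ a k2, mo_mkd.2 k1⟩ hf
  · rw [BS.cnt, List.countP_map, List.countP_eq_length_filter,
      ← List.toFinset_card_of_nodup (h0.filter _)]
    exact Finset.card_le_card fun a ha =>
      List.mem_toFinset.2 (List.mem_filter.2 ⟨hall a, decide_eq_true (hπ a ha)⟩)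

theorem group_finK (r : ℕ) (hr : 1 ≤ r) : ∃ k : ℕ, ∀ (d n : ℕ) (Mov Bs : Finset (Fin n))
    (g : Fin n → GLr (r * d)) (ρ : Fin n → ℝ), 4 ≤ d → Function.Injective ρ →
    (∀ L, LowerL ρ L → (∀ a, a ∈ L) →
      PairH Mo (fun x => IsOfFinOrder x.1) (L.map (mkd Mov g))) →
    (∀ a, IsOfFinOrder (g a).val) →
    (∀ L, LowerL ρ L → (∀ a, a ∈ L) → (L.map g).prod = 1) →
    ∀ Z : Subalgebra ℂ (Mt (r * d)),
      SimpZ (incl (Subgroup.closure (Set.range g))) Z →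
      (∀ γ ∈ Subgroup.closure (Set.range g), ∀ x ∈ Z, γ.val * x * (γ⁻¹).val ∈ Z) → CommA Z →
      Module.finrank ℂ Z = d → 2 * d + k ≤ Bs.card → (∃ a ∈ Mov, a ∈ Bs) →
      (∀ a ∈ Bs, ((g a).val - 1).rank ≤ r ∧ ∃ x ∈ Z, (g a).val * x ≠ x * (g a).val) →
      (∀ a, a ∉ Bs → g a = 1 ∨ She r (d - 1) (g a).val Z) →
      Finite (Subgroup.closure (Set.range g)) := by
  obtain ⟨k, hk⟩ := finite_bigK 1 r le_rfl hr
  refine ⟨k, fun d n Mov Bs g ρ hd hρ ho hq hinf Z hI hZ hc hfr hB hM hMa hP => ?_⟩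
  obtain ⟨b, l, h1, h2, h3, h4, h5, h6, h7, h8⟩ :=
    group_pre hr (by omega) hρ (Q := IsOfFinOrder) ho hinf hI hZ hc hfr hM hMa hP
  have hs : ∀ x : Subgroup.closure (Set.range g), IsOfFinOrder x.val → IsOfFinOrder x := fun x =>
    (Subgroup.subtype_injective _).isOfFinOrder_iff.1
  refine hk d _ _ _ b l hd h1 h2 h3 h4 h5 (fun x hx => hs x ?_)
    (fun x y B k1 k2 => hs _ (h7 x y B k1 k2)) (hB.trans h8)
  obtain ⟨a, e⟩ := h6 x hx
  exact e ▸ Units.isOfFinOrder_val.1 (hq a)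

theorem group_vuK (r : ℕ) (hr : 1 ≤ r) : ∃ k : ℕ, ∀ (d n : ℕ) (Mov Bs : Finset (Fin n))
    (g : Fin n → GLr (r * d)) (ρ : Fin n → ℝ), 4 ≤ d → Function.Injective ρ →
    (∀ L, LowerL ρ L → (∀ a, a ∈ L) → PairH Mo (fun x => QU x.1.val) (L.map (mkd Mov g))) →
    (∀ a, QU (g a).val) →
    (∀ L, LowerL ρ L → (∀ a, a ∈ L) → (L.map g).prod = 1) →
    ∀ Z : Subalgebra ℂ (Mt (r * d)),
      SimpZ (incl (Subgroup.closure (Set.range g))) Z →
      (∀ γ ∈ Subgroup.closure (Set.range g), ∀ x ∈ Z, γ.val * x * (γ⁻¹).val ∈ Z) → CommA Z →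
      Module.finrank ℂ Z = d → 2 * d + k ≤ Bs.card → (∃ a ∈ Mov, a ∈ Bs) →
      (∀ a ∈ Bs, ((g a).val - 1).rank ≤ r ∧ ∃ x ∈ Z, (g a).val * x ≠ x * (g a).val) →
      (∀ a, a ∉ Bs → g a = 1 ∨ She r (d - 1) (g a).val Z) →
      VU (incl (Subgroup.closure (Set.range g))) := by
  obtain ⟨k, hk⟩ := vu_bigK 1 r le_rfl hr
  refine ⟨k, fun d n Mov Bs g ρ hd hρ ho hq hinf Z hI hZ hc hfr hB hM hMa hP => ?_⟩
  obtain ⟨b, l, h1, h2, h3, h4, h5, h6, h7, h8⟩ :=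
    group_pre hr (by omega) hρ (Q := fun x => QU x.val) ho hinf hI hZ hc hfr hM hMa hP
  refine hk d _ _ _ b l hd h1 h2 h3 h4 h5 (fun x hx => ?_) h7 (hB.trans h8)
  obtain ⟨a, e⟩ := h6 x hx
  rw [incl_apply, e]
  exact hq a

end Pool.Agent.GR.FK
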