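import Pool.Agent.Lib.MP_aa40d3_nt.GD.Core8
import Pool.Agent.Lib.MP_aa40d3_nt.R2.Path4
import Pool.Agent.Lib.MP_aa40d3_nt.NP.Rank
import Pool.Agent.Lib.MP_aa40d3_nt.FK.Top
import Pool.Agent.Lib.MP_aa40d3_nt.FK.NPair
import Pool.Agent.Lib.MP_aa40d3_nt.FK.CovP

/-! The theorem for direct images along connected coverings with one movable branch point. -/

open Polynomial Matrix Set
open scoped Matrix.Norms.Operator

namespace Pool.Agent.GR.FK

open GC FB

theorem core10a (r : ℕ) (hr : 1 ≤ r) : ∃ k : ℕ, ∀ (d n : ℕ) (Mov Bs : Finset (Fin n)) (t : Fin n → ℂ)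
    (A : Fin n → Matrix (Fin (r * d)) (Fin (r * d)) ℂ) [NeZero (r * d)], 4 ≤ d →
    2 * d + k ≤ Bs.card → (∃ a ∈ Mov, a ∈ Bs) → Gen Mov t →
    (Function.Injective fun i => (t i).re) → Cyc t A → CoverK Bs r d t A →
    NP.ASi (r * d) t A → PC t A → AlgSol t A := by
  classical
  obtain ⟨k, hk⟩ := group_finK r hr
  refine ⟨k, fun d n Mov Bs t A _ hd hcard hM ht hre hpr hq hs' hpc => ?_⟩
  have hrd : r ≤ r * d := Nat.le_mul_of_pos_right r (by omega)
  have hinj : Function.Injective t := fun i j h => hre (by simp only [h])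
  obtain ⟨D, a, hD, hch⟩ := exps_rat2 hinj hpc
  obtain ⟨M, w, θ, hMD, hMa, hZ, hF, hG, hw, hA⟩ :=
    exists_model3 hinj ht hD hch hpr.cycH hpc
  obtain ⟨κ, H0, hκ, hH0, hc, hb⟩ := exists_core Mov t
  generalize hHe : (1 + κ) * H0 = H at hb
  have hH : 0 < H := hHe ▸ mul_pos (by linarith) hH0
  have hwt : (fun i => w (Sum.inl i)) = t := funext hw
  have hmon : mon2 M.toModel2 H (w, θ) = vt (TT t A) (pp t) H := by
    simp only [mon2, hwt, hA]
  have hcham : w ∈ Cham M.m (fun i => (t i).re) H := by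
    refine ⟨by rw [hwt]; exact hb, fun a b hab => ?_⟩
    rw [hw, hw]; exact hab
  have ho' : LoopsP Mov (fun i => (t i).re) (vt (TT t A) (pp t) H) M.toModel2.ε := by
    intro μ hμ a b hl hM'
    have := path4 M hκ hH0 hHe.le hZ (by rw [hwt]; exact hc) μ hre
      (fun a b _ _ hab => by rw [hw, hw]; exact hab) hμ hl hM' (Sl.refl _ w) hcham hG hF
    rw [hmon] at this
    simpa using this
  have h1 : ∀ i, OrrM M.toModel2.ε {i} (vt (TT t A) (pp t) H i).val := fun i => by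
    have := arc3_single M hre i hcham hZ hG hF
    rwa [hmon] at this
  obtain ⟨E, hE, hgE⟩ : ∃ E : ℕ, 0 < E ∧ ∀ i, (vt (TT t A) (pp t) H i).val ^ E = 1 := by
    choose k hk0 hk using fun i => isOfFinOrder_iff_pow_eq_one.1 (h1 i).1
    refine ⟨∏ i, k i, Finset.prod_pos fun i _ => hk0 i, fun i => ?_⟩
    obtain ⟨c, hc⟩ := Finset.dvd_prod_of_mem k (Finset.mem_univ i)
    rw [hc, pow_mul, hk, one_pow]
  set U : Set ℂ := {x | ∀ i, x.im < (t i).im} with hU
  have hUo : IsOpen U := by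
    rw [hU, ofPred_forall]
    exact isOpen_iInter_of_finite fun i => isOpen_lt Complex.continuous_im continuous_const
  have hUc : Convex ℝ U := by
    rw [hU, ofPred_forall]
    exact convex_iInter fun i => convex_halfSpace_im_lt _
  have hx₀ : cpt (-H, -H) ∈ U := fun i => by
    have := (hb i).2
    simp only [pp, cpt] at this ⊢
    exact (abs_lt.1 this).1
  have hseg : ∀ x ∈ U, ∀ i, t i ∉ segment ℝ (cpt (-H, -H)) x := fun x hx i hi =>
    lt_irrefl _ (hUc.segment_subset hx₀ hx hi i)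
  have hY : ∀ x ∈ U, (∀ i, x ≠ t i) ∧ (T t A (cpt (-H, -H)) x).det ≠ 0 ∧
      HasDerivAt (T t A (cpt (-H, -H))) (sys t A x * T t A (cpt (-H, -H)) x) x := fun x hx =>
    ⟨fun i h => lt_irrefl _ (h ▸ hx i),
      ((Matrix.isUnit_iff_isUnit_det _).1 (isUnit_Tr _)).ne_zero, hasDerivAt_T A (hseg x hx)⟩
  have hext := extProp hre A hH.le hb
  have hfin : Finite (Subgroup.closure (Set.range (vt (TT t A) (pp t) H))) := by
    obtain ⟨W, hWi, hW, hWc, hWr, h3, h4⟩ := hq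
    have hWp : ∀ Φ ∈ W, Φ ∈ primW U (T t A (cpt (-H, -H)))
        (Subalgebra.toSubmodule (GC.fib W (cpt (-H, -H)))) := fun Φ hΦ x hx =>
      fib_T hW (hseg x hx) _ ⟨Φ, hΦ, rfl⟩
    refine hk d n Mov Bs _ _ hd hre (fun L k1 _ => FBN.pairH_loops ho' k1) (fun i => (h1 i).1)
      (fun L k1 k2 => eq_one_of_rank (NP.rank_infN hre A hH hb k1 k2 hs')) _
      (simp_of_field hE hgE (infinite_of_mem_nhds _ (hUo.mem_nhds hx₀)) hx₀ (hY _ hx₀).1
        (T_self _ _ _) (fun x hx => (hY x hx).2.1) hext hWi hWp) (fib_vt hW hre hb) ?_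
      ((fib_rank (infinite_of_mem_nhds _ (hUo.mem_nhds hx₀)) (fun x hx => (hY x hx).2.1)
        hWp).trans hWr) hcard hM
      (fun i hi => ⟨by have := NP.rank_vtN hre A hb i (h3 i hi).2; omega, ?_⟩) fun i hi =>
      (h4 i hi).imp (fun h => eq_one_of_rank (NP.rank_vtN hre A hb i h)) (she_vt hW hre hb i)
    · rintro _ ⟨Φ, hΦ, rfl⟩ _ ⟨Ψ, hΨ, rfl⟩
      have e := congrArg (evalRingHom (cpt (-H, -H))).mapMatrix (hWc Φ hΦ Ψ hΨ)
      rwa [map_mul, map_mul] at e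
    · obtain ⟨Ψ, hΨ, hne⟩ := (h3 i hi).1
      by_contra hcon
      push Not at hcon
      refine hne (comm_exp hre A hb Ψ i fun y hy => ?_)
      obtain ⟨z, hz, e⟩ := hWp Ψ hΨ y hy
      exact ⟨z, hcon z hz, e⟩
  obtain ⟨ε, hε, hball⟩ := Metric.isOpen_iff.1 hUo _ hx₀
  refine ⟨cpt (-H, -H), ε, T t A (cpt (-H, -H)), hε, fun x hx => ?_, fun a b => ?_⟩
  · obtain ⟨h1, h2, h3⟩ := hY x (hball hx)
    exact ⟨h1, h2, hasDerivAt_mat.1 h3⟩
  · obtain ⟨P, hP, h⟩ := alg_of_finite hfin hext a b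
    exact ⟨P, hP, fun x hx => h x (hball hx)⟩

theorem core10 (r : ℕ) (hr : 1 ≤ r) : ∃ k : ℕ, ∀ (d n : ℕ) (Mov Bs : Finset (Fin n)) (t : Fin n → ℂ)
    (A : Fin n → Matrix (Fin (r * d)) (Fin (r * d)) ℂ) [NeZero (r * d)], 4 ≤ d →
    2 * d + k ≤ Bs.card → (∃ a ∈ Mov, a ∈ Bs) → Function.Injective t → Gen Mov t → Cyc t A → CoverK Bs r d t A →
    NP.ASi (r * d) t A → PC t A → AlgSol t A := by
  obtain ⟨k, hk⟩ := core10a r hr
  refine ⟨k, fun d n Mov Bs t A _ hd hcard hM hi hgen hpr hq hs' hp => ?_⟩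
  obtain ⟨t', c, hc, htt, hgen', hre⟩ := exists_rotation3 hi hgen
  have ht : ∀ i, t' i = c⁻¹ * t i + 0 := fun i => by rw [htt i]; field_simp; ring
  exact AlgSol.aff hc htt (hk d n Mov Bs t' _ hd hcard hM hgen' hre (hpr.aff (inv_ne_zero hc) ht)
    (hq.aff (inv_ne_zero hc) ht) (hs'.aff hc htt) (hp.aff hc htt))

end Pool.Agent.GR.FK
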