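import Pool.Agent.Lib.MP_aa40d3_nt.FB.Big
import Pool.Agent.Lib.MP_aa40d3_nt.FK.Pair

/-! The marks can be moved to any members that exchange two sheets. -/

namespace Pool.Agent.GR.FK

open GC FB

theorem hur_symm {H : Type} [Group H] {l l' : List H} (h : Hur l l') : Hur l' l := by
  induction h with
  | refl => exact Hur.refl _
  | @left C D x y _ ih =>
    refine Hur.trans ?_ ih
    have h1 := Hur.right (A := C) (B := D) (x := y) (y := y⁻¹ * x * y) (Hur.refl _)
    have e : y * (y⁻¹ * x * y) * y⁻¹ = x := by group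
    rwa [e] at h1
  | @right C D x y _ ih =>
    refine Hur.trans ?_ ih
    have h1 := Hur.left (A := C) (B := D) (x := x * y * x⁻¹) (y := x) (Hur.refl _)
    have e : x⁻¹ * (x * y * x⁻¹) * x = y := by group
    rwa [e] at h1

variable {G : Type} [Group G] {d p : ℕ} {b : BS G d}

theorem cj_mk (y : G) (m : Mk) (t : G × Mk) : (y, m)⁻¹ * t * (y, m) = (y⁻¹ * t.1 * y, t.2) :=
  Prod.ext rfl (by
    rw [Prod.snd_mul, Prod.snd_mul, Prod.snd_inv, mul_comm _ t.2, inv_mul_cancel_right])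

theorem ex_adj {x y : G} (hx : x * x = 1) (hy : y * y = 1) (h : x * y * x = y * x * y)
    (m m' : Mk) (A B : List (G × Mk)) :
    Hur (A ++ (x, m) :: (y, m') :: B) (A ++ (x, m') :: (y, m) :: B) := by
  have ix : x⁻¹ = x := inv_eq_of_mul_eq_one_right hx
  have iy : y⁻¹ = y := inv_eq_of_mul_eq_one_right hy
  have h1 := (Hur.refl (A ++ (x, m) :: (y, m') :: B)).left
  rw [cj_mk] at h1
  have h2 := h1.left
  rw [cj_mk] at h2
  have e1 : (y⁻¹ * x * y)⁻¹ * y * (y⁻¹ * x * y) = x := by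
    rw [mul_inv_rev, mul_inv_rev, inv_inv, ix, iy]
    calc y * (x * y) * y * (y * x * y) = y * x * (y * y) * (y * x * y) := by simp only [mul_assoc]
      _ = y * x * y * x * y := by rw [hy, mul_one]; simp only [mul_assoc]
      _ = x * y * (x * x) * y := by rw [← h]; simp only [mul_assoc]
      _ = x := by rw [hx, mul_one, mul_assoc, hy, mul_one]
  dsimp only at h2
  rw [e1] at h2
  have h3 := h2.left
  rw [cj_mk] at h3
  have e2 : x⁻¹ * (y⁻¹ * x * y) * x = y := by
    rw [ix, iy, ← h]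
    calc x * (x * y * x) * x = x * x * y * (x * x) := by simp only [mul_assoc]
      _ = y := by rw [hx, one_mul, mul_one]
  dsimp only at h3
  rwa [e2] at h3

theorem ex_far {x y : G} (hx : x * x = 1) (hy : y * y = 1) (h : x * y * x = y * x * y)
    (m m' : Mk) (A C B : List (G × Mk)) :
    Hur (A ++ (x, m) :: (C ++ (y, m') :: B)) (A ++ (x, m') :: (C ++ (y, m) :: B)) := by
  have k : ∀ u v : Mk, Hur (A ++ (x, u) :: (C ++ (y, v) :: B))
      (A ++ (x, u) :: (y, v) :: ((C.map fun t => (y⁻¹ * t.1 * y, t.2)) ++ B)) := fun u v => by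
    have h1 := (hur_oneL C (y, v)).ctx (A ++ [(x, u)]) B
    simp only [cj_mk] at h1
    simpa using h1
  exact ((k m m').trans (ex_adj hx hy h m m' A _)).trans (hur_symm (k m' m))

section
variable {ι : Type} [DecidableEq ι] {L : List ι} {g : ι → G} {a c e : ι}

/-- The marks of `a` and `c` can be exchanged. -/
def Ex (L : List ι) (g : ι → G) (a c : ι) : Prop :=
  ∀ μ : ι → Mk, Hur (L.map fun i => (g i, μ i)) (L.map fun i => (g i, μ (Equiv.swap a c i)))

theorem Ex.refl : Ex L g a a := fun μ => by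
  simp only [Equiv.swap_self, Equiv.refl_apply]
  exact Hur.refl _

theorem Ex.symm (h : Ex L g a c) : Ex L g c a := fun μ => by
  rw [Equiv.swap_comm]
  exact h μ

theorem Ex.trans (h : Ex L g a c) (h' : Ex L g c e) : Ex L g a e := by
  by_cases h1 : a = e
  · exact h1 ▸ Ex.refl
  by_cases h2 : c = e
  · exact h2 ▸ h
  intro μ
  have k := ((h μ).trans (h' fun i => μ (Equiv.swap a c i))).trans
    (h fun i => μ (Equiv.swap a c (Equiv.swap c e i)))
  have q : ∀ i, Equiv.swap a c (Equiv.swap c e (Equiv.swap a c i)) = Equiv.swap a e i := fun i => by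
    have := Equiv.swap_mul_swap_mul_swap (x := e) (y := c) (z := a) (Ne.symm h2) (Ne.symm h1)
    rw [Equiv.swap_comm c a, Equiv.swap_comm e c] at this
    exact congrArg (fun f : Equiv.Perm ι => f i) this
  simpa only [q] using k

theorem ex_ord {L₁ L₂ L₃ : List ι} (h0 : (L₁ ++ a :: (L₂ ++ c :: L₃)).Nodup) (hx : g a * g a = 1)
    (hy : g c * g c = 1) (h : g a * g c * g a = g c * g a * g c) :
    Ex (L₁ ++ a :: (L₂ ++ c :: L₃)) g a c := fun μ => by
  have k : ∀ T : List ι, a ∉ T → c ∉ T →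
      (T.map fun i => (g i, μ (Equiv.swap a c i))) = T.map fun i => (g i, μ i) := fun T h1 h2 =>
    List.map_congr_left fun i hi => by
      rw [Equiv.swap_apply_of_ne_of_ne (fun e : i = a => h1 (e ▸ hi))
        fun e : i = c => h2 (e ▸ hi)]
  simp only [List.nodup_append, List.nodup_cons, List.mem_append, List.mem_cons, not_or] at h0
  obtain ⟨-, ⟨⟨n1, -, n2⟩, -, ⟨n3, -⟩, n4⟩, n5⟩ := h0
  simp only [List.map_append, List.map_cons, Equiv.swap_apply_left, Equiv.swap_apply_right]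
  rw [k L₁ (fun h => n5 a h a (Or.inl rfl) rfl) fun h => n5 c h c (by simp) rfl,
    k L₂ n1 fun h => n4 c h c (Or.inl rfl) rfl, k L₃ n2 n3]
  exact ex_far hx hy h _ _ _ _ _

theorem ex_over (h0 : L.Nodup) (ha : a ∈ L) (hc : c ∈ L) {i j l : Fin d} (hx : b.Swap (g a) i j)
    (hy : b.Swap (g c) i l) (hjl : j ≠ l) : Ex L g a c := by
  have hb := BS.braid hx hy hjl
  obtain ⟨L₁, L₂, rfl⟩ := List.append_of_mem ha
  rcases List.mem_append.1 hc with h | h
  · obtain ⟨L₃, L₄, rfl⟩ := List.append_of_mem h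
    rw [List.append_assoc, List.cons_append] at h0 ⊢
    exact (ex_ord h0 hy.2.2.1 hx.2.2.1 hb.symm).symm
  rcases List.mem_cons.1 h with rfl | h
  · exact Ex.refl
  · obtain ⟨L₃, L₄, rfl⟩ := List.append_of_mem h
    exact ex_ord h0 hx.2.2.1 hy.2.2.1 hb

end

/-- A set of sheets that is closed under all exchanges of the list. -/
theorem closed_univ {l : List G} (hg : gen l = ⊤) (hok : ∀ x ∈ l, b.Ok p x)
    (ht : b.Trans ⊤ Finset.univ) {W : Set (Fin d)} {u : Fin d} (hu : u ∈ W)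
    (h : ∀ x ∈ l, ∀ i j, b.Swap x i j → i ∈ W → j ∈ W) (v : Fin d) : v ∈ W := by
  have k1 : ∀ x ∈ l, ∀ i ∈ W, b.π x i ∈ W := fun x hx i hi => by
    rcases hok x hx with ⟨s, t, h1⟩ | h1
    · by_cases e1 : i = s
      · rw [e1, h1.apply]
        exact h x hx s t h1 (e1 ▸ hi)
      by_cases e2 : i = t
      · rw [e2, h1.symm.apply]
        exact h x hx t s h1.symm (e2 ▸ hi)
      · rwa [h1.2.1, Equiv.swap_apply_of_ne_of_ne e1 e2]
    · rw [h1.1]
      exact hi
  have k2 : ∀ x ∈ gen l, ∀ i ∈ W, b.π x i ∈ W := fun x hx => by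
    induction hx using Subgroup.closure_induction'' with
    | mem x hx => exact k1 x hx
    | inv_mem x hx =>
      intro i hi
      have e : b.π x⁻¹ i = b.π x i := by
        rw [map_inv, Equiv.Perm.inv_eq_iff_eq, (hok x hx).invol]
      exact e ▸ k1 x hx i hi
    | one => exact fun i hi => by rw [map_one]; exact hi
    | mul x y _ _ hx hy => exact fun i hi => by rw [map_mul]; exact hx _ (hy i hi)
  obtain ⟨x, -, rfl⟩ := ht u (Finset.mem_univ _) v (Finset.mem_univ _)
  exact k2 x (hg ▸ Subgroup.mem_top x) u hu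

theorem ex_all {ι : Type} [DecidableEq ι] {L : List ι} {g : ι → G} (h0 : L.Nodup) (hd : 3 ≤ d)
    (hg : gen (L.map g) = ⊤) (hok : ∀ x ∈ L.map g, b.Ok p x) (ht : b.Trans ⊤ Finset.univ)
    {a c : ι} (ha : a ∈ L) (hc : c ∈ L) {i j u v : Fin d} (hx : b.Swap (g a) i j)
    (hy : b.Swap (g c) u v) : Ex L g a c := by
  have k1 := closed_univ hg hok ht (W := {s | ∃ e ∈ L, ∃ t, b.Swap (g e) s t ∧ Ex L g a e})
    (u := i) ⟨a, ha, j, hx, Ex.refl⟩ (by
      rintro _ hz' s t h1 ⟨e, he, w, h2, h3⟩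
      obtain ⟨z, hz, rfl⟩ := List.mem_map.1 hz'
      by_cases hw : w = t
      · exact ⟨e, he, s, hw ▸ h2.symm, h3⟩
      · exact ⟨z, hz, s, h1.symm, h3.trans (ex_over h0 he hz h2 h1 hw)⟩)
  by_contra hno
  have k2 : ∀ u v, b.Swap (g c) u v → ∀ z ∈ L, ∀ t, b.Swap (g z) u t → t = v :=
    fun u v hy z hz t h1 => by
      by_contra hne
      obtain ⟨e, he, w, h2, h3⟩ := k1 u
      by_cases hw : w = v
      · exact hno ((h3.trans (ex_over h0 he hz h2 h1 (hw ▸ Ne.symm hne))).trans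
          (ex_over h0 hz hc h1 hy hne))
      · exact hno (h3.trans (ex_over h0 he hc h2 hy hw))
  have k3 := closed_univ hg hok ht (W := {s | s = u ∨ s = v}) (u := u) (Or.inl rfl) (by
    rintro _ hz' s t h1 (rfl | rfl)
    · obtain ⟨z, hz, rfl⟩ := List.mem_map.1 hz'
      exact Or.inr (k2 _ _ hy z hz t h1)
    · obtain ⟨z, hz, rfl⟩ := List.mem_map.1 hz'
      exact Or.inl (k2 _ _ hy.symm z hz t h1))
  have k4 : (Finset.univ : Finset (Fin d)) ⊆ {u, v} := fun s _ => by simpa using k3 s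
  have k5 := (Finset.card_le_card k4).trans Finset.card_le_two
  rw [Finset.card_univ, Fintype.card_fin] at k5
  omega

/-- The products of two neighbours, the first of which exchanges two sheets, have the property
`Q`. -/
def PairQ (b : BS G d) (Q : G → Prop) (l : List G) : Prop :=
  ∀ x y B, Hur l (x :: y :: B) → (∃ i j, b.Swap x i j) → Q (x * y)

theorem pairQ_one {Q : G → Prop} {l : List (G × Mk)} (hd : 3 ≤ d)
    (hg : gen (l.map Prod.fst) = ⊤) (hok : ∀ x ∈ l.map Prod.fst, b.Ok p x)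
    (ht : b.Trans ⊤ Finset.univ) (hc : ∃ z ∈ l, b.π z.1 ≠ 1 ∧ Mo z)
    (h : PairH Mo (fun z => Q z.1) l) : PairQ b Q (l.map Prod.fst) := by
  classical
  rintro x y B h1 ⟨i, j, hx⟩
  obtain ⟨l₁, h2, h3⟩ := Hur.lift (MonoidHom.fst G Mk) h1
  replace h3 : l₁.map Prod.fst = x :: y :: B := h3
  have hg1 : gen (l₁.map Prod.fst) = ⊤ := (hur_fst h2).gen.trans hg
  have hok1 : ∀ z ∈ l₁.map Prod.fst, b.Ok p z :=
    (hur_fst h2).all (fun γ z hz => hz.conj γ) hok
  have hc1 : ∃ z ∈ l₁, b.π z.1 ≠ 1 ∧ Mo z := by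
    by_contra hn
    obtain ⟨z, hz, k⟩ := hc
    exact (hur_symm h2).all (P := fun z => ¬ (b.π z.1 ≠ 1 ∧ Mo z)) (fun γ w hw k' => hw
      ((and_congr (hura_conj b γ.1 w.1).not (mo_conj γ w)).1 k'))
      (fun w hw k' => hn ⟨w, hw, k'⟩) z hz k
  obtain ⟨x', l₂, rfl, rfl, h4⟩ := List.map_eq_cons_iff.1 h3
  obtain ⟨y', l₃, rfl, rfl, -⟩ := List.map_eq_cons_iff.1 h4
  obtain ⟨f, hf⟩ : ∃ f : Fin (l₃.length + 2) → G × Mk, f = (x' :: y' :: l₃).get := ⟨_, rfl⟩
  have hl : (List.finRange (l₃.length + 2)).map f = x' :: y' :: l₃ :=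
    hf ▸ List.map_get_finRange (x' :: y' :: l₃)
  have f0 : f 0 = x' := by rw [hf]; rfl
  have f1 : f 1 = y' := by rw [hf]; rfl
  have hl' : (x' :: y' :: l₃).map Prod.fst = (List.finRange _).map fun a => (f a).1 := by
    rw [← hl, List.map_map]
    rfl
  rw [hl'] at hg1 hok1
  obtain ⟨z, hz, k1⟩ := hc1
  rw [← hl] at hz
  obtain ⟨a, -, rfl⟩ := List.mem_map.1 hz
  obtain ⟨_, _, k2⟩ := (hok1 _ (List.mem_map_of_mem (List.mem_finRange a))).resolve_right
    fun k => k1.1 k.1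
  have h5 := ex_all (List.nodup_finRange _) hd hg1 hok1 ht (List.mem_finRange 0)
    (List.mem_finRange a) (f0 ▸ hx) k2 fun a => (f a).2
  rw [show ((List.finRange _).map fun a => ((f a).1, (f a).2)) = x' :: y' :: l₃ from hl] at h5
  rw [List.finRange_succ, List.finRange_succ] at h5
  simp only [List.map_cons] at h5
  have h6 := h [] _ _ _ (h2.trans h5) (Or.inl (by
    change (f (Equiv.swap 0 a 0)).2 = mv
    rw [Equiv.swap_apply_left]
    exact k1.2))
  rw [← f0, ← f1]
  exact h6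

end Pool.Agent.GR.FK
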