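import Pool.Agent.Lib.MP_aa40d3_nt.FB.Final

/-! Simple coverings: the special values and the number of branch values. -/

open Polynomial Module
open scoped Polynomial.Bivariate IntermediateField

namespace Pool.Agent.GR.FK

open Pool.Agent.Lib.MP_a01f70_lc.QQ Pool.Agent.GR.CV Pool.Agent.GR.GE FB

variable {F : Type} [Field F] [Algebra ℂ F] {Sg : Finset (Place ℂ F)} {f : F} {d : ℕ}

theorem fib_mono {c : ℂ} {e : ℤ} {m m' : ℕ} (h : Fib Sg f c e m) (hm : m' ≤ m) :
    Fib Sg f c e m' := by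
  obtain ⟨q, h1, h2⟩ := h
  exact ⟨fun j => q (Fin.castLE hm j), h1.comp (Fin.castLE_injective hm), fun j => h2 _⟩

variable [IsFF F]

theorem poles_all (R : RRData ℂ F) {q : Fin d → Place ℂ F} (hf : Transcendental ℂ f)
    (hdeg : finrank ℂ⟮f⟯ F = d) (hq : Function.Injective q) (h1 : ∀ j, (q j).ord f = -1) :
    ∀ p, p ∉ Set.range q → p.Ge f 0 := by
  classical
  intro p hp
  by_contra hc
  have hlt := (Place.not_ge_iff.1 hc).2
  have hfin : {p : Place ℂ F | p.ord f < 0}.Finite := (R.fin f).subset fun p hp => ne_of_lt hp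
  have hs := sum_poles hf hfin.toFinset fun p => hfin.mem_toFinset
  have hsub : insert p (Finset.univ.image q) ⊆ hfin.toFinset := fun x hx => by
    rw [hfin.mem_toFinset]
    rcases Finset.mem_insert.1 hx with rfl | hx
    · exact hlt
    · obtain ⟨j, -, rfl⟩ := Finset.mem_image.1 hx
      show (q j).ord f < 0
      rw [h1]
      omega
  have h := Finset.sum_le_sum_of_subset_of_nonneg hsub (f := fun p => -p.ord f) fun x hx _ => by
    have : x.ord f < 0 := hfin.mem_toFinset.1 hx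
    omega
  rw [Finset.sum_insert (fun h => hp (by simpa using h)), Finset.sum_image hq.injOn, hs, hdeg] at h
  simp only [h1, neg_neg, Finset.sum_const, Finset.card_univ, Fintype.card_fin, nsmul_one] at h
  omega

/-- The orders at some places of one fibre add up to at most the degree. -/
theorem fib_le (h0 : 0 < d) (hdeg : finrank ℂ⟮f⟯ F = d) (h1 : Fib Sg f 0 (-1) d) (c : ℂ)
    (s : Finset (Place ℂ F)) (hs : ∀ p ∈ s, 1 ≤ p.ord (f - algebraMap ℂ F c)) :
    ∑ p ∈ s, p.ord (f - algebraMap ℂ F c) ≤ d := by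
  obtain ⟨R, -⟩ := exists_can (F := F)
  have hf : Transcendental ℂ f := tr_of_rank (by omega)
  obtain ⟨q, hq, h2⟩ := Fib.pls0.1 h1
  have h3 := poles_all R hf hdeg hq fun j => (h2 j).2
  obtain ⟨Z, hZ, hz⟩ := gn_fibre R h0 hq (fun j => (h2 j).2) h3 c
  have h4 : ∀ p ∈ s, p.Ge f 0 ∧ val p f = c := fun p hp => by
    have k : p.Ge (f - algebraMap ℂ F c) 1 := .of_le (hs p hp)
    refine ⟨?_, val_eq k⟩
    simpa using (k.mono zero_le_one).add (p.ge_const c)
  rw [← hz]
  refine (Finset.sum_congr rfl fun p hp => ?_).le.trans (Finset.sum_le_sum_of_subset_of_nonneg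
    (fun p hp => (hZ p).2 (h4 p hp)) fun p hp _ => zero_le_one.trans (ram_pos hf ((hZ p).1 hp).1))
  rw [ram, (h4 p hp).2]

theorem fib_le' (h0 : 0 < d) (hdeg : finrank ℂ⟮f⟯ F = d) (h1 : Fib Sg f 0 (-1) d) {c : ℂ} {m : ℕ}
    (h : Fib Sg f c 1 m) (s : Finset (Place ℂ F)) (hs : ∀ p ∈ s, 2 ≤ p.ord (f - algebraMap ℂ F c)) :
    m + ∑ p ∈ s, p.ord (f - algebraMap ℂ F c) ≤ d := by
  classical
  obtain ⟨q, hq, h2⟩ := h
  have k := fib_le h0 hdeg h1 c (Finset.univ.image q ∪ s) fun p hp => by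
    rcases Finset.mem_union.1 hp with hp | hp
    · obtain ⟨j, -, rfl⟩ := Finset.mem_image.1 hp
      exact (h2 j).2.ge
    · exact one_le_two.trans (hs p hp)
  rw [Finset.sum_union (Finset.disjoint_left.2 fun p hp hp' => by
    obtain ⟨j, -, rfl⟩ := Finset.mem_image.1 hp
    have := hs _ hp'
    have := (h2 j).2
    omega), Finset.sum_image hq.injOn] at k
  simpa [fun j => (h2 j).2] using k

theorem not_fib (h0 : 0 < d) (hdeg : finrank ℂ⟮f⟯ F = d) (h1 : Fib Sg f 0 (-1) d) {c : ℂ}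
    (h : Fib Sg f c 2 1) : ¬ Fib Sg f c 1 d := fun h' => by
  obtain ⟨q, -, h2⟩ := h
  have k := fib_le' h0 hdeg h1 h' {q 0} fun p hp => by
    rw [Finset.mem_singleton.1 hp]
    exact (h2 0).2.ge
  rw [Finset.sum_singleton, (h2 0).2] at k
  omega

theorem fib_data (h0 : 2 ≤ d) (hdeg : finrank ℂ⟮f⟯ F = d) (h1 : Fib Sg f 0 (-1) d)
    (h2 : ∀ c, Fib Sg f c 1 (d - 1) ∨ (Fib Sg f c 2 1 ∧ Fib Sg f c 1 (d - 2))) :
    {c | ¬ Fib Sg f c 1 d}.Finite ∧
      ∃ B : Finset ℂ, (∀ c ∈ B, Fib Sg f c 2 1) ∧ 2 * genus F + 2 * d ≤ B.card + 2 := by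
  classical
  obtain ⟨R, hR⟩ := exists_can (F := F)
  have hf : Transcendental ℂ f := tr_of_rank (by omega)
  obtain ⟨q, hq, h3⟩ := Fib.pls0.1 h1
  have h3' := fun j => (h3 j).2
  have h4 := poles_all R hf hdeg hq h3'
  refine ⟨?_, ?_⟩
  · obtain ⟨-, T, hT, -⟩ := count hR Sg (by omega) hq h3 h4
    refine T.finite_toSet.subset fun c hc => ?_
    by_contra hn
    obtain ⟨Z, hZ, hz⟩ := gn_fibre R (by omega) hq h3' h4 c
    have k : ∀ p ∈ Z, ram p f = 1 ∧ p ∉ Sg := fun p hp => by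
      have := mt (hT p ((hZ p).1 hp).1) (by rw [((hZ p).1 hp).2]; exact hn)
      push Not at this
      exact this
    rw [Finset.sum_congr rfl fun p hp => (k p hp).1, Finset.sum_const, nsmul_one] at hz
    exact hc (gn_pls (s := Z) (by exact_mod_cast hz.ge) fun p hp =>
      ⟨(k p hp).2, ((hZ p).1 hp).2 ▸ (k p hp).1⟩)
  · obtain ⟨B, hB, hs⟩ := gn_rh hR (by omega) hq h3' h4
    have r2 : ∀ p ∈ B, 2 ≤ p.ord (f - algebraMap ℂ F (val p f)) := fun p hp => by
      have := ram_pos hf ((hB p).1 hp).1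
      have := ((hB p).1 hp).2
      unfold ram at *
      omega
    have r3 : ∀ p ∈ B, Fib Sg f (val p f) 2 1 ∧ Fib Sg f (val p f) 1 (d - 2) := fun p hp =>
      (h2 _).resolve_left fun h => by
        have k := fib_le' (by omega) hdeg h1 h {p} fun x hx => Finset.mem_singleton.1 hx ▸ r2 p hp
        rw [Finset.sum_singleton] at k
        have := r2 p hp
        omega
    have r4 : ∀ p ∈ B, ram p f - 1 = 1 := fun p hp => by
      have k := fib_le' (by omega) hdeg h1 (r3 p hp).2 {p}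
        fun x hx => Finset.mem_singleton.1 hx ▸ r2 p hp
      rw [Finset.sum_singleton] at k
      have := r2 p hp
      unfold ram
      omega
    have inj : Set.InjOn (fun p => val p f) B := fun p hp p' hp' e => by
      by_contra hne
      have e' : val p f = val p' f := e
      have k := fib_le' (by omega) hdeg h1 (r3 p hp).2 {p, p'} fun x hx => by
        rcases Finset.mem_insert.1 hx with rfl | hx
        · exact r2 _ hp
        · rw [Finset.mem_singleton.1 hx, e']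
          exact r2 _ hp'
      rw [Finset.sum_pair hne] at k
      have := r2 p hp
      have := r2 p' hp'
      rw [← e'] at this
      omega
    refine ⟨B.image fun p => val p f, fun c hc => ?_, ?_⟩
    · obtain ⟨p, hp, rfl⟩ := Finset.mem_image.1 hc
      exact (r3 p hp).1
    · rw [Finset.sum_congr rfl r4, Finset.sum_const, nsmul_one, hR.g_eq] at hs
      rw [Finset.card_image_of_injOn inj]
      omega

theorem gen_one {n : ℕ} {t : Fin n → ℂ} {i₀ : Fin n} {K : IntermediateField ℚ ℂ}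
    (hK : ∀ j, j ≠ i₀ → t j ∈ K) (h : Transcendental K (t i₀)) : Gen {i₀} t := by
  refine ⟨K.toSubalgebra.toSubring, fun j hj => hK j (by simpa using hj), ?_⟩
  have : Unique ({i₀} : Finset (Fin n)) := inferInstance
  rw [algebraicIndependent_unique_type_iff, Finset.mem_singleton.1 (Subtype.prop default)]
  exact h

/-- The special values in a list. -/
theorem exists_list {g : ℕ} (h0 : 2 ≤ d) (hdeg : finrank ℂ⟮f⟯ F = d) (h1 : Fib Sg f 0 (-1) d)
    (h2 : ∀ c, Fib Sg f c 1 (d - 1) ∨ (Fib Sg f c 2 1 ∧ Fib Sg f c 1 (d - 2))) {c₀ : ℂ}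
    (h3 : Fib Sg f c₀ 2 1) (hg : g + 1 ≤ genus F)
    (h4 : Transcendental (IntermediateField.adjoin ℚ {c | c ≠ c₀ ∧ ¬ Fib Sg f c 1 d}) c₀) :
    ∃ (n : ℕ) (t : Fin n → ℂ) (M : Finset (Fin n)) (i₀ : Fin n), Function.Injective t ∧
      Gen {i₀} t ∧ i₀ ∈ M ∧ 2 * d + g ≤ M.card ∧
      (∀ i ∈ M, Fib Sg f (t i) 2 1 ∧ Fib Sg f (t i) 1 (d - 2)) ∧
      (∀ i, i ∉ M → Fib Sg f (t i) 1 (d - 1)) ∧ ∀ c, c ∉ Set.range t → Fib Sg f c 1 d := by
  classical
  obtain ⟨hT, B, hB, hc⟩ := fib_data h0 hdeg h1 h2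
  set T := hT.toFinset
  let t : Fin T.card → ℂ := fun i => (T.equivFin.symm i).1
  have ht : ∀ c, ¬ Fib Sg f c 1 d → c ∈ Set.range t := fun c hc =>
    ⟨T.equivFin ⟨c, hT.mem_toFinset.2 hc⟩, congrArg Subtype.val (T.equivFin.symm_apply_apply _)⟩
  have hi : Function.Injective t := Subtype.val_injective.comp T.equivFin.symm.injective
  obtain ⟨i₀, rfl⟩ := ht c₀ (not_fib (by omega) hdeg h1 h3)
  refine ⟨_, t, Finset.univ.filter fun i => Fib Sg f (t i) 2 1, i₀, hi, gen_one (fun j hj => ?_) h4,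
    Finset.mem_filter.2 ⟨Finset.mem_univ _, h3⟩, ?_, fun i hM => ?_, fun i hM => ?_,
    fun c hc => not_not.1 fun h => hc (ht c h)⟩
  · exact IntermediateField.subset_adjoin ℚ _
      ⟨hi.ne hj, hT.mem_toFinset.1 (T.equivFin.symm j).2⟩
  · have k : B ⊆ (Finset.univ.filter fun i => Fib Sg f (t i) 2 1).image t := fun c hc => by
      obtain ⟨i, rfl⟩ := ht c (not_fib (by omega) hdeg h1 (hB c hc))
      exact Finset.mem_image_of_mem _ (Finset.mem_filter.2 ⟨Finset.mem_univ _, hB _ hc⟩)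
    have := (Finset.card_le_card k).trans Finset.card_image_le
    omega
  · exact ⟨(Finset.mem_filter.1 hM).2, (h2 _).elim (fun h => fib_mono h (by omega)) fun h => h.2⟩
  · exact (h2 _).resolve_right fun h => hM (Finset.mem_filter.2 ⟨Finset.mem_univ _, h.1⟩)

end Pool.Agent.GR.FK
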