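import Pool.Agent.Lib.MP_aa40d3_nt.NP.Fs
import Pool.Agent.Lib.MP_aa40d3_nt.CV.PushB
import Pool.Agent.Lib.MP_aa40d3_nt.CV.WdR
import Pool.Agent.Lib.MP_aa40d3_nt.FK.ConvP

/-! Below a puncture the formal solutions of the dual system fill all sheets but one. -/

open Polynomial Matrix
open scoped Polynomial.Bivariate

namespace Pool.Agent.GR.FK

open Pool.Agent.GR.CV NP

variable {r d N : ℕ}

theorem frm_diag {R K : Type} [CommRing R] [Field K] {φ : R →+* K}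
    {Φ G Mu : Matrix (Fin N) (Fin N) R} {U : Matrix (Fin N) (Fin N) K} {y : Fin N → K}
    {p : Fin d → R} (hG : φ G.det ≠ 0)
    (h : G.det • (Φ * G) = G * ∑ k : Fin d, p k • Mu ^ (k : ℕ))
    (hM : Mu.map φ * U = U * diagonal y) (a : K) (hV : (a • (G.map φ * U)).det ≠ 0) (j : Fin N) :
    (a • (G.map φ * U))⁻¹ j ᵥ* Φ.map φ =
      ((φ G.det)⁻¹ * ∑ k : Fin d, φ (p k) * y j ^ (k : ℕ)) • (a • (G.map φ * U))⁻¹ j := by
  have h1 : ∀ k : ℕ, Mu.map φ ^ k * U = U * diagonal fun j => y j ^ k := fun k => by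
    induction k with
    | zero => simp
    | succ k ih =>
      rw [pow_succ, Matrix.mul_assoc, hM, ← Matrix.mul_assoc, ih, Matrix.mul_assoc,
        diagonal_mul_diagonal]
      simp only [pow_succ]
  have h2 := congrArg (fun A => (φ G.det)⁻¹ • (A.map φ * U)) h
  simp only [wdr_map_smul, Matrix.map_mul, wdr_map_sum, Matrix.smul_mul, smul_smul,
    inv_mul_cancel₀ hG, one_smul, Matrix.mul_assoc, Finset.sum_mul, h1] at h2
  have h8 : Φ.map φ * a • (G.map φ * U) = a • (G.map φ * U) *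
      diagonal fun j => (φ G.det)⁻¹ * ∑ k : Fin d, φ (p k) * y j ^ (k : ℕ) := by
    rw [Matrix.mul_smul, h2, Matrix.smul_mul, Matrix.mul_assoc, ← Matrix.mul_smul]
    congr 2
    ext a b
    simp only [Matrix.smul_apply, Matrix.sum_apply, mul_diagonal, smul_eq_mul, Finset.mul_sum]
    exact Finset.sum_congr rfl fun k _ => by ring
  generalize a • (G.map φ * U) = V at hV h8
  have h9 := congrArg (fun A => V⁻¹ * A * V⁻¹) h8
  simp only [← Matrix.mul_assoc, nonsing_inv_mul _ hV.isUnit, Matrix.one_mul,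
    mul_nonsing_inv_cancel_right _ _ hV.isUnit] at h9
  funext c
  have h10 := congrFun (congrFun h9 j) c
  rw [diagonal_mul] at h10
  exact h10

theorem fe_pun {S : CV.Sys ℂ r} {q : ℂ[X][Y]} {δ : ℂ[X]} {t : ℂ} (h : Prep S d q δ) (hd : d ≠ 0)
    (hδ : δ ≠ 0) (hD : δ * S.D ≠ 0) (hS : S.Unr (xt t 1) (d - 1))
    (hK : ∃ U Cm : LM (r * d), (∀ i j, Ov 0 (Cm i j)) ∧
      MSol (δ * S.D) (pB S d q δ) (xt t 1) U Cm) {D' ρ : ℂ[X]} {B' G : PM (r * d)}
    (g : Gau (δ * S.D) (pB S d q δ) D' B' ρ G) (hρ : ρ ≠ 0) (hG : G.det ≠ 0)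
    {W : Subalgebra ℂ[X] (PM (r * d))} (hW : ∀ Φ ∈ W, ∃ p : Fin d → ℂ[X],
      G.det • (Φ * G) = G * ∑ k : Fin d, p k • pM S d ^ (k : ℕ)) :
    FE r (d - 1) D' B' (xt t 1) W := by
  obtain ⟨m, rfl⟩ : ∃ m, d = m + 1 := ⟨d - 1, by omega⟩
  obtain ⟨y, hy, hl⟩ := hS
  obtain ⟨U₀, C₀, h2, h3⟩ := hK
  have hx : ∀ {p : ℂ[X]}, p ≠ 0 → ev (xt t 1) p ≠ 0 := fun hp => ev_xt_ne le_rfl hp
  obtain ⟨z, hz, hz'⟩ := last_root h (hx hδ) hy fun j => (hl j).1
  obtain ⟨G₀, B₀, -, h5⟩ := branch_frame h hd (hx hδ) hz' h3 h2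
  choose G' hG' using fun j => pushb_loc (hl j)
  obtain ⟨U, h1, h6, -⟩ := push_loc h (y := Fin.cons z y) (G := Fin.cons G₀ G')
    (B := Fin.cons B₀ fun _ => 0) (Fin.cons_injective_iff.2 ⟨hz, hy⟩)
    fun j => Fin.cases h5 hG' j
  have h7 := g.msol (hx hD) (hx hρ) (hx hG) h1
  let e : Fin (r * m) → Fin (r * (m + 1)) := fun j => ix (co j) (sh j).succ
  have he : Function.Injective e := fun j j' h => by
    have k1 : co j = co j' := by simpa [e] using congrArg co h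
    have k2 : sh j = sh j' := by simpa [e] using congrArg sh h
    rw [← ix_co_sh j, k1, k2, ix_co_sh]
  refine ⟨fun j => (ga ρ G (xt t 1) U)⁻¹ (e j), fs_li (U := ga ρ G (xt t 1) U) (e := e)
    (c := fun _ => 1) (fun _ => one_ne_zero) fun i j => by simp only [fs_mul h7.1, he.eq_iff],
    fun Φ hΦ => ?_, fun j => fs_row h7 fun j' => ?_⟩
  · obtain ⟨p, hp⟩ := hW Φ hΦ
    refine ⟨fun k => (ev (xt t 1) G.det)⁻¹ * ∑ l : Fin (m + 1), ev (xt t 1) (p l) * y k ^ (l : ℕ),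
      fun j => (frm_diag (K := CV.LL) (hx hG) hp h6 _ h7.1 (e j)).trans ?_⟩
    simp only [e, sh_ix, Fin.cons_succ]
    rfl
  · rw [bd, Matrix.of_apply]
    simp [e]

end Pool.Agent.GR.FK
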