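import Pool.Agent.Lib.MP_aa40d3_nt.NP.Core
import Pool.Agent.Lib.MP_aa40d3_nt.FK.Top
import Pool.Agent.Lib.MP_aa40d3_nt.FK.NPair
import Pool.Agent.Lib.MP_aa40d3_nt.FK.CovP

/-! Direct images along connected coverings with one movable branch point; nilpotent
curvature. -/

open Polynomial Matrix Set
open scoped Matrix.Norms.Operator

namespace Pool.Agent.GR.FK

open GC FB NP

theorem core10aN (r : ℕ) (hr : 1 ≤ r) : ∃ k : ℕ, ∀ (d n : ℕ) (Mov Bs : Finset (Fin n)) (t : Fin n → ℂ)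
    (A : Fin n → Matrix (Fin (r * d)) (Fin (r * d)) ℂ) [NeZero (r * d)], 4 ≤ d →
    2 * d + k ≤ Bs.card → (∃ a ∈ Mov, a ∈ Bs) → Gen Mov t →
    (Function.Injective fun i => (t i).re) → Cyc t A → CoverK Bs r d t A →
    ASi (r * d) t A → PCN t A → AlgSolT t A := by
  classical
  obtain ⟨k, hk⟩ := group_vuK r hr
  refine ⟨k, fun d n Mov Bs t A _ hd hcard hM ht hre hpr hq hs' hpc => ?_⟩
  have hrd : r ≤ r * d := Nat.le_mul_of_pos_right r (by omega)
  obtain ⟨M, w, θ, hZ, hF, hG, hw, hA⟩ := exists_model4 ht hpr.cycH hpc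
  obtain ⟨κ, H0, hκ, hH0, hc, hb⟩ := exists_core Mov t
  generalize hHe : (1 + κ) * H0 = H at hb
  have hH : 0 < H := hHe ▸ mul_pos (by linarith) hH0
  have hwt : (fun i => w (Sum.inl i)) = t := funext hw
  have hmon : mon2 M.toModel2 H (w, θ) = vt (TT t A) (pp t) H := by
    simp only [mon2, hwt, hA]
  have hcham : w ∈ Cham M.m (fun i => (t i).re) H := by
    refine ⟨by rw [hwt]; exact hb, fun a b hab => ?_⟩
    rw [hw, hw]; exact hab
  have ho : ∀ L, LowerL (fun i => (t i).re) L → (∀ a, a ∈ L) →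
      PairH Mo (fun x => QU x.1.val) (L.map (mkd Mov (vt (TT t A) (pp t) H))) := fun L k1 k2 => by
    have e : (fun i => (w (Sum.inl i)).re) = fun i => (t i).re := funext fun i => by rw [hw]
    have := FBN.pairH_model M hκ hH0 hHe.le hZ (by rw [hwt]; exact hc) (e ▸ k1) k2 (e ▸ hcham) hG hF
    rwa [hmon] at this
  have h1 : ∀ i, QU (vt (TT t A) (pp t) H i).val := fun i => by
    have := arc4_single M hre i hcham hZ hG hF
    rwa [hmon] at this
  set U : Set ℂ := {x | ∀ i, x.im < (t i).im} with hU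
  have hUo : IsOpen U := by
    rw [hU, ofPred_forall]
    exact isOpen_iInter_of_finite fun i => isOpen_lt Complex.continuous_im continuous_const
  have hUc : Convex ℝ U := by
    rw [hU, ofPred_forall]
    exact convex_iInter fun i => convex_halfSpace_im_lt _
  have hx₀ : cpt (-H, -H) ∈ U := fun i => by
    have := (hb i).2
    simp only [pp, cpt] at this ⊢
    exact (abs_lt.1 this).1
  have hseg : ∀ x ∈ U, ∀ i, t i ∉ segment ℝ (cpt (-H, -H)) x := fun x hx i hi =>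
    lt_irrefl _ (hUc.segment_subset hx₀ hx hi i)
  have hY : ∀ x ∈ U, (∀ i, x ≠ t i) ∧ (T t A (cpt (-H, -H)) x).det ≠ 0 ∧
      HasDerivAt (T t A (cpt (-H, -H))) (sys t A x * T t A (cpt (-H, -H)) x) x := fun x hx =>
    ⟨fun i h => lt_irrefl _ (h ▸ hx i),
      ((Matrix.isUnit_iff_isUnit_det _).1 (isUnit_Tr _)).ne_zero, hasDerivAt_T A (hseg x hx)⟩
  have hext := extProp hre A hH.le hb
  have hfin : VU (incl (Subgroup.closure (Set.range (vt (TT t A) (pp t) H)))) := by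
    obtain ⟨W, hWi, hW, hWc, hWr, h3, h4⟩ := hq
    have hWp : ∀ Φ ∈ W, Φ ∈ primW U (T t A (cpt (-H, -H)))
        (Subalgebra.toSubmodule (GC.fib W (cpt (-H, -H)))) := fun Φ hΦ x hx =>
      fib_T hW (hseg x hx) _ ⟨Φ, hΦ, rfl⟩
    refine hk d n Mov Bs _ _ hd hre ho h1
      (fun L k1 k2 => eq_one_of_rank (rank_infN hre A hH hb k1 k2 hs')) _
      (simp_of_fieldQ h1 (infinite_of_mem_nhds _ (hUo.mem_nhds hx₀)) hx₀ (hY _ hx₀).1
        (T_self _ _ _) (fun x hx => (hY x hx).2.1) hext hWi hWp) (fib_vt hW hre hb) ?_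
      ((fib_rank (infinite_of_mem_nhds _ (hUo.mem_nhds hx₀)) (fun x hx => (hY x hx).2.1)
        hWp).trans hWr) hcard hM
      (fun i hi => ⟨by have := NP.rank_vtN hre A hb i (h3 i hi).2; omega, ?_⟩) fun i hi =>
      (h4 i hi).imp (fun h => eq_one_of_rank (NP.rank_vtN hre A hb i h)) (she_vt hW hre hb i)
    · rintro _ ⟨Φ, hΦ, rfl⟩ _ ⟨Ψ, hΨ, rfl⟩
      have e := congrArg (evalRingHom (cpt (-H, -H))).mapMatrix (hWc Φ hΦ Ψ hΨ)
      rwa [map_mul, map_mul] at e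
    · obtain ⟨Ψ, hΨ, hne⟩ := (h3 i hi).1
      by_contra hcon
      push Not at hcon
      refine hne (comm_exp hre A hb Ψ i fun y hy => ?_)
      obtain ⟨z, hz, e⟩ := hWp Ψ hΨ y hy
      exact ⟨z, hcon z hz, e⟩
  exact algSolT_of_VU hfin hUo hx₀ (T_self _ _ _) hY hext

theorem core10N (r : ℕ) (hr : 1 ≤ r) : ∃ k : ℕ, ∀ (d n : ℕ) (Mov Bs : Finset (Fin n)) (t : Fin n → ℂ)
    (A : Fin n → Matrix (Fin (r * d)) (Fin (r * d)) ℂ) [NeZero (r * d)], 4 ≤ d →
    2 * d + k ≤ Bs.card → (∃ a ∈ Mov, a ∈ Bs) → Function.Injective t → Gen Mov t → Cyc t A → CoverK Bs r d t A →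
    ASi (r * d) t A → PCN t A → AlgSolT t A := by
  obtain ⟨k, hk⟩ := core10aN r hr
  refine ⟨k, fun d n Mov Bs t A _ hd hcard hM hi hgen hpr hq hs' hp => ?_⟩
  obtain ⟨t', c, hc, htt, hgen', hre⟩ := exists_rotation3 hi hgen
  have ht : ∀ i, t' i = c⁻¹ * t i + 0 := fun i => by rw [htt i]; field_simp; ring
  exact AlgSolT.aff hc htt (hk d n Mov Bs t' _ hd hcard hM hgen' hre (hpr.aff (inv_ne_zero hc) ht)
    (hq.aff (inv_ne_zero hc) ht) (hs'.aff hc htt) (hp.aff hc htt))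

end Pool.Agent.GR.FK
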