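import Pool.Agent.Lib.MP_aa40d3_nt.FK.Main
import Pool.Agent.Lib.MP_aa40d3_nt.FK.NMain
import Pool.Agent.Lib.MP_aa40d3_nt.FK.Fib
import Pool.Agent.Lib.MP_aa40d3_nt.NP.FinalS

/-! Systems on a curve with a simple covering that has one free branch point. -/

open Polynomial
open scoped Polynomial.Bivariate IntermediateField

namespace Pool.Agent.GR.FK

open Pool.Agent.GR.CV Pool.Agent.GR.GE FB NP
open Pool.Agent.Lib.MP_a01f70_lc.QQ (Place)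

theorem final13 (r : ℕ) (hr : 1 ≤ r) : ∃ g₀ : ℕ, ∀ (R : Type) [CommRing R]
    [Algebra.FiniteType ℤ R] (ι ψ : R →+* ℂ) (S : CV.Sys R r) (F : Type) [Field F] [Algebra ℂ F]
    (x y f : F) (Sg : Finset (Place ℂ F)) (d : ℕ) (c₀ : ℂ),
    RingHom.ker ι ≤ RingHom.ker ψ → S.P.Monic →
    Irreducible (S.map ι).P → Irreducible (S.map ψ).P → (S.map ψ).D ≠ 0 →
    Transcendental ℂ x → ℂ⟮x, y⟯ = ⊤ → aevalAeval x y (S.map ι).P = 0 → g₀ ≤ genus F →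
    Module.finrank ℂ⟮f⟯ F = d → 4 ≤ d → Fib Sg f 0 (-1) d →
    (∀ c, Fib Sg f c 1 (d - 1) ∨ (Fib Sg f c 2 1 ∧ Fib Sg f c 1 (d - 2))) → Fib Sg f c₀ 2 1 →
    Transcendental (IntermediateField.adjoin ℚ {c | c ≠ c₀ ∧ ¬ Fib Sg f c 1 d}) c₀ →
    (∀ p ∉ Sg, ∀ φ, At φ p → (S.map ι).Loc (φ x) (φ y)) →
    (∀ m : Ideal R, m.IsMaximal → (S.map (Ideal.Quotient.mk m)).Fund) → (S.map ψ).Alg := by
  obtain ⟨k, hk⟩ := final13a r hr
  have : NeZero r := ⟨by omega⟩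
  refine ⟨k + 1, fun R _ _ ι ψ S F _ _ x y f Sg d c₀ h0 hP hI hI' hD hx hxy hy hg hdeg hd
    h1 h2 h3 h4 hL hF => SP.alg_spec ι ψ h0 S hP hI ?_ hI' hD⟩
  have hMo : GE.Model x y (S.map ι).P := ⟨hx, hxy, hP.map _, hI, hy⟩
  have : IsFF F := isFF_of_gen hx hxy hI.ne_zero hy
  obtain ⟨n, t, M, i₀, ht, k1, k2, k3, k4, k5, k6⟩ := exists_list (by omega) hdeg h1 h2 h3 hg h4
  have hf : Transcendental ℂ f := tr_of_rank (by omega)
  obtain ⟨w, hw, hw'⟩ := exists_int hf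
  obtain ⟨P', hM'⟩ := GE.exists_model hf hw hw'
  have hd' := hM'.deg.trans hdeg
  obtain ⟨S', E, rfl, h⟩ := exists_chg (S.map ι) hMo (d_ne h0 hD) hM'
  obtain ⟨R', _, _, ι', S₀, q1, rfl, q2⟩ := transport ι S hP h hF
  have hL' : ∀ p, p ∉ Sg → ∀ φ, At φ p → (S₀.map ι').Loc (φ f) (φ w) :=
    fun p hp φ hφ => h.loc φ (hL p hp φ hφ)
  exact h.alg (hk d n R' ι' S₀ t M i₀ q1 ((q1.natDegree_map _).symm.trans hd') hd h.D' ht k1 k2 k3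
    (fun i hi => ⟨unr_fin hM' hL' (k4 i hi).2, loc_bra hM' hL' (k4 i hi).1⟩)
    (fun i hi => unr_fin hM' hL' (k5 i hi))
    (fun c hc => unr_fin hM' hL' (k6 c hc)) (unr_inf hM' hL' (Fib.pls0.1 h1)) hM'.irr q2)

theorem final13N (r : ℕ) (hr : 1 ≤ r) : ∃ g₀ : ℕ, ∀ (R : Type) [CommRing R]
    [Algebra.FiniteType ℤ R] (ι ψ : R →+* ℂ) (S : CV.Sys R r) (F : Type) [Field F] [Algebra ℂ F]
    (x y f : F) (Sg : Finset (Place ℂ F)) (d : ℕ) (c₀ : ℂ),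
    RingHom.ker ι ≤ RingHom.ker ψ → S.P.Monic →
    Irreducible (S.map ι).P → Irreducible (S.map ψ).P → (S.map ψ).D ≠ 0 →
    Transcendental ℂ x → ℂ⟮x, y⟯ = ⊤ → aevalAeval x y (S.map ι).P = 0 → g₀ ≤ genus F →
    Module.finrank ℂ⟮f⟯ F = d → 4 ≤ d → Fib Sg f 0 (-1) d →
    (∀ c, Fib Sg f c 1 (d - 1) ∨ (Fib Sg f c 2 1 ∧ Fib Sg f c 1 (d - 2))) → Fib Sg f c₀ 2 1 →
    Transcendental (IntermediateField.adjoin ℚ {c | c ≠ c₀ ∧ ¬ Fib Sg f c 1 d}) c₀ →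
    (∀ p ∉ Sg, ∀ φ, At φ p → (S.map ι).Loc (φ x) (φ y)) →
    (∀ m : Ideal R, m.IsMaximal → (S.map (Ideal.Quotient.mk m)).Tri) → (S.map ψ).AlgTri := by
  obtain ⟨k, hk⟩ := final13aN r hr
  have : NeZero r := ⟨by omega⟩
  refine ⟨k + 1, fun R _ _ ι ψ S F _ _ x y f Sg d c₀ h0 hP hI hI' hD hx hxy hy hg hdeg hd
    h1 h2 h3 h4 hL hF => alg_specT ι ψ h0 S hP hI ?_ hI' hD⟩
  have hMo : GE.Model x y (S.map ι).P := ⟨hx, hxy, hP.map _, hI, hy⟩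
  have : IsFF F := isFF_of_gen hx hxy hI.ne_zero hy
  obtain ⟨n, t, M, i₀, ht, k1, k2, k3, k4, k5, k6⟩ := exists_list (by omega) hdeg h1 h2 h3 hg h4
  have hf : Transcendental ℂ f := tr_of_rank (by omega)
  obtain ⟨w, hw, hw'⟩ := exists_int hf
  obtain ⟨P', hM'⟩ := GE.exists_model hf hw hw'
  have hd' := hM'.deg.trans hdeg
  obtain ⟨S', E, rfl, h⟩ := exists_chg (S.map ι) hMo (d_ne h0 hD) hM'
  obtain ⟨R', _, _, ι', S₀, q1, rfl, q2⟩ := transportT ι S hP h hF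
  have hL' : ∀ p, p ∉ Sg → ∀ φ, At φ p → (S₀.map ι').Loc (φ f) (φ w) :=
    fun p hp φ hφ => h.loc φ (hL p hp φ hφ)
  exact chg_algT h (hk d n R' ι' S₀ t M i₀ q1 ((q1.natDegree_map _).symm.trans hd') hd h.D' ht
    k1 k2 k3 (fun i hi => ⟨unr_fin hM' hL' (k4 i hi).2, loc_bra hM' hL' (k4 i hi).1⟩)
    (fun i hi => unr_fin hM' hL' (k5 i hi))
    (fun c hc => unr_fin hM' hL' (k6 c hc)) (unr_inf hM' hL' (Fib.pls0.1 h1)) hM'.irr q2)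

/-- A covering all of whose special values are free satisfies the hypotheses. -/
theorem of_cov {F : Type} [Field F] [Algebra ℂ F] {Sg : Finset (Place ℂ F)} {f : F} {d n : ℕ}
    {t : Fin n → ℂ} {M : Finset (Fin n)} (hC : Cov Sg f d t M) (hM : M.Nonempty) :
    Fib Sg f 0 (-1) d ∧ (∀ c, Fib Sg f c 1 (d - 1) ∨ (Fib Sg f c 2 1 ∧ Fib Sg f c 1 (d - 2))) ∧
      ∃ c₀, Fib Sg f c₀ 2 1 ∧
        Transcendental (IntermediateField.adjoin ℚ {c | c ≠ c₀ ∧ ¬ Fib Sg f c 1 d}) c₀ := by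
  obtain ⟨i₀, hi⟩ := hM
  refine ⟨Fib.pls0.2 hC.inf, fun c => ?_, t i₀, (hC.bra i₀ hi).2, ?_⟩
  · by_cases hc : c ∈ Set.range t
    · obtain ⟨i, rfl⟩ := hc
      by_cases hi : i ∈ M
      · exact Or.inr (hC.bra i hi).symm
      · exact Or.inl (hC.pun i hi)
    · exact Or.inl (fib_mono (hC.gen c hc) (by omega))
  · have k := (indep_rest hC.ind {i₀}).transcendental ⟨i₀, Finset.mem_singleton_self _⟩
    have hle : IntermediateField.adjoin ℚ {c | c ≠ t i₀ ∧ ¬ Fib Sg f c 1 d} ≤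
        IntermediateField.adjoin ℚ {c : ℂ | ∃ j, j ∉ ({i₀} : Finset (Fin n)) ∧ c = t j} :=
      IntermediateField.adjoin.mono _ _ _ fun c hc => by
        obtain ⟨j, rfl⟩ : c ∈ Set.range t := not_not.1 fun h => hc.2 (hC.gen c h)
        exact ⟨j, fun h => hc.1 (by rw [Finset.mem_singleton.1 h]), rfl⟩
    exact fun h => k (h.tower_top_of_subalgebra_le (S := ℂ)
      (A := (IntermediateField.adjoin ℚ _).toSubalgebra) hle)

end Pool.Agent.GR.FK
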