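import Pool.Agent.Lib.MP_aa40d3_nt.GC.Irr

/-! Generators that are trivial on one sheet. -/

open Matrix

namespace Pool.Agent.GR.GC

variable {G : Type} [Group G] {d m : ℕ} {S : Finset (Fin d)}

namespace BS

variable {b : BS G d}

theorem perm_lift {T : Finset (Fin d)} {N : Subgroup G}
    (hN : ∀ a ∈ T, ∀ c ∈ T, a ≠ c → ∃ z ∈ N, b.π z = Equiv.swap a c) (n : ℕ) :
    ∀ τ : Equiv.Perm (Fin d), τ.support.card ≤ n → τ.support ⊆ T → ∃ w ∈ N, b.π w = τ := by
  induction n with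
  | zero =>
    intro τ h _
    exact ⟨1, one_mem _, by
      rw [map_one, Equiv.Perm.support_eq_empty_iff.1 (Finset.card_eq_zero.1 (Nat.le_zero.1 h))]⟩
  | succ n ih =>
    intro τ h hT
    by_cases h1 : τ = 1
    · exact ⟨1, one_mem _, by rw [map_one, h1]⟩
    obtain ⟨x, hx⟩ : ∃ x, τ x ≠ x := not_forall.1 fun e => h1 (Equiv.ext e)
    have h2 := Equiv.Perm.mem_support.2 hx
    obtain ⟨z, hz, e⟩ := hN x (hT h2) (τ x) (hT (Equiv.Perm.apply_mem_support.2 h2)) hx.symm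
    have h3 := Equiv.Perm.card_support_swap_mul hx
    obtain ⟨w, hw, e'⟩ := ih (Equiv.swap x (τ x) * τ) (by omega)
      fun y hy => hT (Equiv.Perm.mem_support_swap_mul_imp_mem_support_ne hy).1
    exact ⟨z * w, mul_mem hz hw, by rw [map_mul, e, e', Equiv.swap_mul_self_mul]⟩

/-- An element that is trivial on the sheet `a` permutes the sheets as a product of exchanges that
are trivial on `a`. -/
theorem lift_free {N : Subgroup G} (hN : ∀ z a c, b.Swap z a c → z ∈ N) (hs : b.Sup ⊤ S)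
    (hc : b.Conn S) {x : G} {a : Fin d} (hx : x ∈ b.K a) :
    ∃ w ∈ N, b.π (w⁻¹ * x) = 1 ∧ w⁻¹ * x ∈ b.K a := by
  obtain ⟨w, hw, e⟩ := perm_lift (b := b) (T := S.erase a) (N := N ⊓ b.K a) (fun i hi j hj hij => by
    obtain ⟨z, hz⟩ := hc i (Finset.mem_of_mem_erase hi) j (Finset.mem_of_mem_erase hj) hij
    exact ⟨z, ⟨hN z i j hz, hz.2.2.2 a (Finset.ne_of_mem_erase hi).symm
      (Finset.ne_of_mem_erase hj).symm⟩, hz.2.1⟩) _ (b.π x) le_rfl fun y hy => by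
    rw [Equiv.Perm.mem_support] at hy
    refine Finset.mem_erase.2 ⟨fun e => hy (e ▸ b.fix a x hx), ?_⟩
    by_contra h
    exact hy (b.fix y x (hs x trivial y h))
  exact ⟨w, hw.1, by rw [map_mul, map_inv, e, inv_mul_cancel], mul_mem (inv_mem hw.2) hx⟩

theorem fin_triv' {X : Set G} (hX : Subgroup.closure X = ⊤) (hfr : ∀ x ∈ X, ∃ c ∈ S, x ∈ b.K c)
    (hS : 3 ≤ S.card) (hs : b.Sup ⊤ S) (hc : b.Conn S)
    (h : ∀ x, b.π x = 1 → (∃ c ∈ S, x ∈ b.K c) → x = 1) : Finite G := by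
  refine fin_triv (X := {z | ∃ a c, b.Swap z a c}) (r := 1) ?_ le_rfl (fun x hx => Or.inl hx) hS hs
    hc h
  rw [eq_top_iff, ← hX, Subgroup.closure_le]
  intro x hx
  obtain ⟨c, hcS, hxc⟩ := hfr x hx
  obtain ⟨w, hw, h1, h2⟩ := lift_free (N := Subgroup.closure {z | ∃ a c, b.Swap z a c})
    (fun z a c hz => Subgroup.subset_closure ⟨a, c, hz⟩) hs hc hxc
  rwa [← inv_mul_eq_one.1 (h _ h1 ⟨c, hcS, h2⟩)]

theorem Conn.trans (hc : b.Conn S) : b.Trans ⊤ S := fun i hi j hj => by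
  by_cases h : i = j
  · exact ⟨1, trivial, by rw [map_one, h]; rfl⟩
  · exact (hc i hi j hj h).imp fun z hz => ⟨trivial, hz.apply⟩

end BS

variable {σ : G →* Mt m}

theorem BR.left_K (b : BR σ d) {x : G} {a : Fin d} (h : x ∈ b.K a) : b.e a * σ x = b.e a := by
  have h5 := b.act x a
  rw [h.1, h.2] at h5
  exact h5.symm

/-- As `BR.nc`; the generators are only trivial on one sheet. -/
theorem BR.nc' (b : BR σ d) {X : Set G} (hX : Subgroup.closure X = ⊤)
    (hfr : ∀ x ∈ X, ∃ c ∈ S, x ∈ b.K c) (hS : 3 ≤ S.card) (he : ∀ j, j ∉ S → b.e j = 0)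
    (hs : b.bs.Sup ⊤ S) (hc : b.bs.Conn S) {B : Subalgebra ℂ (Mt m)} (hB : InvR σ B) {g : G}
    {i j : Fin d} (hg : b.bs.Swap g i j) (h : ∀ y ∈ B, σ g * y = y * σ g) (x : G) :
    ∀ y ∈ B, σ x * y = y * σ x := by
  have := irr_normal hB
  have hin : ∀ {z : G} {a c : Fin d}, b.bs.Swap z a c → a ∈ S := fun {z a c} hz => by
    by_contra ha
    exact hz.not_mem (hs z (Subgroup.mem_top z) a ha)
  have hsw : ∀ z a c, b.bs.Swap z a c → z ∈ irr_N σ B := fun z a c hz =>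
    BS.swap_mem (irr_N σ B) hS hc (hin hg) (hin hg.symm) hg (irr_mem.2 h) (hin hz)
      (hin hz.symm) hz
  refine irr_mem.1 ((Subgroup.closure_le (irr_N σ B)).2 (fun z₀ hz₀ => ?_)
    (hX ▸ Subgroup.mem_top x))
  obtain ⟨a₀, ha₀, hz₁⟩ := hfr z₀ hz₀
  obtain ⟨w₀, hw₀, hπ, hK⟩ := BS.lift_free (b := b.bs) hsw hs hc hz₁
  refine ((irr_N σ B).mul_mem_cancel_left (inv_mem hw₀)).1 ?_
  generalize w₀⁻¹ * z₀ = z₁ at hπ hK
  refine irr_mem.2 fun y hy => ?_
  have h1 : σ z₁ * y * σ z₁⁻¹ = y := by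
    refine irr_ext b fun a c => ?_
    by_cases ha : a ∈ S
    swap
    · simp only [he a ha, Matrix.zero_mul]
    by_cases hc' : c ∈ S
    swap
    · rw [he c hc', Matrix.mul_zero, Matrix.mul_zero]
    obtain ⟨w, hw, e⟩ := BS.bta_one (b := b.bs) (N := irr_N σ B)
      (fun a ha c hc' hac => (hc a ha c hc' hac).imp fun z h4 => ⟨hsw z _ _ h4, h4⟩) ha₀ ha
    have h2 : w * z₁ * w⁻¹ ∈ b.K a := by
      have := b.bs.conj w a₀ z₁ hK
      rwa [e, Equiv.swap_apply_left] at this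
    have h3 : b.π (w * z₁ * w⁻¹)⁻¹ = 1 := by
      have : b.π z₁ = 1 := hπ
      simp [this]
    rw [← irr_conj hB hw z₁ hy]
    generalize w * z₁ * w⁻¹ = z at h2 h3
    have hz : ∀ l, σ z⁻¹ * b.e l = b.e l * σ z⁻¹ := fun l => by rw [b.act, h3]; rfl
    rw [← Matrix.mul_assoc, ← Matrix.mul_assoc, b.left_K h2, Matrix.mul_assoc]
    by_cases hac : a = c
    · rw [← hac, ((b.K a).inv_mem h2).2]
    obtain ⟨l, hl, hl'⟩ := Finset.exists_mem_notMem_of_card_lt_card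
      (s := {a, c}) (t := S) (Finset.card_le_two.trans_lt (by omega))
    rw [Finset.mem_insert, Finset.mem_singleton, not_or] at hl'
    obtain ⟨u, hu⟩ := hc a ha c hc' hac
    obtain ⟨v, hv⟩ := hc l hl a ha hl'.1
    have k1 : ∀ y' ∈ B, b.e l * y' * b.e c = b.e l * y' * b.e a * σ u⁻¹ := fun y' hy' => by
      have e1 : σ u * b.e a = b.e c * σ u := by rw [b.act, show b.π u a = c from hu.apply]
      calc b.e l * y' * b.e c = b.e l * (y' * σ u) * b.e a * σ u⁻¹ := by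
            simp only [Matrix.mul_assoc]
            rw [← Matrix.mul_assoc (σ u), e1, Matrix.mul_assoc, rep_mul_inv, Matrix.mul_one]
        _ = _ := by
            rw [← irr_mem.1 (hsw _ _ _ hu) y' hy', ← Matrix.mul_assoc,
              b.left_K (hu.2.2.2 l hl'.1 hl'.2)]
    have k2 : b.e l * y * (σ z⁻¹ * b.e c) = b.e l * y * b.e c := by
      have k3 := k1 _ (hB z y hy)
      have k4 : b.e l * σ z = σ z * b.e l := by
        rw [b.act, show b.π z = 1 by rw [← inv_eq_one, ← map_inv, h3]]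
        rfl
      simp only [← Matrix.mul_assoc, k4] at k3
      rw [Matrix.mul_assoc _ (σ z⁻¹) (b.e a), ((b.K a).inv_mem h2).2] at k3
      have k5 := congrArg (σ z⁻¹ * ·) k3
      simp only [← Matrix.mul_assoc, rep_inv_mul, Matrix.one_mul] at k5
      rw [← Matrix.mul_assoc, k5, k1 y hy]
    have k6 : b.e a * y = σ v * (b.e l * y) * σ v⁻¹ := by
      have e1 : σ v * b.e l = b.e a * σ v := by rw [b.act, show b.π v l = a from hv.apply]
      rw [← Matrix.mul_assoc, e1, Matrix.mul_assoc (b.e a), irr_mem.1 (hsw _ _ _ hv) y hy,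
        Matrix.mul_assoc, Matrix.mul_assoc, rep_mul_inv, Matrix.mul_one]
    have k7 : σ v⁻¹ * b.e c = b.e c :=
      ((b.K c).inv_mem (hv.2.2.2 c (Ne.symm hl'.2) (Ne.symm hac))).2
    rw [k6, hz, Matrix.mul_assoc _ (σ v⁻¹), Matrix.mul_assoc _ (σ v⁻¹), ← Matrix.mul_assoc (σ v⁻¹),
      k7, ← hz, Matrix.mul_assoc (σ v), k2, Matrix.mul_assoc (σ v)]
  conv_rhs => rw [← h1, Matrix.mul_assoc, rep_inv_mul, Matrix.mul_one]

end Pool.Agent.GR.GC
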