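import Pool.Agent.Lib.MP_aa40d3_nt.FK.RedA

/-! Algebras without invariant subalgebras. -/

open Matrix

namespace Pool.Agent.GR.GC

variable {G : Type} [Group G] {d m : ℕ} {σ : G →* Mt m}

/-- No proper invariant subalgebra. -/
def PrimZ (σ : G →* Mt m) (Z : Subalgebra ℂ (Mt m)) : Prop :=
  ∀ B : Subalgebra ℂ (Mt m), B ≤ Z → InvR σ B → (∀ z ∈ B, ∃ c : ℂ, z = c • (1 : Mt m)) ∨ Z ≤ B

theorem BR.coef (b : BR σ d) (c : Fin d → ℂ) (i : Fin d) :
    (∑ j, c j • b.e j) * b.e i = c i • b.e i := by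
  rw [Finset.sum_mul, Finset.sum_eq_single i, smul_mul_assoc, b.idem]
  · intro j _ hj
    rw [smul_mul_assoc, b.orth j i hj, smul_zero]
  · simp

theorem PrimZ.prim {Z : Subalgebra ℂ (Mt m)} (h : PrimZ σ Z) (b : BR σ d) (h0 : ∀ i, b.e i ≠ 0)
    (hZ : ∀ i, b.e i ∈ Z) : b.bs.Prim := by
  classical
  intro E hE hinv ⟨a₀, c₀, hne, h1⟩ a c
  let B : Subalgebra ℂ (Mt m) :=
    { carrier := {z | ∃ f : Fin d → ℂ, (∀ i j, E i j → f i = f j) ∧ z = ∑ j, f j • b.e j}
      mul_mem' := by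
        rintro _ _ ⟨f, hf, rfl⟩ ⟨g, hg, rfl⟩
        refine ⟨f * g, fun i j e => by rw [Pi.mul_apply, hf i j e, hg i j e, Pi.mul_apply], ?_⟩
        rw [Finset.mul_sum]
        exact Finset.sum_congr rfl fun j _ => by
          rw [mul_smul_comm, b.coef, smul_smul, mul_comm, Pi.mul_apply]
      add_mem' := by
        rintro _ _ ⟨f, hf, rfl⟩ ⟨g, hg, rfl⟩
        refine ⟨f + g, fun i j e => by rw [Pi.add_apply, hf i j e, hg i j e, Pi.add_apply], ?_⟩
        simp only [Pi.add_apply, add_smul, Finset.sum_add_distrib]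
      algebraMap_mem' := fun r => ⟨fun _ => r, fun _ _ _ => rfl, by
        rw [← Finset.smul_sum, b.sum, Algebra.algebraMap_eq_smul_one]⟩ }
  rcases h B (by rintro _ ⟨f, -, rfl⟩; exact Z.sum_mem fun j _ => Z.smul_mem (hZ j) _) (by
    rintro γ _ ⟨f, hf, rfl⟩
    refine ⟨fun j => f (b.π γ⁻¹ j), fun i j e => hf _ _ (hinv γ⁻¹ i j e), ?_⟩
    rw [Finset.mul_sum, Finset.sum_mul, ← Equiv.sum_comp (b.π γ) fun j => f (b.π γ⁻¹ j) • b.e j]
    exact Finset.sum_congr rfl fun j _ => by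
      rw [mul_smul_comm, smul_mul_assoc, b.act, Matrix.mul_assoc, rep_mul_inv, Matrix.mul_one,
        map_inv, Equiv.Perm.coe_inv, Equiv.symm_apply_apply]) with k | k
  · obtain ⟨t, ht⟩ := k _ ⟨fun j => if E a j then 1 else 0, fun i j e =>
      if_congr ⟨fun h => hE.trans h e, fun h => hE.trans h (hE.symm e)⟩ rfl rfl, rfl⟩
    have h2 : ∀ j, (if E a j then (1 : ℂ) else 0) = t := fun j => by
      have h3 := b.coef (fun j => if E a j then 1 else 0) j
      rw [ht, smul_mul_assoc, Matrix.one_mul] at h3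
      exact (smul_left_injective ℂ (h0 j) h3).symm
    by_contra hn
    have h3 := (h2 a).trans (h2 c).symm
    rw [if_pos (hE.refl a), if_neg hn] at h3
    exact one_ne_zero h3
  · obtain ⟨f, hf, e⟩ := k (hZ a₀)
    have h2 := b.coef f a₀
    have h3 := b.coef f c₀
    rw [← e, b.idem] at h2
    rw [← e, b.orth _ _ hne, ← hf _ _ h1] at h3
    rw [(smul_eq_zero.1 h3.symm).resolve_right (h0 _), zero_smul] at h2
    exact absurd h2 (h0 _)

end Pool.Agent.GR.GC
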