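import Pool.Agent.Lib.MP_aa40d3_nt.FK.RedA

/-! Removing sheets when some members are arbitrary on a few sheets. -/

namespace Pool.Agent.GR.GC

variable {G : Type} [Group G] {d s : ℕ} {b : BS G d} {j : Fin d} {S : Finset (Fin d)}

open Classical in
/-- The number of exchanges. -/
noncomputable def BS.cs (b : BS G d) (l : List G) : ℕ := l.countP fun x => b.IsSw x

theorem hur_cP {H : Type} [Group H] {P : H → Bool} (hP : ∀ γ x, P (γ * x * γ⁻¹) = P x)
    {l l' : List H} (h : Hur l l') : l'.countP P = l.countP P := by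
  induction h with
  | refl => rfl
  | @left A B x y _ ih =>
    have e : P (y⁻¹ * x * y) = P x := by simpa using hP y⁻¹ x
    rw [← ih]
    simp only [List.countP_append, List.countP_cons, e]
    omega
  | @right A B x y _ ih =>
    rw [← ih]
    simp only [List.countP_append, List.countP_cons, hP]
    omega

theorem Hur.cs (b : BS G d) {l l' : List G} (h : Hur l l') : b.cs l' = b.cs l :=
  hur_cP (fun γ x => by
    classical
    exact decide_eq_decide.2 (BS.isSw_conj γ)) h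

theorem cs_nf {T R : List G} (hT : ∀ x ∈ T, b.IsSw x) (hR : ∀ x ∈ R, ¬ b.IsSw x) :
    b.cs (T ++ R) = T.length := by
  rw [BS.cs, List.countP_append, List.countP_eq_length.2 fun x hx => by simpa using hT x hx,
    List.countP_eq_zero.2 fun x hx => by simpa using hR x hx, add_zero]

theorem norm_aux (hP : b.Prim) (a₀ : Fin d) (n : ℕ) : ∀ (O : Finset (Fin d)) (T R : List G),
    O.card + n = d → gen (T ++ R) = ⊤ → (∀ x ∈ T, b.IsSw x) → (∀ x ∈ R, ¬ b.IsSw x) →
    2 * d < T.length → (∀ c ∈ O, ∃ σ ∈ gen (T.map b.π), σ a₀ = c) →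
      ∃ T' R', Hur (T ++ R) (T' ++ R') ∧ (∀ x ∈ T', b.IsSw x) ∧ (∀ x ∈ R', ¬ b.IsSw x) ∧
        ∀ c, ∃ σ ∈ gen (T'.map b.π), σ a₀ = c := by
  induction n with
  | zero =>
    intro O T R hO _ hT hR _ h
    rw [Finset.eq_univ_of_card O (by simpa using hO)] at h
    exact ⟨T, R, Hur.refl _, hT, hR, fun c => h c (Finset.mem_univ c)⟩
  | succ n ih =>
    intro O T R hO hg hT hR hn h
    by_cases h0 : ∃ c, c ∉ O ∧ ∃ σ ∈ gen (T.map b.π), σ a₀ = c
    · obtain ⟨c, hc, h1⟩ := h0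
      exact ih (insert c O) T R (by rw [Finset.card_insert_of_notMem hc]; omega) hg hT hR hn
        fun e he => (Finset.mem_insert.1 he).elim (fun k => k ▸ h1) (h e)
    obtain ⟨x, x', i, k, T', h1, hx, hx', h2⟩ := free_pair d Finset.univ T (by simp) hT
      (fun _ _ l hl => absurd (Finset.mem_univ l) hl) hn
    have h3 : gen (T.map b.π) ≤ gen (T'.map b.π) := by
      rw [BS.gen_map, ← h1.gen, ← BS.gen_map]
      refine gen_le.2 fun σ hσ => ?_
      simp only [List.map_cons, List.mem_cons] at hσ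
      rcases hσ with rfl | rfl | hσ
      exacts [h2, (hx.sim hx').1 ▸ h2, mem_gen hσ]
    obtain ⟨γ, h4, h5⟩ : ∃ γ p q, b.Swap (γ * x * γ⁻¹) p q ∧ p ∈ O ∧ q ∉ O := by
      by_contra hc
      have h6 : ∀ a c, Relation.EqvGen (fun a c => ∃ γ, a = b.π γ i ∧ c = b.π γ k) a c →
          (a ∈ O ↔ c ∈ O) := fun a c hac => by
        induction hac with
        | rel a c hac =>
          obtain ⟨γ, rfl, rfl⟩ := hac
          exact ⟨fun e => by_contra fun e' => hc ⟨γ, _, _, hx.conj γ, e, e'⟩,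
            fun e => by_contra fun e' => hc ⟨γ, _, _, (hx.conj γ).symm, e, e'⟩⟩
        | refl => rfl
        | symm _ _ _ k => exact k.symm
        | trans _ _ _ _ _ k k' => exact k.trans k'
      obtain ⟨c, -, hc'⟩ := Finset.exists_mem_notMem_of_card_lt_card (s := O) (t := Finset.univ)
        (by simp; omega)
      refine hc' ((h6 a₀ c (hP _ (Relation.EqvGen.is_equivalence _) (fun δ a c hac => ?_)
        ⟨i, k, hx.1, .rel _ _ ⟨1, by simp, by simp⟩⟩ a₀ c)).1
        (by_contra fun e => h0 ⟨a₀, e, 1, one_mem _, rfl⟩))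
      induction hac with
      | rel a c hac =>
        obtain ⟨γ, rfl, rfl⟩ := hac
        exact .rel _ _ ⟨δ * γ, by simp, by simp⟩
      | refl => exact .refl _
      | symm _ _ _ k => exact k.symm _ _
      | trans _ _ _ _ _ k k' => exact k.trans _ _ _ k'
    obtain ⟨q, h5, hp, hq⟩ := h5
    obtain ⟨y, hy, e⟩ : b.π γ⁻¹ ∈ (gen (T' ++ R)).map b.π := by
      have : b.π γ⁻¹ ∈ (gen (T ++ R)).map b.π := ⟨γ⁻¹, hg ▸ trivial, rfl⟩
      rw [← BS.gen_map, List.map_append] at this ⊢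
      exact gen_le.2 (fun σ hσ => (List.mem_append.1 hσ).elim
        (fun k => gen_left _ _ (h3 (mem_gen k))) fun k => mem_gen (List.mem_append_right _ k)) this
    obtain ⟨l', h6, h7⟩ := BS.shadow hx hx' (circle (T' ++ R) hy hx.2.2.1)
    obtain ⟨l₁, R', rfl, h8, h9⟩ := lift_split (A := _ :: _ :: T') h7
    have h10 : b.Swap (y⁻¹ * x * y) h4 q := by
      have := ((BS.Sim.refl x).conj (y := y⁻¹) (w := γ)
        (by rw [map_inv, e, map_inv, inv_inv])).swap h5
      rwa [inv_inv] at this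
    have h11 := (h1.app_right R).trans h6
    have h12 : gen (T'.map b.π) ≤ gen (l₁.map b.π) := by
      rw [BS.sim_map h8]
      exact gen_le.2 fun σ hσ => mem_gen (List.mem_cons_of_mem _ (List.mem_cons_of_mem _ hσ))
    obtain ⟨T₂, R₂, k1, k2⟩ := ih (insert q O) l₁ R'
      (by rw [Finset.card_insert_of_notMem hq]; omega) (h11.gen.trans hg) (fun z hz => by
        obtain ⟨u, hu, k⟩ := BS.sim_mem h8 z hz
        simp only [List.mem_cons] at hu
        refine k.isSw ?_
        rcases hu with rfl | rfl | hu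
        exacts [⟨_, _, h10⟩, ⟨_, _, h10⟩, h1.all (fun γ x hx => hx.conj γ) hT u (by simp [hu])])
      (fun z hz k => (BS.sim_mem h9 z hz).elim fun u hu => hR u hu.1 (hu.2.symm.isSw k))
      (by rw [h8.length_eq, ← h1.length] at *; exact hn) fun c hc => by
        rcases Finset.mem_insert.1 hc with rfl | hc
        · obtain ⟨σ, k1, k2⟩ := h _ hp
          refine ⟨b.π (y⁻¹ * x * y) * σ, mul_mem (mem_gen ?_) (h12 (h3 k1)), ?_⟩
          · rw [BS.sim_map h8]
            exact List.mem_cons_self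
          · rw [Equiv.Perm.mul_apply, k2, h10.apply]
        · exact (h c hc).imp fun σ k => ⟨h12 (h3 k.1), k.2⟩
    exact ⟨T₂, R₂, h11.trans k1, k2⟩

/-- The exchanges can be made transitive. -/
theorem norm (hP : b.Prim) {l : List G} (hg : gen l = ⊤) (hn : 2 * d < b.cs l) :
    ∃ T R, Hur l (T ++ R) ∧ (∀ x ∈ T, b.IsSw x) ∧ (∀ x ∈ R, ¬ b.IsSw x) ∧
      b.Trans (gen T) Finset.univ := by
  obtain ⟨T, R, h1, h2, h3, -⟩ := gather_left (P := b.IsSw) (Q := fun x => ¬ b.IsSw x)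
    (fun a c _ hc h => hc (by simpa [mul_assoc] using h.conj a)) l fun x _ => em _
  rcases Nat.eq_zero_or_pos d with rfl | hd
  · exact ⟨T, R, h1, h2, h3, fun i => i.elim0⟩
  obtain ⟨T', R', k1, k2, k3, k4⟩ := norm_aux hP ⟨0, hd⟩ d ∅ T R (by simp) (h1.gen.trans hg) h2 h3
    (by rwa [← cs_nf h2 h3, h1.cs]) (by simp)
  refine ⟨T', R', h1.trans k1, k2, k3, fun a _ c _ => ?_⟩
  rw [BS.gen_map] at k4
  obtain ⟨_, ⟨u, hu, rfl⟩, rfl⟩ := k4 a
  obtain ⟨_, ⟨v, hv, rfl⟩, rfl⟩ := k4 c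
  exact ⟨v * u⁻¹, mul_mem hv (inv_mem hu), by simp⟩

/-- The normal form. -/
structure NF (b : BS G d) (s : ℕ) (S : Finset (Fin d)) (T R : List G) : Prop where
  sw : ∀ x ∈ T, b.IsSw x
  tr : b.Trans (gen T) S
  sp : ∀ x ∈ R, b.Sp s x ∧ ¬ b.IsSw x
  sup : b.Sup (gen (T ++ R)) S
  prod : (T ++ R).prod = 1

theorem NF.hur {T R T' R' : List G} (h : NF b s S T R) (h' : Hur (T ++ R) (T' ++ R'))
    (h1 : ∀ x ∈ T', b.IsSw x) (h2 : b.Trans (gen T') S) (h3 : ∀ x ∈ R', b.Sp s x ∧ ¬ b.IsSw x) :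
    NF b s S T' R' := ⟨h1, h2, h3, h'.gen ▸ h.sup, h'.prod.trans h.prod⟩

theorem tidy_one (hj : j ∈ S) (hS : s < S.card) {T R : List G} {y : G} (h : NF b s S T (y :: R))
    (hn : 2 * S.card < T.length) : ∃ T' y' R', Hur (T ++ y :: R) (T' ++ y' :: R') ∧
      NF b s S T' (y' :: R') ∧ y' ∈ b.K j ∧ List.Forall₂ b.Sim R' R := by
  by_cases hy : y ∈ b.K j
  · exact ⟨T, y, R, Hur.refl _, h, hy, List.forall₂_same.2 fun _ _ => BS.Sim.refl _⟩
  obtain ⟨c, hc, hyc⟩ := (h.sp y List.mem_cons_self).1.free hS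
  have hs : b.Sup (gen T) S := fun z hz => h.sup z (gen_left _ _ hz)
  obtain ⟨x, x', i, k, T', h1, hx, hx', h2⟩ := free_pair _ S T rfl h.sw hs hn
  have hT := h1.all (fun γ x hx => hx.conj γ) h.sw
  have hT' : ∀ z ∈ T', b.IsSw z := fun z hz => hT z (by simp [hz])
  have h3 : b.Trans (gen T') S := (h1.gen ▸ h.tr).of_le (gen_le.2 fun σ hσ => by
    simp only [List.map_cons, List.mem_cons] at hσ
    rcases hσ with rfl | rfl | hσ
    exacts [h2, (hx.sim hx').1 ▸ h2, mem_gen hσ])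
  have hxT : x ∈ gen T := h1.gen ▸ mem_gen List.mem_cons_self
  obtain ⟨w, hw, e1, e2⟩ := BS.bta_two (BS.conn_sub hT' h3) (hs.mem hxT hx) (hs.mem hxT hx.symm)
    hx.1 hc hj fun e => hy (e ▸ hyc)
  have hu := hx.conj w
  rw [e1, e2] at hu
  have h4 := circle (T' ++ y :: R) (gen_left _ _ (inv_mem hw)) hx.2.2.1
  rw [inv_inv] at h4
  generalize w * x * w⁻¹ = u at hu h4
  have h5 := (Hur.right (A := T' ++ [u]) (x := u) (y := y) (B := R)
    (by simpa using h4.trans (lift_passR hu.2.2.1 T' (y :: R))))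
  have h6 := Hur.right (A := T' ++ [u]) (B := R) h5
  obtain ⟨l', h7, h8⟩ := BS.shadow hx hx' h6
  obtain ⟨l₁, v, y', R', rfl, k1, k2, k3, k4⟩ : ∃ l₁ v y' R', l' = l₁ ++ v :: y' :: R' ∧ _ := by
    obtain ⟨l₁, l₂, v, y', e, k⟩ := lift_split₂ h8
    exact ⟨l₁, v, y', l₂, e, k⟩
  have h9 : Hur (T ++ y :: R) ((l₁ ++ [v]) ++ y' :: R') := by
    simpa using (h1.app_right (y :: R)).trans h7
  have hy' := h.sp y List.mem_cons_self
  refine ⟨l₁ ++ [v], y', R', h9, h.hur h9 (fun z hz => ?_) (h3.of_le ?_) fun z hz => ?_,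
    (k3.2.1 j).2 (hu.apply ▸ b.conj u c y hyc), k4⟩
  · rcases List.mem_append.1 hz with hz | hz
    · obtain ⟨t, ht, k⟩ := BS.sim_mem k1 z hz
      exact k.isSw ((List.mem_append.1 ht).elim (hT' t) fun e => by
        rw [List.mem_singleton.1 e]; exact ⟨_, _, hu⟩)
    · rw [List.mem_singleton.1 hz]
      exact k2.isSw (BS.IsSw.conj ⟨_, _, hu⟩ _)
  · rw [List.map_append, BS.sim_map k1, List.map_append, List.append_assoc]
    exact gen_left _ _
  · rcases List.mem_cons.1 hz with rfl | hz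
    · exact ⟨k3.sp (hy'.1.conj u), fun e => hy'.2 ((BS.isSw_conj u).1 (k3.symm.isSw e))⟩
    · obtain ⟨t, ht, k⟩ := BS.sim_mem k4 z hz
      have := h.sp t (List.mem_cons_of_mem _ ht)
      exact ⟨k.sp this.1, fun e => this.2 (k.symm.isSw e)⟩

theorem NF.len {T R T' R' : List G} {S' : Finset (Fin d)} (h : NF b s S T R)
    (h' : NF b s S' T' R') (k : Hur (T ++ R) (T' ++ R')) : T'.length = T.length := by
  rw [← cs_nf h.sw fun x hx => (h.sp x hx).2, ← cs_nf h'.sw fun x hx => (h'.sp x hx).2, k.cs]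

theorem tidy (hj : j ∈ S) (hS : s < S.card) (n : ℕ) : ∀ T R₂ R₁ : List G, R₂.length = n →
    NF b s S T (R₂ ++ R₁) → 2 * S.card < T.length → (∀ x ∈ R₁, x ∈ b.K j) →
      ∃ T' R', Hur (T ++ (R₂ ++ R₁)) (T' ++ R') ∧ NF b s S T' R' ∧ ∀ x ∈ R', x ∈ b.K j := by
  induction n with
  | zero =>
    intro T R₂ R₁ h0 h _ hK
    obtain rfl := List.length_eq_zero_iff.1 h0
    exact ⟨T, R₁, Hur.refl _, h, hK⟩
  | succ n ih =>
    intro T R₂ R₁ h0 h hn hK
    obtain ⟨y, R₂, rfl⟩ := List.exists_cons_of_length_eq_add_one h0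
    obtain ⟨T', y', R', h1, h2, h3, h4⟩ := tidy_one hj hS h hn
    obtain ⟨A, B, rfl, h5, h6⟩ := lift_split h4
    have h7 : Hur (T' ++ y' :: (A ++ B)) (T' ++ ((A.map fun x => y' * x * y'⁻¹) ++ y' :: B)) := by
      simpa using (hur_oneR y' A).ctx T' B
    obtain ⟨T₂, R₃, k1, k2⟩ := ih T' _ (y' :: B) (by simpa [h5.length_eq] using h0)
      (h2.hur h7 h2.sw h2.tr fun z hz => by
        rcases List.mem_append.1 hz with hz | hz
        · obtain ⟨t, ht, rfl⟩ := List.mem_map.1 hz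
          have := h2.sp t (by simp [ht])
          exact ⟨this.1.conj _, fun e => this.2 ((BS.isSw_conj _).1 e)⟩
        · exact h2.sp z (by simp only [List.mem_cons, List.mem_append] at hz ⊢; tauto))
      (by rwa [h.len h2 h1]) fun z hz => (List.mem_cons.1 hz).elim (fun e => e ▸ h3) fun hz =>
        (BS.sim_mem h6 z hz).elim fun t ht => (ht.2.2.1 j).2 (hK t ht.1)
    exact ⟨T₂, R₃, (h1.trans h7).trans k1, k2⟩

theorem step (hj : j ∈ S) (hS : s < S.card) (h3 : 3 ≤ S.card) {T R : List G} (h : NF b s S T R)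
    (hn : 2 * S.card < T.length) : ∃ T' R' y, ∃ i ∈ S.erase j,
      Hur (T ++ R) ((T' ++ R') ++ [y, y]) ∧ b.Swap y j i ∧ NF b s (S.erase j) T' R' ∧
        T.length = T'.length + 2 ∧ b.Agree (gen (T ++ R)) (gen (T' ++ R')) (S.erase j) := by
  obtain ⟨T₁, R₁, h1, h2, h4⟩ := tidy hj hS _ T R [] rfl (by rwa [List.append_nil]) hn (by simp)
  rw [List.append_nil] at h1
  have hp : T₁.prod ∈ b.K j := by
    have := h2.prod
    rw [List.prod_append] at this
    rw [eq_inv_of_mul_eq_one_left this]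
    exact inv_mem (list_prod_mem h4)
  obtain ⟨A, y, i, k1, k2, k3⟩ := red_one (r := 1) le_rfl h3 hj
    (fun x hx => Or.inl (h2.sw x hx)) h2.tr hp
  have k4 : Hur (T ++ R) ((A ++ R₁) ++ [y, y]) := by
    have := (lift_passR k2.2.2.1 R₁ []).app_left A
    exact (h1.trans (k1.app_right R₁)).trans (by simpa using this)
  have k5 : ∀ a ∈ A ++ R₁, a ∈ b.K j := fun a ha => (List.mem_append.1 ha).elim (k3 a) (h4 a)
  have hsub := Finset.erase_subset_erase j (Finset.subset_univ S)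
  have k6 := k1.length
  refine ⟨A, R₁, y, i, Finset.mem_erase.2 ⟨k2.1.symm, h.sup.mem (k4.gen ▸ mem_gen (by simp))
    k2.symm⟩, k4, k2, ⟨fun x hx => k1.all (fun γ x hx => hx.conj γ) h2.sw x
      (List.mem_append_left _ hx), ?_, h2.sp, sup_erase h.sup (k4.gen ▸ gen_left _ _) k5, ?_⟩,
    by rw [← h.len h2 h1, ← k6]; simp, k4.gen ▸ (BS.wreath k5 k2).mono hsub⟩
  · exact ((BS.wreath k3 k2).mono hsub).trans_of (k1.gen ▸ h2.tr) (Finset.erase_subset j S)
  · rw [← h.prod, ← k4.prod, List.prod_append (l₂ := [y, y]), List.prod_cons, List.prod_singleton,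
      k2.2.2.1, mul_one]

/-- All but `m` sheets are removed; the last removed sheet is `j`. -/
theorem reduceS {m : ℕ} (hm : s ≤ m) (h2 : 2 ≤ m) (c : ℕ) : ∀ (S : Finset (Fin d)) (T R : List G),
    S.card = m + 1 + c → NF b s S T R → 2 * S.card < T.length →
      ∃ S' ⊆ S, S'.card = m ∧ ∃ j, j ∉ S' ∧ ∃ i ∈ S', ∃ T' R' y B,
        Hur (T ++ R) ((T' ++ R') ++ y :: y :: B) ∧ b.Swap y j i ∧ NF b s S' T' R' ∧
          T.length = T'.length + 2 * (c + 1) ∧ b.Agree (gen (T ++ R)) (gen (T' ++ R')) S' := by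
  induction c with
  | zero =>
    intro S T R hS h hn
    obtain ⟨j, hj⟩ : S.Nonempty := Finset.card_pos.1 (by omega)
    obtain ⟨T', R', y, i, hi, k1, k2, k3, k4, k5⟩ := step hj (by omega) (by omega) h hn
    exact ⟨_, Finset.erase_subset j S, by rw [Finset.card_erase_of_mem hj]; omega, j,
      Finset.notMem_erase j S, i, hi, T', R', y, [], k1, k2, k3, k4, k5⟩
  | succ c ih =>
    intro S T R hS h hn
    obtain ⟨j, hj⟩ : S.Nonempty := Finset.card_pos.1 (by omega)
    obtain ⟨T', R', y, i, -, k1, -, k3, k4, k5⟩ := step hj (by omega) (by omega) h hn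
    have hc := Finset.card_erase_of_mem hj
    obtain ⟨S', e1, e2, j', e3, i', e4, T₂, R₂, y', B, e5, e6, e7, e8, e9⟩ :=
      ih _ T' R' (by omega) k3 (by omega)
    exact ⟨S', e1.trans (Finset.erase_subset j S), e2, j', e3, i', e4, T₂, R₂, y', B ++ [y, y],
      k1.trans (by simpa using e5.app_right [y, y]), e6, e7, by omega, k5.trans e9 e1⟩

/-- Members that move a block move twice as many sheets as a block has. -/
theorem prim_of_dvd {l : List G} (hg : gen l = ⊤) (ht : b.Trans ⊤ Finset.univ)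
    (hl : ∀ x ∈ l, b.Sp s x) (hd : ∀ e, e ∣ d → 1 < e → e < d → s < 2 * e) : b.Prim := by
  classical
  intro E hE hinv ⟨a₀, c₀, hne, h0⟩
  let _ : MulAction G (Fin d) := MulAction.compHom (Fin d) b.π
  have : MulAction.IsPretransitive G (Fin d) := ⟨fun a c =>
    (ht a (Finset.mem_univ _) c (Finset.mem_univ _)).imp fun _ h => h.2⟩
  have hiff : ∀ γ a c, E (b.π γ a) (b.π γ c) → E a c := fun γ a c h => by
    simpa using hinv γ⁻¹ _ _ h
  let C : Fin d → Finset (Fin d) := fun a => Finset.univ.filter (E a)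
  have hC : ∀ a c, c ∈ C a ↔ E a c := fun a c => by simp [C]
  have hcard : ∀ γ a, (C (b.π γ a)).card = (C a).card := fun γ a =>
    (Finset.card_bij (fun c _ => b.π γ c) (fun c hc => (hC _ _).2 (hinv γ _ _ ((hC _ _).1 hc)))
      (fun _ _ _ _ h => (b.π γ).injective h) fun c hc => ⟨b.π γ⁻¹ c, (hC _ _).2
        (hiff γ _ _ (by simpa using (hC _ _).1 hc)), by simp⟩).symm
  have hall : ∀ a, (C a).card = (C a₀).card := fun a => by
    obtain ⟨γ, -, rfl⟩ := ht a₀ (Finset.mem_univ _) a (Finset.mem_univ _)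
    exact hcard γ a₀
  have hdvd : (C a₀).card ∣ d := by
    have hB : MulAction.IsBlock G (C a₀ : Set (Fin d)) :=
      MulAction.isBlock_iff_smul_eq_of_mem.2 fun γ a ha ha' => by
        have h1 := (hC _ _).1 ha
        have h2 : E a₀ (b.π γ a) := (hC _ _).1 ha'
        ext c
        refine ⟨fun ⟨e, he, k⟩ => (hC _ _).2 ?_, fun hc => ⟨b.π γ⁻¹ c, (hC _ _).2 ?_, ?_⟩⟩
        · rw [← k]
          exact hE.trans h2 (hinv γ _ _ (hE.trans (hE.symm h1) ((hC _ _).1 he)))
        · exact hE.trans h1 (hiff γ _ _ (by simpa using hE.trans (hE.symm h2) ((hC _ _).1 hc)))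
        · change b.π γ (b.π γ⁻¹ c) = c
          simp
    simpa using hB.ncard_dvd_card ⟨a₀, (hC _ _).2 (hE.refl _)⟩
  have h1 : 1 < (C a₀).card := Finset.one_lt_card.2
    ⟨a₀, (hC _ _).2 (hE.refl _), c₀, (hC _ _).2 h0, hne⟩
  by_cases h2 : (C a₀).card < d
  swap
  · have h3 : C a₀ = Finset.univ :=
      Finset.eq_univ_of_card _ (le_antisymm (Finset.card_le_univ _) (by simpa using h2))
    exact fun a c => hE.trans (hE.symm ((hC _ _).1 (h3 ▸ Finset.mem_univ a)))
      ((hC _ _).1 (h3 ▸ Finset.mem_univ c))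
  have h3 := hd _ hdvd h1 h2
  have key : ∀ x ∈ l, ∀ a, E a (b.π x a) := fun x hx a => by
    by_contra hn
    obtain ⟨T, hT, hK⟩ := hl x hx
    have h4 : C a ∪ C (b.π x a) ⊆ T := fun c hc => by
      by_contra hcT
      have h5 := b.fix c x (hK c hcT)
      rcases Finset.mem_union.1 hc with hc | hc
      · have h6 := (hC _ _).1 hc
        exact hn (hE.trans h6 (hE.symm (h5 ▸ hinv x _ _ h6)))
      · have h6 := (hC _ _).1 hc
        exact hn (hE.trans (hiff x _ _ (h5.symm ▸ h6)) (hE.symm h6))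
    have h5 := Finset.card_le_card h4
    rw [Finset.card_union_of_disjoint (Finset.disjoint_left.2 fun c k k' =>
      hn (hE.trans ((hC _ _).1 k) (hE.symm ((hC _ _).1 k')))), hall, hall (b.π x a)] at h5
    omega
  have key2 : ∀ x ∈ gen l, ∀ a, E a (b.π x a) := fun x hx => by
    induction hx using Subgroup.closure_induction with
    | mem x hx => exact key x hx
    | one => exact fun a => by simpa using hE.refl a
    | mul x y _ _ hx hy => exact fun a => by simpa using hE.trans (hy a) (hx _)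
    | inv x _ hx => exact fun a => hE.symm (by simpa using hx (b.π x⁻¹ a))
  intro a c
  obtain ⟨γ, -, rfl⟩ := ht a (Finset.mem_univ _) c (Finset.mem_univ _)
  exact key2 γ (hg ▸ trivial) a

end Pool.Agent.GR.GC
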