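import Pool.Agent.Lib.MP_aa40d3_nt.GC.Red
import Pool.Agent.Lib.MP_aa40d3_nt.GC.BtA
import Pool.Agent.Lib.MP_aa40d3_nt.GD.Lift

/-! Free pairs of exchanges. -/

namespace Pool.Agent.GR.GC

variable {G : Type} [Group G] {d s : ℕ}

namespace BS

variable (b : BS G d)

/-- An exchange of two sheets. -/
def IsSw (x : G) : Prop := ∃ i j, b.Swap x i j

/-- Trivial on all but `s` sheets. -/
def Sp (s : ℕ) (x : G) : Prop := ∃ T : Finset (Fin d), T.card ≤ s ∧ ∀ l, l ∉ T → x ∈ b.K l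

/-- Two elements that look alike. -/
def Sim (x u : G) : Prop :=
  b.π x = b.π u ∧ (∀ c, x ∈ b.K c ↔ u ∈ b.K c) ∧ (x * x = 1 ↔ u * u = 1)

/-- No proper system of blocks. -/
def Prim : Prop := ∀ E : Fin d → Fin d → Prop, Equivalence E →
  (∀ γ a c, E a c → E (b.π γ a) (b.π γ c)) → (∃ a c, a ≠ c ∧ E a c) → ∀ a c, E a c

variable {b} {x x' y u w : G} {i j : Fin d} {S : Finset (Fin d)}

theorem IsSw.conj (h : b.IsSw x) (γ : G) : b.IsSw (γ * x * γ⁻¹) :=
  let ⟨_, _, h⟩ := h; ⟨_, _, h.conj γ⟩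

theorem isSw_conj (γ : G) : b.IsSw (γ * x * γ⁻¹) ↔ b.IsSw x :=
  ⟨fun h => by simpa [mul_assoc] using h.conj γ⁻¹, fun h => h.conj γ⟩

theorem Sp.conj (h : b.Sp s x) (γ : G) : b.Sp s (γ * x * γ⁻¹) := by
  obtain ⟨T, hT, h2⟩ := h
  refine ⟨T.image (b.π γ), Finset.card_image_le.trans hT, fun c hc => ?_⟩
  obtain ⟨c, rfl⟩ := (b.π γ).surjective c
  exact b.conj γ c x (h2 c fun e => hc (Finset.mem_image_of_mem _ e))

theorem Sp.mono (h : b.Sp s x) {s' : ℕ} (hs : s ≤ s') : b.Sp s' x :=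
  h.imp fun _ h => ⟨h.1.trans hs, h.2⟩

theorem IsSw.sp (h : b.IsSw x) : b.Sp 2 x := (show b.Ok 1 x from Or.inl h).supp le_rfl

theorem Sp.free (h : b.Sp s x) (hS : s < S.card) : ∃ c ∈ S, x ∈ b.K c := by
  obtain ⟨T, hT, h1⟩ := h
  obtain ⟨c, hc, hc'⟩ := Finset.exists_mem_notMem_of_card_lt_card (s := T) (t := S) (by omega)
  exact ⟨c, hc, h1 c hc'⟩

theorem Sim.refl (x : G) : b.Sim x x := ⟨rfl, fun _ => Iff.rfl, Iff.rfl⟩

theorem Sim.symm (h : b.Sim x u) : b.Sim u x := ⟨h.1.symm, fun c => (h.2.1 c).symm, h.2.2.symm⟩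

theorem Sim.swap (h : b.Sim x u) (hu : b.Swap u i j) : b.Swap x i j :=
  ⟨hu.1, h.1.trans hu.2.1, h.2.2.2 hu.2.2.1, fun l h1 h2 => (h.2.1 l).2 (hu.2.2.2 l h1 h2)⟩

theorem Sim.isSw (h : b.Sim x u) (hu : b.IsSw u) : b.IsSw x :=
  let ⟨_, _, hu⟩ := hu; ⟨_, _, h.swap hu⟩

theorem Sim.sp (h : b.Sim x u) (hu : b.Sp s u) : b.Sp s x :=
  hu.imp fun _ hu => ⟨hu.1, fun l hl => (h.2.1 l).2 (hu.2 l hl)⟩

theorem Sim.conj (h : b.Sim x u) (e : b.π y = b.π w) : b.Sim (y * x * y⁻¹) (w * u * w⁻¹) := by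
  have sq : ∀ y x : G, y * x * y⁻¹ * (y * x * y⁻¹) = 1 ↔ x * x = 1 := fun y x => by
    rw [show y * x * y⁻¹ * (y * x * y⁻¹) = y * (x * x) * y⁻¹ by group, mul_inv_eq_one,
      mul_eq_left]
  refine ⟨by simp [h.1, e], fun c => ?_, by rw [sq, sq, h.2.2]⟩
  obtain ⟨c, rfl⟩ := (b.π y).surjective c
  rw [conj_iff, e, conj_iff, h.2.1]

theorem Swap.sim (hx : b.Swap x i j) (hx' : b.Swap x' i j) : b.Sim x' x := by
  refine ⟨hx'.2.1.trans hx.2.1.symm, fun c => ?_, iff_of_true hx'.2.2.1 hx.2.2.1⟩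
  by_cases e : c = i
  · exact iff_of_false (e ▸ hx'.not_mem) (e ▸ hx.not_mem)
  by_cases e' : c = j
  · exact iff_of_false (e' ▸ hx'.symm.not_mem) (e' ▸ hx.symm.not_mem)
  exact iff_of_true (hx'.2.2.2 c e e') (hx.2.2.2 c e e')

/-- A pair of exchanges of the same type behaves as a pair of equal exchanges. -/
theorem shadow (hx : b.Swap x i j) (hx' : b.Swap x' i j) {L p : List G}
    (h : Hur (x :: x :: L) p) : ∃ l', Hur (x :: x' :: L) l' ∧ List.Forall₂ b.Sim l' p :=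
  Hur.lift_rel (fun _ _ _ _ h1 h2 => ⟨by
      simpa using h1.conj (y := _⁻¹) (w := _⁻¹) (by rw [map_inv, map_inv, h2.1]),
      h2.conj h1.1⟩)
    (.cons (Sim.refl _) (.cons (hx.sim hx') (List.forall₂_same.2 fun _ _ => Sim.refl _))) h

theorem sim_mem {L L' : List G} (h : List.Forall₂ b.Sim L' L) : ∀ x ∈ L', ∃ u ∈ L, b.Sim x u := by
  induction h with
  | nil => simp
  | cons h _ ih =>
    intro z hz
    rcases List.mem_cons.1 hz with rfl | hz
    · exact ⟨_, List.mem_cons_self, h⟩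
    · exact (ih z hz).imp fun u hu => ⟨List.mem_cons_of_mem _ hu.1, hu.2⟩

theorem sim_map {L L' : List G} (h : List.Forall₂ b.Sim L' L) : L'.map b.π = L.map b.π := by
  induction h with
  | nil => rfl
  | cons h _ ih => rw [List.map_cons, List.map_cons, h.1, ih]

theorem gen_map (L : List G) : gen (L.map b.π) = (gen L).map b.π := by
  rw [gen, gen, MonoidHom.map_closure]
  congr 1
  ext σ
  simp

theorem Trans.of_le {T T' : List G} (h : b.Trans (gen T) S)
    (hT : gen (T.map b.π) ≤ gen (T'.map b.π)) : b.Trans (gen T') S := fun a ha c hc => by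
  obtain ⟨z, hz, e⟩ := h a ha c hc
  rw [gen_map, gen_map] at hT
  obtain ⟨z', hz', e'⟩ := hT ⟨z, hz, rfl⟩
  exact ⟨z', hz', by rw [e', e]⟩

theorem Sup.mem {H : Subgroup G} (hs : b.Sup H S) (hx : x ∈ H) (h : b.Swap x i j) : i ∈ S := by
  by_contra hi
  exact h.not_mem (hs x hx i hi)

/-- As `conn`, inside the group generated by a list of exchanges. -/
theorem conn_sub {T : List G} (hT : ∀ x ∈ T, b.IsSw x) (ht : b.Trans (gen T) S) :
    ∀ a ∈ S, ∀ c ∈ S, a ≠ c → ∃ z ∈ gen T, b.Swap z a c := by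
  have htr : ∀ {c c' c'' : Fin d}, (c = c' ∨ ∃ z ∈ gen T, b.Swap z c c') →
      (c' = c'' ∨ ∃ z ∈ gen T, b.Swap z c' c'') → c = c'' ∨ ∃ z ∈ gen T, b.Swap z c c'' := by
    rintro c c' c'' (rfl | ⟨z, hz0, hz⟩) h'
    · exact h'
    rcases h' with rfl | ⟨w, hw0, hw⟩
    · exact Or.inr ⟨z, hz0, hz⟩
    refine (eq_or_ne c c'').imp_right fun hc =>
      ⟨w * z * w⁻¹, mul_mem (mul_mem hw0 hz0) (inv_mem hw0), ?_⟩
    have h1 := hz.conj w
    rwa [hw.apply, hw.2.1, Equiv.swap_apply_of_ne_of_ne hz.1 hc] at h1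
  have one : ∀ x ∈ T, ∀ c, c = b.π x c ∨ ∃ z ∈ gen T, b.Swap z c (b.π x c) := fun x hx c => by
    obtain ⟨i, j, h⟩ := hT x hx
    by_cases h1 : c = i
    · rw [h1, h.apply]
      exact Or.inr ⟨x, mem_gen hx, h⟩
    by_cases h2 : c = j
    · rw [h2, h.symm.apply]
      exact Or.inr ⟨x, mem_gen hx, h.symm⟩
    · rw [h.2.1, Equiv.swap_apply_of_ne_of_ne h1 h2]
      exact Or.inl rfl
  have key : ∀ x ∈ gen T, ∀ c, c = b.π x c ∨ ∃ z ∈ gen T, b.Swap z c (b.π x c) := fun x hx => by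
    induction hx using Subgroup.closure_induction'' with
    | mem x hx => exact one x hx
    | inv_mem x hx =>
      obtain ⟨i, j, h⟩ := hT x hx
      rw [h.inv]
      exact one x hx
    | one => exact fun c => Or.inl (by rw [map_one]; rfl)
    | mul x y _ _ hx hy =>
      intro c
      rw [map_mul, Equiv.Perm.mul_apply]
      exact htr (hy c) (hx _)
  intro a ha c hc hac
  obtain ⟨x, hx, rfl⟩ := ht a ha c hc
  exact (key x hx a).resolve_left hac

theorem IsSw.swap (h : b.IsSw x) (hj : x ∉ b.K j) : b.Swap x j (b.π x j) := by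
  obtain ⟨i, k, h⟩ := h
  obtain ⟨c, hc⟩ := (show b.Ok 1 x from Or.inl ⟨i, k, h⟩).swap
    (fun e => h.1 (by rw [← h.apply, e]; rfl)) hj
  rwa [hc.apply]

end BS

variable {b : BS G d} {j : Fin d}

/-- The exchanges that move `j` can be given the same type. -/
theorem same_type {T : List G} (hT : ∀ x ∈ T, b.IsSw x) (n : ℕ) : ∀ A B : List G, B.length < n →
    Hur T (A ++ B) → (∀ a ∈ A, a ∈ b.K j) → (∀ c ∈ B, c ∉ b.K j) →
      ∃ A B i, Hur T (A ++ B) ∧ (∀ a ∈ A, a ∈ b.K j) ∧ ∀ x ∈ B, b.Swap x j i := by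
  induction n with
  | zero => intro A B h; exact absurd h (Nat.not_lt_zero _)
  | succ n ih =>
    intro A B hn h hA hB
    have hsw : ∀ x ∈ B, b.Swap x j (b.π x j) := fun x hx =>
      (h.all (fun γ x hx => hx.conj γ) hT x (List.mem_append_right _ hx)).swap (hB x hx)
    by_cases hc : B.IsChain fun x y => b.π x j = b.π y j
    · have : Trans (fun x y => b.π x j = b.π y j) (fun x y => b.π x j = b.π y j)
        fun x y => b.π x j = b.π y j := ⟨Eq.trans⟩
      rcases B with _ | ⟨x₁, Q⟩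
      · exact ⟨A, [], j, h, hA, by simp⟩
      refine ⟨A, _, b.π x₁ j, h, hA, fun x hx => ?_⟩
      rcases List.mem_cons.1 hx with rfl | hx'
      · exact hsw x hx
      · rw [(List.pairwise_cons.1 (List.isChain_iff_pairwise.1 hc)).1 x hx']
        exact hsw x hx
    rw [List.isChain_iff_forall_rel_of_append_cons_cons] at hc
    push Not at hc
    obtain ⟨x, y, C, R, rfl, hne⟩ := hc
    have hx := hsw x (by simp)
    obtain ⟨A', B', h1, h2, h3, z, hz, hzj⟩ := redb_move h hA hx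
      ((hsw y (by simp)).2.2.2 _ hx.1.symm hne) rfl
    obtain ⟨C', D, h4, h5, h6, h7⟩ := red_gather b j B'
    have hC : 0 < C'.length := List.length_pos_of_mem (h7 z hz hzj)
    have hl := h4.length
    rw [List.length_append] at hl
    refine ih (A' ++ C') D (by omega) ?_ (fun a ha => ?_) h6
    · rw [List.append_assoc]
      exact h1.trans (h4.app_left A')
    · exact (List.mem_append.1 ha).elim (h2 a) (h5 a)

theorem sup_erase {S : Finset (Fin d)} {A : List G} {H : Subgroup G} (hs : b.Sup H S)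
    (hle : gen A ≤ H) (hA : ∀ a ∈ A, a ∈ b.K j) : b.Sup (gen A) (S.erase j) := fun y hy k hk => by
  by_cases e : k = j
  · rw [e]; exact gen_le.2 hA hy
  · exact hs y (hle hy) k fun h => hk (Finset.mem_erase.2 ⟨e, h⟩)

theorem gen_left (A B : List G) : gen A ≤ gen (A ++ B) :=
  gen_le.2 fun _ ha => mem_gen (List.mem_append_left _ ha)

/-- More than `2 |S|` exchanges contain a superfluous pair. -/
theorem free_pair (n : ℕ) : ∀ (S : Finset (Fin d)) (T : List G), S.card = n →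
    (∀ x ∈ T, b.IsSw x) → b.Sup (gen T) S → 2 * n < T.length →
      ∃ x x' i j T', Hur T (x :: x' :: T') ∧ b.Swap x i j ∧ b.Swap x' i j ∧
        b.π x ∈ gen (T'.map b.π) := by
  induction n with
  | zero =>
    intro S T hS hT hs hn
    obtain ⟨x, hx⟩ := List.exists_mem_of_length_pos hn
    obtain ⟨i, j, h⟩ := hT x hx
    have := hs.mem (mem_gen hx) h
    rw [Finset.card_eq_zero.1 hS] at this
    exact absurd this (Finset.notMem_empty _)
  | succ n ih =>
    intro S T hS hT hs hn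
    obtain ⟨j, hj⟩ : S.Nonempty := Finset.card_pos.1 (by omega)
    obtain ⟨A₀, B₀, h1, h2, h3, -⟩ := red_gather b j T
    obtain ⟨A, B, i, h4, h5, h6⟩ := same_type hT _ A₀ B₀ (Nat.lt_succ_self _) h1 h2 h3
    by_cases hB : B.length ≤ 2
    · have hl := h4.length
      rw [List.length_append] at hl
      obtain ⟨x, x', a, c, T', k1, k2, k3, k4⟩ := ih (S.erase j) A
        (by rw [Finset.card_erase_of_mem hj]; omega)
        (fun x hx => h4.all (fun γ x hx => hx.conj γ) hT x (List.mem_append_left _ hx))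
        (sup_erase hs (h4.gen ▸ gen_left A B) h5) (by omega)
      exact ⟨x, x', a, c, T' ++ B, h4.trans (k1.app_right B), k2, k3, by
        rw [List.map_append]; exact gen_left _ _ k4⟩
    · rcases B with _ | ⟨x, _ | ⟨x', _ | ⟨z, B⟩⟩⟩ <;> try simp at hB
      refine ⟨x, x', j, i, (A.map fun a => [x, x'].prod⁻¹ * a * [x, x'].prod) ++ z :: B,
        h4.trans (by simpa using (hur_blockL A [x, x']).app_right (z :: B)), h6 x (by simp),
        h6 x' (by simp), mem_gen ?_⟩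
      rw [(h6 x (by simp)).2.1, ← (h6 z (by simp)).2.1]
      simp

end Pool.Agent.GR.GC
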