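import Pool.Agent.Lib.MP_aa40d3_nt.FK.Abs
import Pool.Agent.Lib.MP_aa40d3_nt.NP.Small

/-! Few sheets; only the loops that keep all sheets are known to be quasi-unipotent. -/

open Matrix

namespace Pool.Agent.GR.FK

open GC NP

section
variable {G G' : Type} [Group G] [Group G'] {d : ℕ} {π : G →* Equiv.Perm (Fin d)}
  {π' : G' →* Equiv.Perm (Fin d)} {Q : G → Prop} {Q' : G' → Prop} {l l' : List G}

/-- The members and the initial products that keep all sheets have the property `Q`. -/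
def LK (π : G →* Equiv.Perm (Fin d)) (Q : G → Prop) (l : List G) : Prop :=
  ∀ A B, Hur l (A ++ B) → π A.prod = 1 ∨ A.length = 1 → Q A.prod

theorem LK.hur (hf : LK π Q l) (h : Hur l l') : LK π Q l' := fun A B h' => hf A B (h.trans h')

theorem LK.left {A B : List G} (hf : LK π Q (A ++ B)) : LK π Q A := fun C D h =>
  hf C (D ++ B) (by simpa using h.app_right B)

theorem LK.mem (hf : LK π Q l) {x : G} (hx : x ∈ l) : Q x := by
  obtain ⟨A, B, rfl⟩ := List.append_of_mem hx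
  have h := (hur_oneL A x).app_right B
  have h2 := hf [x] ((A.map fun y => x⁻¹ * y * x) ++ B) (by simpa using h) (Or.inr rfl)
  simpa using h2

theorem LK.adj {A B : List G} {x y : G} (h : LK π Q (A ++ x :: y :: B)) (hπ : π (x * y) = 1) :
    Q (x * y) := by
  have h1 := (hur_blockL A [x, y]).app_right B
  have h2 := h [x, y] ((A.map fun t => [x, y].prod⁻¹ * t * [x, y].prod) ++ B) (by simpa using h1)
    (Or.inl (by simpa using hπ))
  simpa using h2

theorem LK.map (φ : G →* G') (hπ : ∀ x, π' (φ x) = π x) (hφ : ∀ x, Q x → Q' (φ x))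
    (h : LK π Q l) : LK π' Q' (l.map φ) := by
  intro A B hAB hA
  obtain ⟨l', hl, he⟩ := Hur.lift φ hAB
  obtain ⟨A', B', rfl, rfl, rfl⟩ := List.map_eq_append_iff.1 he
  rw [← map_list_prod, List.length_map, hπ] at hA
  rw [← map_list_prod]
  exact hφ _ (h A' B' hl hA)

theorem LK.of_map (φ : G →* G') (hπ : ∀ x, π' (φ x) = π x) (hφ : ∀ x, Q' (φ x) → Q x)
    (h : LK π' Q' (l.map φ)) : LK π Q l := fun A B hAB hA => by
  have h1 := h (A.map φ) (B.map φ) (by simpa using hAB.map φ)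
    (by rwa [← map_list_prod, List.length_map, hπ])
  rw [← map_list_prod] at h1
  exact hφ _ h1

theorem ker_fi (π : G →* Equiv.Perm (Fin d)) : π.ker.FiniteIndex := inferInstance

theorem ker_index (π : G →* Equiv.Perm (Fin d)) (S : Finset (Fin d))
    (h : ∀ x j, j ∉ S → π x j = j) : π.ker.index ≤ S.card ^ S.card := by
  have hm : ∀ (y : π.range) (s : S), y.val s ∈ S := by
    rintro ⟨_, x, rfl⟩ ⟨s, hs⟩
    by_contra hn
    exact hn (by rw [(π x).injective (h x _ hn)]; exact hs)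
  rw [Subgroup.index_ker]
  refine (Nat.card_le_card_of_injective (fun (y : π.range) (s : S) => (⟨_, hm y s⟩ : S))
    fun y z e => ?_).trans (by simp)
  obtain ⟨_, x, rfl⟩ := y
  obtain ⟨_, w, rfl⟩ := z
  refine Subtype.ext (Equiv.ext fun j => ?_)
  by_cases hj : j ∈ S
  · exact congrArg Subtype.val (congrFun e ⟨j, hj⟩)
  · exact (h x j hj).trans (h w j hj).symm

theorem qu_of_fin {m : ℕ} (σ : G →* Mt m) {x : G} (h : IsOfFinOrder x) : QU (σ x) := by
  obtain ⟨k, hk, e⟩ := isOfFinOrder_iff_pow_eq_one.1 h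
  exact ⟨k, hk, by rw [← map_pow, e, map_one, sub_self]; exact IsNilpotent.zero⟩

end

theorem finite_listK (D J : ℕ) : ∃ k : ℕ, ∀ m, m ≠ 0 → m ≤ D → ∀ (G : Type) [Group G]
    (l : List G) (σ : G →* Mt m) (d : ℕ) (π : G →* Equiv.Perm (Fin d)) (P : G → Bool),
    π.ker.index ≤ J → gen l = ⊤ → Function.Injective σ → IrrR σ → LK π (fun x => QU (σ x)) l →
    k ≤ l.countP P → (∀ Z : Subalgebra ℂ (Mt m), InvR σ Z → (∃ x ∈ Z, ¬ Scl x) →
      ∀ y ∈ l, P y → ∃ x ∈ Z, σ y * x ≠ x * σ y) → Finite G := by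
  classical
  choose f hf using fun m => finite_absK (m + 1) J
  refine ⟨(Finset.range D).sup f, fun m hm hD G _ l σ d π P hJ hg hi hI hfin hk hZ => ?_⟩
  obtain ⟨m, rfl⟩ := Nat.exists_eq_succ_of_ne_zero hm
  have hl : (List.finRange l.length).map l.get = l := List.map_get_finRange l
  have := ker_fi π
  refine hf m l.length Finset.univ (List.finRange _) G l.get σ π.ker hJ (List.nodup_finRange _)
    List.mem_finRange ?_ hi hI (fun a => hfin.mem (List.get_mem l a))
    (fun x hx hK => ?_) fun Z h1 h2 =>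
      ⟨Finset.univ.filter fun a => P (l.get a), Finset.subset_univ _, ?_, fun a ha =>
        hZ Z h1 h2 _ (List.get_mem l a) (Finset.mem_filter.1 ha).2⟩
  · rw [← hg, gen]
    congr 1
    ext x
    exact List.mem_iff_get.symm
  · obtain ⟨L, R, h, hs, -, rfl⟩ := hx
    have h1 := hur_of_st (List.nodup_finRange _) hs
    rw [hl, List.map_append] at h1
    exact hfin (L.map h) (R.map h) h1 (Or.inl (MonoidHom.mem_ker.1 hK))
  · refine (Finset.le_sup (f := f) (Finset.mem_range.2 hD)).trans (hk.trans ?_)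
    conv_lhs => rw [← hl, List.countP_map, List.countP_eq_length_filter,
      ← List.toFinset_card_of_nodup ((List.nodup_finRange _).filter _)]
    refine Finset.card_le_card fun a ha => ?_
    simpa using ha

theorem finite_smallK (r D : ℕ) (hr : 1 ≤ r) : ∃ k : ℕ, ∀ (d m : ℕ) (G : Type) [Group G]
    (σ : G →* Mt m) (b : BR σ d) (S : Finset (Fin d)) (l : List G), m ≠ 0 → m ≤ D →
    S.card = r + 2 → gen l = ⊤ → (∀ x ∈ l, b.bs.Ok r x) → b.bs.Sup ⊤ S → b.bs.Trans ⊤ S →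
    (∀ j, j ∉ S → b.e j = 0) → (∀ i ∈ S, b.Irr1 ⊤ i) → LK b.π (fun x => QU (σ x)) l →
    k ≤ b.bs.cnt l → Finite G := by
  obtain ⟨k, hk⟩ := finite_listK D ((r + 2) ^ (r + 2))
  refine ⟨k, fun d m G _ σ b S l hm hD hS hg hok hs ht he hi hf hc => ?_⟩
  have : NeZero m := ⟨hm⟩
  have hcn := BS.conn hg hok ht
  by_cases h : ∃ x, b.π x = 1 ∧ (∃ c ∈ S, x ∈ b.K c) ∧ x ≠ 1
  · have hI : IrrR σ := b.irr he hcn hi fun i h1 v h2 h3 => b.fixed hs hcn hi h h1 h2 h3
    refine hk m hm hD G l σ d b.π _ (hS ▸ ker_index b.π S fun x j hj => (hs x trivial j hj).1)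
      hg b.inj hI hf hc fun Z h1 ⟨z, hz, h2⟩ y hy hP => ?_
    by_contra h3
    push Not at h3
    rcases hok y hy with ⟨i, j, h4⟩ | h4
    · exact h2 (schur hI fun x => b.nc hg hr hok hS.ge he hs hcn h1 h4 h3 x z hz)
    · exact of_decide_eq_true hP h4.1
  · push Not at h
    exact BS.fin_triv hg hr hok hS.ge hs hcn h

/-- The claim for matrices of size `m`. -/
def SmallK (r k m : ℕ) : Prop :=
  ∀ (d : ℕ) (G : Type) [Group G] (σ : G →* Mt m) (b : BR σ d) (S : Finset (Fin d)) (l : List G),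
    m ≠ 0 → S.card = r + 2 → gen l = ⊤ → (∀ x ∈ l, b.bs.Ok r x) → b.bs.Sup ⊤ S → b.bs.Trans ⊤ S →
    (∀ j, j ∉ S → b.e j = 0) → LK b.π (fun x => QU (σ x)) l → k ≤ b.bs.cnt l → VU σ

theorem ind_quotK {r k d m : ℕ} {G : Type} [Group G] {σ : G →* Mt m} (b : BR σ d)
    {S : Finset (Fin d)} {l : List G} (hS : S.card = r + 2) (hg : gen l = ⊤)
    (hok : ∀ x ∈ l, b.bs.Ok r x) (hs : b.bs.Sup ⊤ S) (ht : b.bs.Trans ⊤ S)
    (he : ∀ j, j ∉ S → b.e j = 0) (hf : LK b.π (fun x => QU (σ x)) l) (hc : k ≤ b.bs.cnt l)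
    {E : Mt m} (hE : E * E = E)
    (hEe : ∀ i, E * b.e i = b.e i * E) (hσ : ∀ x y, E * σ x * E * σ y * E = E * σ (x * y) * E)
    (h0 : ∀ i ∈ S, E * b.e i ≠ 0) (hm : E.rank ≠ 0) (ih : SmallK r k E.rank) :
    ∃ (N : Subgroup G) (j : ℕ), N.FiniteIndex ∧ ∀ L : List G, (∀ x ∈ L, x ∈ N) → L.length = j →
      E * (L.map fun x => σ x - 1).prod * E = 0 := by
  obtain ⟨N, hN, σ', b', P, Q, k0, k1, k2, k3, k4⟩ := compressQ b hE hEe hσ hs h0
  have hL : ∀ x, σ'.comp (QuotientGroup.mk' N) x = sandL Q P (σ x) := k1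
  have hπ : ∀ x : G, b'.bs.π (QuotientGroup.mk' N x) = b.bs.π x := k2
  have hK : ∀ (x : G) i, x ∈ b.bs.K i → QuotientGroup.mk' N x ∈ b'.bs.K i := k3
  have : VU σ' := by
    refine ih d _ σ' b' S (l.map (QuotientGroup.mk' N)) hm hS ?_ (fun y hy => ?_)
      (fun y _ j hj => ?_) (fun u hu v hv => ?_) (fun j hj => k4 j (he j hj)) 
      (hf.map _ hπ fun x => QU.of_lin hL) ?_
    · rw [eq_top_iff, ← MonoidHom.range_eq_top.2 (QuotientGroup.mk'_surjective N),
        MonoidHom.range_eq_map, ← hg, Subgroup.map_le_iff_le_comap, gen_le]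
      exact fun x hx => mem_gen (List.mem_map_of_mem hx)
    · obtain ⟨x, hx, rfl⟩ := List.mem_map.1 hy
      rcases hok x hx with ⟨u, v, e1, e2, e3, e4⟩ | ⟨e1, T, e2, e3⟩
      · exact Or.inl ⟨u, v, e1, (hπ x).trans e2, by rw [← map_mul, e3, map_one],
          fun w a1 a2 => hK x w (e4 w a1 a2)⟩
      · exact Or.inr ⟨(hπ x).trans e1, T, e2, fun w a1 => hK x w (e3 w a1)⟩
    · obtain ⟨x, rfl⟩ := QuotientGroup.mk'_surjective N y
      exact hK x j (hs x (Subgroup.mem_top x) j hj)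
    · obtain ⟨x, -, e⟩ := ht u hu v hv
      exact ⟨QuotientGroup.mk' N x, Subgroup.mem_top _, by rw [hπ]; exact e⟩
    · rw [BS.cnt, List.countP_map]
      exact hc.trans (List.countP_congr fun x _ => by simp only [Function.comp, hπ]).le
  obtain ⟨H, j, h1, h2⟩ := this
  refine ⟨H.comap (QuotientGroup.mk' N), j, ⟨?_⟩, fun L k5 k6 => ?_⟩
  · rw [H.index_comap_of_surjective (QuotientGroup.mk'_surjective N)]
    exact h1.index_ne_zero
  · have h3 := h2 (L.map (QuotientGroup.mk' N)) (fun x hx => by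
      obtain ⟨y, hy, rfl⟩ := List.mem_map.1 hx
      exact k5 y hy) (by rw [List.length_map, k6])
    have h4 := lin_prod hL L 1
    rw [map_one, map_one, one_mul, one_mul] at h4
    rw [List.map_map, mul_one] at h3
    have h5 : Q * (L.map fun x => σ x - 1).prod * P = 0 := h4.trans h3
    rw [← k0, ← Matrix.mul_assoc, Matrix.mul_assoc P, Matrix.mul_assoc P, h5, Matrix.mul_zero,
      Matrix.zero_mul]

theorem vu_smallK (r D : ℕ) (hr : 1 ≤ r) : ∃ k : ℕ, ∀ m ≤ D, SmallK r k m := by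
  classical
  obtain ⟨k₁, h₁⟩ := finite_smallK r D hr
  refine ⟨k₁, fun m => ?_⟩
  induction m using Nat.strong_induction_on with
  | _ m ih =>
  intro hD d G _ σ b S l hm hS hg hok hs ht he hF hc
  by_cases hI : ∀ i ∈ S, b.Irr1 ⊤ i
  · have := h₁ d m G σ b S l hm hD hS hg hok hs ht he hI hF hc
    exact VU.of_finite
  push Not at hI
  obtain ⟨i, hi, hI⟩ := hI
  obtain ⟨Q, q1, q2, q3, q4, q5⟩ := b.exists_proj ht hi hI
  have hne : ∀ E : Mt m, E * b.e i ≠ 0 → E.rank ≠ 0 := fun E h2 h3 => by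
    rw [Matrix.rank, Submodule.finrank_eq_zero, LinearMap.range_eq_bot, ← toLin'_apply',
      LinearEquiv.map_eq_zero_iff] at h3
    exact h2 (by rw [h3, zero_mul])
  have p1 : (1 - Q) * (1 - Q) = 1 - Q := by
    rw [mul_sub, sub_mul, sub_mul, q1, mul_one, mul_one, one_mul, sub_self, sub_zero]
  have p2 : ∀ x, (1 - Q) * σ x * Q = 0 := fun x => by
    rw [sub_mul, sub_mul, one_mul, q3, sub_self]
  have p4 : (1 - Q) * Q = 0 := by rw [sub_mul, q1, one_mul, sub_self]
  have m1 : ∀ x y, Q * σ x * Q * σ y * Q = Q * σ (x * y) * Q := fun x y => by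
    rw [mul_assoc (Q * σ x), mul_assoc (Q * σ x), q3, map_mul]
    simp only [mul_assoc]
  have m2 : ∀ x y, (1 - Q) * σ x * (1 - Q) * σ y * (1 - Q) = (1 - Q) * σ (x * y) * (1 - Q) :=
    fun x y => by rw [mul_sub ((1 - Q) * σ x), p2, mul_one, sub_zero, map_mul, ← mul_assoc]
  have hr1 := hne Q (q4 i hi)
  have hr2 := hne _ (q5 i hi)
  have hrk := rank_idem q1
  obtain ⟨N₁, j₁, n1, n2⟩ := ind_quotK b hS hg hok hs ht he hF hc q1 q2 m1 q4 hr1
    (ih _ (by omega) (by omega))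
  obtain ⟨N₂, j₂, n3, n4⟩ := ind_quotK b hS hg hok hs ht he hF hc p1
    (fun j => by rw [sub_mul, mul_sub, one_mul, mul_one, q2]) m2 q5 hr2 (ih _ (by omega) (by omega))
  have inv : ∀ L : List G, (1 - Q) * (L.map fun x => σ x - 1).prod * Q = 0 := fun L => by
    induction L with
    | nil => simpa using p4
    | cons x L ih =>
      have h1 : (L.map fun x => σ x - 1).prod * Q = Q * ((L.map fun x => σ x - 1).prod * Q) := by
        rw [mul_assoc, sub_mul, one_mul, sub_eq_zero] at ih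
        exact ih
      rw [List.map_cons, List.prod_cons, mul_assoc, mul_assoc, h1, ← mul_assoc, ← mul_assoc,
        mul_sub (1 - Q), sub_mul, p2, mul_one, p4, sub_zero, zero_mul]
  refine ⟨N₁ ⊓ N₂, j₁ + j₂, inferInstance, fun L k1 k2 => ?_⟩
  have a1 := n2 (L.take j₁) (fun x hx => (k1 x (List.mem_of_mem_take hx)).1)
    (by rw [List.length_take]; omega)
  have a2 := n4 (L.drop j₁) (fun x hx => (k1 x (List.mem_of_mem_drop hx)).2)
    (by rw [List.length_drop]; omega)
  have a3 := inv (L.take j₁)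
  have a4 := inv (L.drop j₁)
  rw [← L.take_append_drop j₁, List.map_append, List.prod_append, mul_one]
  generalize ((L.take j₁).map fun x => σ x - 1).prod = U at a1 a3
  generalize ((L.drop j₁).map fun x => σ x - 1).prod = V at a2 a4
  calc U * V = (Q * U * Q + (1 - Q) * U * Q) * V +
        U * ((1 - Q) * V * (1 - Q) + (1 - Q) * V * Q) := by noncomm_ring
    _ = 0 := by rw [a1, a2, a3, a4, add_zero, zero_mul, mul_zero, add_zero]

end Pool.Agent.GR.FK
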